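import Pool.Agent.H906.BD.W.Mol
import Pool.Agent.H906.BD.Stokes

/-! # W09 Adj: the current `T^{n-1}`

From `CForm U T` and the invariance of `T` we get `WForm U A` and `InvW U ρ A` for `A x = (T x).adjugate`.
`mol_c1` (imported statement, being proved by others) extends the closedness to `C^1` test functions.
* `int` is `aint`; `pos`: `stokes_adj` (`BD/Stokes.lean`); `row`: `mol_c1` with `F j x = (T x).adjugate k j`.
* `col`: for almost every `x ∈ U` the adjugate is hermitian: `A_{kj} = star A_{jk}`; so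
  `∑_k A_{kj} \bar∂_k χ = star (∑_k A_{jk} ∂_k (star χ))` (`adj_dzb_star` of `BD/Adj.lean`:
  `dzb k (star f) = star (dz k f)`) almost everywhere (off `tsupport χ` both sides vanish), and `integral_conj`;
  apply `row` to `star χ`.
* `InvW`: `equi_matrix` (`BD/Equi.lean`) with `J = Jac (ρ γ) x`, `G = T (ρ γ x)`, `g = T x`. -/

set_option linter.unusedSectionVars false

open Filter Topology Set Metric MeasureTheory
open scoped ComplexOrder ContDiff

namespace Pool.Agent.H906.BD

variable {N : Type*} [Fintype N] [DecidableEq N] {Γ : Type*} [Group Γ]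

theorem wadj_dz_zero {χ : (N → ℂ) → ℂ} {x : N → ℂ} (hx : x ∉ tsupport χ) (k : N) :
    dz k χ x = 0 := by
  unfold dz
  rw [fderiv_of_notMem_tsupport ℝ hx]
  simp

theorem wadj_dzb_zero {χ : (N → ℂ) → ℂ} {x : N → ℂ} (hx : x ∉ tsupport χ) (k : N) :
    dzb k χ x = 0 := by
  unfold dzb
  rw [fderiv_of_notMem_tsupport ℝ hx]
  simp

theorem wadj_tsupport (χ : (N → ℂ) → ℂ) : tsupport (fun x => star (χ x)) = tsupport χ := by
  unfold tsupport
  congr 1
  ext x
  simp [Function.mem_support]

theorem wadj_herm {M : Matrix N N ℂ} (hM : M.PosDef) (j k : N) :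
    M.adjugate k j = star (M.adjugate j k) := by
  have hH : Matrix.conjTranspose M = M := hM.isHermitian
  have h1 := Matrix.adjugate_conjTranspose M
  rw [hH] at h1
  have h2 := congrFun (congrFun h1 k) j
  rw [Matrix.conjTranspose_apply] at h2
  exact h2.symm

theorem cform_adj {U : Set (N → ℂ)} (hU : IsOpen U) {T : (N → ℂ) → Matrix N N ℂ}
    (hT : CForm U T) {ρ : Γ → (N → ℂ) → (N → ℂ)} (hinv : InvAE U ρ T) :
    WForm U (fun x => (T x).adjugate) ∧ InvW U ρ (fun x => (T x).adjugate) := by
  have hrow : ∀ χ : (N → ℂ) → ℂ, ContDiff ℝ 1 χ → HasCompactSupport χ → tsupport χ ⊆ U →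
      ∀ k, ∫ x, ∑ j, (T x).adjugate k j * dz j χ x = 0 := fun χ hχ hχc hχU k =>
    mol_c1 hU (F := fun j x => (T x).adjugate k j) (fun K hK hKc j => hT.aint K hK hKc k j)
      (fun χ' h1 h2 h3 => hT.aclosed χ' h1 h2 h3 k) hχ hχc hχU
  refine ⟨⟨hT.aint, ?_, hrow, ?_⟩, ?_⟩
  · filter_upwards [hT.pos] with x hx hxU
    exact stokes_adj (hx hxU)
  · intro χ hχ hχc hχU j
    have hs : ContDiff ℝ 1 (fun x => star (χ x)) :=
      (Complex.conjCLE : ℂ →L[ℝ] ℂ).contDiff.comp hχ
    have hts := wadj_tsupport χ
    have h1 := hrow (fun x => star (χ x)) hs (by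
      unfold HasCompactSupport
      rw [hts]
      exact hχc) (by rw [hts]; exact hχU) j
    have e1 : ∫ x, ∑ k, (T x).adjugate k j * dzb k χ x =
        ∫ x, (starRingEnd ℂ) (∑ k, (T x).adjugate j k * dz k (fun x => star (χ x)) x) := by
      refine integral_congr_ae ?_
      filter_upwards [hT.pos] with x hx
      by_cases hxs : x ∈ tsupport χ
      · rw [map_sum]
        refine Finset.sum_congr rfl fun k _ => ?_
        have h2 := adj_dzb_star k (fun y => star (χ y)) x
        have h3 : (fun y => star (star (χ y))) = χ := by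
          funext y
          exact star_star _
        rw [h3] at h2
        rw [h2, wadj_herm (hx (hχU hxs)) j k, map_mul]
        rfl
      · have hxs' : x ∉ tsupport (fun x => star (χ x)) := by rw [hts]; exact hxs
        rw [Finset.sum_eq_zero fun k _ => by rw [wadj_dzb_zero hxs, mul_zero],
          Finset.sum_eq_zero fun k _ => by rw [wadj_dz_zero hxs', mul_zero], map_zero]
    show ∫ x, ∑ k, (T x).adjugate k j * dzb k χ x = 0
    rw [e1, integral_conj, h1, map_zero]
  · intro γ
    filter_upwards [hinv γ] with x hx hxU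
    exact equi_matrix _ _ _ (hx hxU)

end Pool.Agent.H906.BD
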