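import Pool.Agent.H906.BD.W.Defs
import Pool.Agent.H906.BD.Lin
import Pool.Agent.H906.PC.Weak8

/-! # W08 Avg: the average of a closed positive current over a ball of the base

`Γ` acts on `D × ℂ^B` by `(z, w) ↦ (σ_γ z, (a_{γ,j} w_j + b_{γ,j})_j)`; `T` is an invariant closed positive current
on `D × ℂ^B` (`CForm`, only the fields `int`, `pos`, `closed` are used). Let
`Λ = lin_Lam` be the group of affine maps of `ℂ^B` given by the kernel of `σ` (`BD/Lin.lean`). Claim: there is a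
`Λ`-invariant closed positive current `T'` on `ℂ^B = Dom (Fin 0) B` in the sense of the library `PC`
(`PC.IsCurrent`, file `PC/Weak2.lean`; there `Pt (Fin 0) B = Fin 0 ⊕ B → ℂ`, `wd` is the same as `dz`).

Proof. Choose `z₀ ∈ D` and a smooth function `η ≥ 0` on `A → ℂ` with compact support in `D`, `η > 0` on a ball around `z₀`
(`ContDiffBump`). Put, for `y : Fin 0 ⊕ B → ℂ`,
`T' y = Matrix.of fun i j => ∫ z, η z * T (lin_emb z y) (lin_iota i) (lin_iota j)` (`lin_emb`, `lin_iota` of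
`BD/Lin.lean`: the point `(z, y)` and the inclusion of the indices). Use the measurable equivalence
`(A → ℂ) × (Fin 0 ⊕ B → ℂ) ≃ (A ⊕ B → ℂ)`, volume preserving (for instance
`MeasurableEquiv.sumPiEquivProdPi` and `volume_preserving_sumPiEquivProdPi`, together with the equivalence
`Fin 0 ⊕ B ≃ B`), and Fubini.
* `int`: for `K` compact, `η(z) T(z,y)` is integrable on `(tsupport η) × K`, so its partial integral is
  integrable on `K` (`Integrable.integral_prod_right` or `_left`).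
* `pos`: by Fubini (`Measure.ae_ae_of_ae_prod`), for almost every `y`, `T(z,y)` is positive definite for almost
  every `z ∈ D` and `z ↦ η z * T(z,y)_{ij}` is integrable. For such `y` and `ξ ≠ 0`:
  `ξᴴ T'(y) ξ = ∫ η(z) ξ'ᴴ T(z,y) ξ' dz > 0` (`ξ'` extends `ξ` by zero; the integrand is `≥ 0`, `> 0` a.e. on the ball
  where `η > 0`; `setIntegral_pos_iff_support_of_nonneg_ae` or `integral_pos_iff_support_of_nonneg_ae`), and
  `T'(y)` is hermitian. Note that `T` outside of `Tot D B` does not matter since `η = 0` there.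
* `closed`: for `χ` a test function on `ℂ^B` the function `(z,w) ↦ η(z) χ(w)` is a test function on `D × ℂ^B` and
  `dz (inr i) (η χ) = η · wd (inr i) χ`; use `hT.closed` for the indices `inr i, inr j, inr k` and Fubini (both
  integrals over `A ⊕ B → ℂ` are `∫ y, (T' y)_{jk} * wd i χ y`).
* `inv`: for `x ∈ Λ` given by `γ` with `Triv D σ γ`: `ρ γ (z, y) = (z, act x y)` for `z ∈ D` (`lin_fib`), the columns
  of the Jacobian are given by `lin_jac`, as in the proof of `lin_kahler`: for almost every `(z, y)`, `z ∈ D`: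
  `T(z, act x y)_{ij} a_i star a_j = T(z,y)_{ij}` (`i j` in `B`), with `a_i = PC.der x y i`. By Fubini, for almost
  every `y` this holds for almost every `z`; integrate against `η`. -/

set_option linter.unusedSectionVars false

open Filter Topology Set Metric MeasureTheory
open scoped ComplexOrder ContDiff

namespace Pool.Agent.H906.BD

variable {A B : Type*} [Fintype A] [Fintype B] [DecidableEq A] [DecidableEq B]
variable {Γ : Type*} [Group Γ]

/-- the parametrisation of `ℂ^A × ℂ^B` -/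
def wavg_phi (A B : Type*) (p : PC.Pt (Fin 0) B × (A → ℂ)) : A ⊕ B → ℂ := lin_emb p.2 p.1

theorem wavg_cont : Continuous (wavg_phi A B) := by
  refine continuous_pi fun k => ?_
  rcases k with i | j
  · show Continuous fun p : PC.Pt (Fin 0) B × (A → ℂ) => p.2 i
    exact (continuous_apply i).comp continuous_snd
  · show Continuous fun p : PC.Pt (Fin 0) B × (A → ℂ) => p.1 (Sum.inr j)
    exact (continuous_apply (Sum.inr j)).comp continuous_fst

/-- the projection to `ℂ^B` -/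
def wavg_pr (A B : Type*) (x : A ⊕ B → ℂ) : PC.Pt (Fin 0) B := fun k => x (lin_iota k)

theorem wavg_pr_phi (p : PC.Pt (Fin 0) B × (A → ℂ)) : wavg_pr A B (wavg_phi A B p) = p.1 := by
  funext k
  rcases k with i | j
  · exact i.elim0
  · rfl

theorem wavg_prA_phi (p : PC.Pt (Fin 0) B × (A → ℂ)) : prA (wavg_phi A B p) = p.2 := rfl

theorem wavg_q : MeasurePreserving (fun (y : PC.Pt (Fin 0) B) (j : B) => y (Sum.inr j)) volume
    volume := by
  have h := volume_measurePreserving_piCongrLeft (fun _ : B => ℂ) (Equiv.emptySum (Fin 0) B)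
  have e : (MeasurableEquiv.piCongrLeft (fun _ : B => ℂ) (Equiv.emptySum (Fin 0) B) :
      (Fin 0 ⊕ B → ℂ) → (B → ℂ)) = fun y j => y (Sum.inr j) := by
    funext y j
    rfl
  rw [e] at h
  exact h

theorem wavg_mp : MeasurePreserving (wavg_phi A B) volume volume := by
  have h1 : MeasurePreserving (Prod.swap : PC.Pt (Fin 0) B × (A → ℂ) → _) volume volume :=
    Measure.measurePreserving_swap
  have h2 : MeasurePreserving (Prod.map (id : (A → ℂ) → (A → ℂ))
      (fun (y : PC.Pt (Fin 0) B) (j : B) => y (Sum.inr j))) volume volume :=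
    (MeasurePreserving.id (volume : Measure (A → ℂ))).prod wavg_q
  have h3 := volume_measurePreserving_sumPiEquivProdPi_symm (fun _ : A ⊕ B => ℂ)
  have h4 := (h3.comp h2).comp h1
  have e : (((MeasurableEquiv.sumPiEquivProdPi fun _ : A ⊕ B => ℂ).symm ∘
      Prod.map (id : (A → ℂ) → (A → ℂ))
        (fun (y : PC.Pt (Fin 0) B) (j : B) => y (Sum.inr j))) ∘ Prod.swap) =
      wavg_phi A B := by
    funext p k
    rcases k with i | j <;> rfl
  rw [e] at h4
  exact h4

theorem wavg_inj : Function.Injective (wavg_phi A B) := by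
  intro p q h
  refine Prod.ext ?_ ?_
  · rw [← wavg_pr_phi (A := A) p, h, wavg_pr_phi]
  · rw [← wavg_prA_phi p, h, wavg_prA_phi]

theorem wavg_me : MeasurableEmbedding (wavg_phi A B) := by
  have h : Topology.IsClosedEmbedding (wavg_phi A B) := by
    refine Topology.IsClosedEmbedding.of_continuous_injective_isClosedMap wavg_cont wavg_inj ?_
    have hc : Continuous fun x : A ⊕ B → ℂ => (wavg_pr A B x, prA x) := by
      refine Continuous.prodMk (continuous_pi fun k => continuous_apply (lin_iota k)) ?_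
      exact continuous_pi fun i => continuous_apply (Sum.inl i)
    intro S hS
    have e : wavg_phi A B '' S = (fun x : A ⊕ B → ℂ => (wavg_pr A B x, prA x)) ⁻¹' S := by
      ext x
      constructor
      · rintro ⟨p, hp, rfl⟩
        show (wavg_pr A B (wavg_phi A B p), prA (wavg_phi A B p)) ∈ S
        rw [wavg_pr_phi]
        exact hp
      · intro hx
        refine ⟨_, hx, ?_⟩
        funext k
        rcases k with i | j <;> rfl
    rw [e]
    exact hS.preimage hc
  exact h.measurableEmbedding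

/-- weights: smooth, nonnegative, with compact support in `D`, positive on a ball -/
structure wavg_W (D : Set (A → ℂ)) (η : (A → ℂ) → ℝ) (z₀ : A → ℂ) (r : ℝ) : Prop where
  smooth : ContDiff ℝ ∞ η
  nonneg : ∀ z, 0 ≤ η z
  compact : HasCompactSupport η
  supp : tsupport η ⊆ D
  r0 : 0 < r
  pos : ∀ z ∈ ball z₀ r, 0 < η z

theorem wavg_exists {D : Set (A → ℂ)} (hD : IsOpen D) (hne : D.Nonempty) :
    ∃ η z₀ r, wavg_W D η z₀ r := by
  obtain ⟨z₀, hz₀⟩ := hne
  obtain ⟨r, hr, hrD⟩ := Metric.nhds_basis_closedBall.mem_iff.1 (hD.mem_nhds hz₀)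
  let f : ContDiffBump z₀ := ⟨r / 2, r, by linarith, by linarith⟩
  refine ⟨f, z₀, r, f.contDiff, fun z => f.nonneg, f.hasCompactSupport, ?_, hr, fun z hz => ?_⟩
  · rw [f.tsupport_eq]
    exact hrD
  · exact f.pos_of_mem_ball hz

section S

variable {D : Set (A → ℂ)} {η : (A → ℂ) → ℝ} {z₀ : A → ℂ} {r : ℝ} (hη : wavg_W D η z₀ r)
  {T : (A ⊕ B → ℂ) → Matrix (A ⊕ B) (A ⊕ B) ℂ} (hT : CForm (Tot D B) T)

include hη

theorem wavg_zero {z : A → ℂ} (hz : z ∉ D) : η z = 0 :=
  image_eq_zero_of_notMem_tsupport fun h => hz (hη.supp h)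

include hT

/-- integrability of the weighted coefficients -/
theorem wavg_int {K : Set (PC.Pt (Fin 0) B)} (hK : IsCompact K) (i j : A ⊕ B) :
    Integrable (fun p : PC.Pt (Fin 0) B × (A → ℂ) => (η p.2 : ℂ) * T (wavg_phi A B p) i j)
      ((volume.restrict K).prod volume) := by
  have hS : IsCompact (K ×ˢ tsupport η) := hK.prod hη.compact
  have hsub : wavg_phi A B '' (K ×ˢ tsupport η) ⊆ Tot D B := by
    rintro _ ⟨p, hp, rfl⟩
    show prA (wavg_phi A B p) ∈ D
    rw [wavg_prA_phi]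
    exact hη.supp hp.2
  have h1 := hT.int _ hsub (hS.image wavg_cont) i j
  rw [wavg_mp.integrableOn_image wavg_me] at h1
  have h2 : IntegrableOn (fun p : PC.Pt (Fin 0) B × (A → ℂ) =>
      (η p.2 : ℂ) * T (wavg_phi A B p) i j) (K ×ˢ tsupport η) := by
    refine IntegrableOn.continuousOn_mul (g := fun p : PC.Pt (Fin 0) B × (A → ℂ) => (η p.2 : ℂ))
      ?_ h1 hS
    exact (Complex.continuous_ofReal.comp
      (hη.smooth.continuous.comp continuous_snd)).continuousOn
  have h3 : IntegrableOn (fun p : PC.Pt (Fin 0) B × (A → ℂ) =>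
      (η p.2 : ℂ) * T (wavg_phi A B p) i j) (K ×ˢ univ) := by
    refine h2.of_forall_sdiff_eq_zero (hK.measurableSet.prod MeasurableSet.univ) fun p hp => ?_
    have h4 : p.2 ∉ tsupport η := fun h => hp.2 ⟨hp.1.1, h⟩
    rw [image_eq_zero_of_notMem_tsupport h4]
    simp
  have h5 : (volume : Measure (PC.Pt (Fin 0) B × (A → ℂ))).restrict (K ×ˢ univ) =
      (volume.restrict K).prod volume := by
    rw [Measure.volume_eq_prod, ← Measure.prod_restrict, Measure.restrict_univ]
  rw [IntegrableOn, h5] at h3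
  exact h3

/-- integrability along almost every fibre -/
theorem wavg_ae_int (i j : A ⊕ B) : ∀ᵐ y : PC.Pt (Fin 0) B,
    Integrable (fun z : A → ℂ => (η z : ℂ) * T (wavg_phi A B (y, z)) i j) := by
  have h : ∀ n : ℕ, ∀ᵐ y : PC.Pt (Fin 0) B, y ∈ closedBall (0 : PC.Pt (Fin 0) B) n →
      Integrable (fun z : A → ℂ => (η z : ℂ) * T (wavg_phi A B (y, z)) i j) := fun n =>
    (ae_restrict_iff' measurableSet_closedBall).1
      ((wavg_int hη hT (isCompact_closedBall 0 n) i j).prod_right_ae)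
  filter_upwards [ae_all_iff.2 h] with y hy
  obtain ⟨n, hn⟩ := exists_nat_ge ‖y‖
  exact hy n (mem_closedBall_zero_iff.2 hn)

end S

theorem wavg_ae {P : (A ⊕ B → ℂ) → Prop} (h : ∀ᵐ x, P x) :
    ∀ᵐ y : PC.Pt (Fin 0) B, ∀ᵐ z : A → ℂ, P (wavg_phi A B (y, z)) :=
  Measure.ae_ae_of_ae_prod (wavg_mp.quasiMeasurePreserving.ae h)

/-- the average -/
noncomputable def wavg_T (η : (A → ℂ) → ℝ) (T : (A ⊕ B → ℂ) → Matrix (A ⊕ B) (A ⊕ B) ℂ)
    (y : PC.Pt (Fin 0) B) : Matrix (Fin 0 ⊕ B) (Fin 0 ⊕ B) ℂ :=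
  Matrix.of fun i j => ∫ z : A → ℂ, (η z : ℂ) * T (wavg_phi A B (y, z)) (lin_iota i) (lin_iota j)

theorem wavg_quad {ι : Type*} [Fintype ι] (M : Matrix ι ι ℂ) (ξ : ι → ℂ) :
    star ξ ⬝ᵥ (M.mulVec ξ) = ∑ i, ∑ j, star (ξ i) * ξ j * M i j := by
  unfold dotProduct Matrix.mulVec dotProduct
  refine Finset.sum_congr rfl fun i _ => ?_
  rw [Finset.mul_sum]
  refine Finset.sum_congr rfl fun j _ => ?_
  rw [Pi.star_apply]
  ring

section S2

variable {D : Set (A → ℂ)} {η : (A → ℂ) → ℝ} {z₀ : A → ℂ} {r : ℝ} (hη : wavg_W D η z₀ r)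
  {T : (A ⊕ B → ℂ) → Matrix (A ⊕ B) (A ⊕ B) ℂ} (hT : CForm (Tot D B) T)

include hη hT

theorem wavg_pos : ∀ᵐ y : PC.Pt (Fin 0) B, (wavg_T η T y).PosDef := by
  filter_upwards [wavg_ae hT.pos, ae_all_iff.2 (fun i => ae_all_iff.2 fun j =>
    wavg_ae_int hη hT i j)] with y h1 h2
  obtain ⟨M, hM⟩ : ∃ M : (A → ℂ) → Matrix (Fin 0 ⊕ B) (Fin 0 ⊕ B) ℂ,
      M = fun z => (T (wavg_phi A B (y, z))).submatrix lin_iota lin_iota := ⟨_, rfl⟩
  have hMij : ∀ z i j, M z i j = T (wavg_phi A B (y, z)) (lin_iota i) (lin_iota j) := by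
    intro z i j
    rw [hM]
    rfl
  have hT' : ∀ i j, wavg_T η T y i j = ∫ z : A → ℂ, (η z : ℂ) * M z i j := by
    intro i j
    simp only [hMij]
    rfl
  have hI : ∀ i j, Integrable fun z : A → ℂ => (η z : ℂ) * M z i j := by
    intro i j
    simp only [hMij]
    exact h2 _ _
  have hP : ∀ᵐ z : A → ℂ, z ∈ D → (M z).PosDef := by
    filter_upwards [h1] with z hz hzD
    rw [hM]
    exact (hz hzD).submatrix lin_iota_inj
  refine Matrix.PosDef.of_dotProduct_mulVec_pos ?_ ?_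
  · refine Matrix.IsHermitian.ext fun i j => ?_
    rw [hT', hT']
    have e := integral_conj (𝕜 := ℂ) (μ := (volume : Measure (A → ℂ)))
      (f := fun z : A → ℂ => (η z : ℂ) * M z j i)
    rw [← starRingEnd_apply, ← e]
    refine integral_congr_ae ?_
    filter_upwards [hP] with z hz
    by_cases hzD : z ∈ D
    · have h3 := (hz hzD).1.apply i j
      rw [map_mul, Complex.conj_ofReal, starRingEnd_apply, h3]
    · rw [wavg_zero hη hzD]
      simp
  · intro ξ hξ
    have hG : Integrable fun z : A → ℂ => (η z : ℂ) * (star ξ ⬝ᵥ ((M z).mulVec ξ)) := by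
      simp only [wavg_quad, Finset.mul_sum]
      refine integrable_finsetSum _ fun i _ => integrable_finsetSum _ fun j _ => ?_
      refine ((hI i j).const_mul (star (ξ i) * ξ j)).congr (Eventually.of_forall fun z => ?_)
      simp only
      ring
    have e : star ξ ⬝ᵥ ((wavg_T η T y).mulVec ξ) =
        ∫ z : A → ℂ, (η z : ℂ) * (star ξ ⬝ᵥ ((M z).mulVec ξ)) := by
      simp only [wavg_quad, Finset.mul_sum]
      rw [integral_finsetSum _ fun i _ => integrable_finsetSum _ fun j _ => by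
        refine ((hI i j).const_mul (star (ξ i) * ξ j)).congr (Eventually.of_forall fun z => ?_)
        simp only
        ring]
      refine Finset.sum_congr rfl fun i _ => ?_
      rw [integral_finsetSum _ fun j _ => by
        refine ((hI i j).const_mul (star (ξ i) * ξ j)).congr (Eventually.of_forall fun z => ?_)
        simp only
        ring]
      refine Finset.sum_congr rfl fun j _ => ?_
      rw [hT', ← integral_const_mul]
      refine integral_congr_ae (Eventually.of_forall fun z => ?_)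
      simp only
      ring
    have hq : ∀ᵐ z : A → ℂ, (η z : ℂ) * (star ξ ⬝ᵥ ((M z).mulVec ξ)) =
        ((η z * (star ξ ⬝ᵥ ((M z).mulVec ξ)).re : ℝ) : ℂ) ∧
        0 ≤ η z * (star ξ ⬝ᵥ ((M z).mulVec ξ)).re ∧
        (z ∈ ball z₀ r → η z * (star ξ ⬝ᵥ ((M z).mulVec ξ)).re ≠ 0) := by
      filter_upwards [hP] with z hz
      by_cases hzD : z ∈ D
      · have h3 := (hz hzD).dotProduct_mulVec_pos hξ
        obtain ⟨h4, h5⟩ := Complex.lt_def.1 h3
        rw [Complex.zero_re] at h4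
        rw [Complex.zero_im] at h5
        refine ⟨?_, mul_nonneg (hη.nonneg z) h4.le, fun hb => (mul_pos (hη.pos z hb) h4).ne'⟩
        rw [Complex.ofReal_mul]
        congr 1
        apply Complex.ext
        · rw [Complex.ofReal_re]
        · rw [Complex.ofReal_im, ← h5]
      · have h3 := wavg_zero hη hzD
        refine ⟨by simp [h3], by simp [h3], fun hb => ?_⟩
        have := hη.pos z hb
        rw [h3] at this
        exact absurd this (lt_irrefl _)
    have hqi : Integrable fun z : A → ℂ => η z * (star ξ ⬝ᵥ ((M z).mulVec ξ)).re := by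
      refine hG.re.congr ?_
      filter_upwards [hq] with z hz
      rw [hz.1]
      simp
    rw [e]
    have e2 : ∫ z : A → ℂ, (η z : ℂ) * (star ξ ⬝ᵥ ((M z).mulVec ξ)) =
        ((∫ z : A → ℂ, η z * (star ξ ⬝ᵥ ((M z).mulVec ξ)).re : ℝ) : ℂ) := by
      rw [← integral_complex_ofReal]
      exact integral_congr_ae (hq.mono fun z hz => hz.1)
    rw [e2]
    have h6 : 0 < ∫ z : A → ℂ, η z * (star ξ ⬝ᵥ ((M z).mulVec ξ)).re := by
      rw [integral_pos_iff_support_of_nonneg_ae (hq.mono fun z hz => hz.2.1) hqi]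
      refine (measure_ball_pos volume z₀ hη.r0).trans_le (measure_mono_ae ?_)
      filter_upwards [hq] with z hz hb
      exact hz.2.2 hb
    exact_mod_cast h6

theorem wavg_T_int {K : Set (PC.Pt (Fin 0) B)} (hK : IsCompact K) (i j : Fin 0 ⊕ B) :
    IntegrableOn (fun y => wavg_T η T y i j) K :=
  (wavg_int hη hT hK (lin_iota i) (lin_iota j)).integral_prod_left

end S2

section Cl

variable {η : (A → ℂ) → ℝ}

/-- the test function on the product -/
noncomputable def wavg_F (η : (A → ℂ) → ℝ) (χ : PC.Pt (Fin 0) B → ℂ) (x : A ⊕ B → ℂ) : ℂ :=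
  (η (prA x) : ℂ) * χ (wavg_pr A B x)

theorem wavg_F_smooth (hη : ContDiff ℝ ∞ η) {χ : PC.Pt (Fin 0) B → ℂ} (hχ : ContDiff ℝ ∞ χ) :
    ContDiff ℝ ∞ (wavg_F η χ) := by
  have h1 : ContDiff ℝ ∞ (prA : (A ⊕ B → ℂ) → (A → ℂ)) :=
    contDiff_pi.2 fun i => contDiff_apply ℝ ℂ (Sum.inl i)
  have h2 : ContDiff ℝ ∞ (wavg_pr A B) := contDiff_pi.2 fun k => contDiff_apply ℝ ℂ (lin_iota k)
  exact (Complex.ofRealCLM.contDiff.comp (hη.comp h1)).mul (hχ.comp h2)

theorem wavg_F_zero {χ : PC.Pt (Fin 0) B → ℂ} {x : A ⊕ B → ℂ}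
    (hx : x ∉ wavg_phi A B '' (tsupport χ ×ˢ tsupport η)) : wavg_F η χ x = 0 := by
  by_contra h
  apply hx
  have h1 : η (prA x) ≠ 0 := fun h0 => h (by rw [wavg_F, h0]; simp)
  have h2 : χ (wavg_pr A B x) ≠ 0 := fun h0 => h (by rw [wavg_F, h0, mul_zero])
  refine ⟨(wavg_pr A B x, prA x), ⟨subset_tsupport _ h2, subset_tsupport _ h1⟩, ?_⟩
  funext k
  rcases k with i | j <;> rfl

theorem wavg_wd_mul [DecidableEq (Fin 0 ⊕ B)] (k : Fin 0 ⊕ B) (c : ℂ)
    {χ : PC.Pt (Fin 0) B → ℂ} {y : PC.Pt (Fin 0) B} (hχ : DifferentiableAt ℝ χ y) :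
    PC.wd k (fun y => c * χ y) y = c * PC.wd k χ y := by
  unfold PC.wd
  have h1 : HasFDerivAt (fun y => c * χ y) (c • fderiv ℝ χ y) y := hχ.hasFDerivAt.const_mul c
  rw [h1.fderiv]
  simp only [_root_.smul_apply, smul_eq_mul]
  ring

theorem wavg_dz [DecidableEq (Fin 0 ⊕ B)] (hη : ContDiff ℝ ∞ η) {χ : PC.Pt (Fin 0) B → ℂ}
    (hχ : ContDiff ℝ ∞ χ) (k : Fin 0 ⊕ B) (p : PC.Pt (Fin 0) B × (A → ℂ)) :
    dz (lin_iota k) (wavg_F η χ) (wavg_phi A B p) = (η p.2 : ℂ) * PC.wd k χ p.1 := by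
  have h1 := lin_wd p.2 k (G := wavg_F η χ) (y := p.1)
    ((wavg_F_smooth hη hχ).differentiable (by simp)).differentiableAt
  have h2 : (fun y => wavg_F η χ (lin_emb p.2 y)) = fun y => (η p.2 : ℂ) * χ y := by
    funext y
    have e : wavg_pr A B (lin_emb p.2 y) = y := wavg_pr_phi (y, p.2)
    rw [wavg_F, e]
    rfl
  rw [h2, wavg_wd_mul k _ (hχ.differentiable (by simp)).differentiableAt] at h1
  exact h1.symm

end Cl

section S3

variable {D : Set (A → ℂ)} {η : (A → ℂ) → ℝ} {z₀ : A → ℂ} {r : ℝ} (hη : wavg_W D η z₀ r)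
  {T : (A ⊕ B → ℂ) → Matrix (A ⊕ B) (A ⊕ B) ℂ} (hT : CForm (Tot D B) T)

include hη hT

theorem wavg_side [DecidableEq (Fin 0 ⊕ B)] {χ : PC.Pt (Fin 0) B → ℂ} (hχ : ContDiff ℝ ∞ χ)
    (hc : HasCompactSupport χ) (i j k : Fin 0 ⊕ B) :
    ∫ x, T x (lin_iota j) (lin_iota k) * dz (lin_iota i) (wavg_F η χ) x =
      ∫ y, wavg_T η T y j k * PC.wd i χ y := by
  have hwc : Continuous (PC.wd i χ) := by
    have h0 : Continuous (fderiv ℝ χ) := hχ.continuous_fderiv (by simp)
    unfold PC.wd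
    exact (((h0.clm_apply continuous_const).sub
      (continuous_const.mul (h0.clm_apply continuous_const))).div_const 2)
  have hw0 : ∀ y, y ∉ tsupport χ → PC.wd i χ y = 0 := by
    intro y hy
    unfold PC.wd
    rw [fderiv_of_notMem_tsupport ℝ hy]
    simp
  have hS : IsCompact (tsupport χ ×ˢ tsupport η) := hc.prod hη.compact
  have hsub : wavg_phi A B '' (tsupport χ ×ˢ tsupport η) ⊆ Tot D B := by
    rintro _ ⟨p, hp, rfl⟩
    show prA (wavg_phi A B p) ∈ D
    rw [wavg_prA_phi]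
    exact hη.supp hp.2
  have h1 := hT.int _ hsub (hS.image wavg_cont) (lin_iota j) (lin_iota k)
  rw [wavg_mp.integrableOn_image wavg_me] at h1
  have h2 : IntegrableOn (fun p : PC.Pt (Fin 0) B × (A → ℂ) =>
      ((η p.2 : ℂ) * PC.wd i χ p.1) * T (wavg_phi A B p) (lin_iota j) (lin_iota k))
      (tsupport χ ×ˢ tsupport η) := by
    refine IntegrableOn.continuousOn_mul
      (g := fun p : PC.Pt (Fin 0) B × (A → ℂ) => (η p.2 : ℂ) * PC.wd i χ p.1) ?_ h1 hS
    exact ((Complex.continuous_ofReal.comp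
      (hη.smooth.continuous.comp continuous_snd)).mul (hwc.comp continuous_fst)).continuousOn
  have h3 : Integrable (fun p : PC.Pt (Fin 0) B × (A → ℂ) =>
      ((η p.2 : ℂ) * PC.wd i χ p.1) * T (wavg_phi A B p) (lin_iota j) (lin_iota k)) := by
    refine (integrableOn_iff_integrable_of_support_subset ?_).1 h2
    intro p hp
    by_contra h
    apply hp
    simp only
    by_cases h4 : p.1 ∈ tsupport χ
    · have h5 : p.2 ∉ tsupport η := fun h5 => h ⟨h4, h5⟩
      rw [image_eq_zero_of_notMem_tsupport h5]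
      simp
    · rw [hw0 _ h4]
      simp
  rw [← wavg_mp.integral_comp wavg_me]
  have h6 : ∀ p : PC.Pt (Fin 0) B × (A → ℂ), T (wavg_phi A B p) (lin_iota j) (lin_iota k) *
      dz (lin_iota i) (wavg_F η χ) (wavg_phi A B p) =
      ((η p.2 : ℂ) * PC.wd i χ p.1) * T (wavg_phi A B p) (lin_iota j) (lin_iota k) := by
    intro p
    rw [wavg_dz hη.smooth hχ, mul_comm]
  simp only [h6]
  rw [Measure.volume_eq_prod] at h3 ⊢
  rw [integral_prod _ h3]
  refine integral_congr_ae (Eventually.of_forall fun y => ?_)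
  show ∫ z : A → ℂ, ((η z : ℂ) * PC.wd i χ y) *
    T (wavg_phi A B (y, z)) (lin_iota j) (lin_iota k) =
    (∫ z : A → ℂ, (η z : ℂ) * T (wavg_phi A B (y, z)) (lin_iota j) (lin_iota k)) * PC.wd i χ y
  rw [← integral_mul_const]
  refine integral_congr_ae (Eventually.of_forall fun z => ?_)
  simp only
  ring

theorem wavg_closed [dec : DecidableEq (Fin 0 ⊕ B)] {χ : PC.Pt (Fin 0) B → ℂ} (hχ : ContDiff ℝ ∞ χ)
    (hc : HasCompactSupport χ) (i j k : Fin 0 ⊕ B) :
    ∫ y, wavg_T η T y j k * PC.wd i χ y = ∫ y, wavg_T η T y i k * PC.wd j χ y := by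
  rw [← wavg_side hη hT hχ hc, ← wavg_side hη hT hχ hc]
  have hS : IsCompact (wavg_phi A B '' (tsupport χ ×ˢ tsupport η)) :=
    (hc.prod hη.compact).image wavg_cont
  have hsub : wavg_phi A B '' (tsupport χ ×ˢ tsupport η) ⊆ Tot D B := by
    rintro _ ⟨p, hp, rfl⟩
    show prA (wavg_phi A B p) ∈ D
    rw [wavg_prA_phi]
    exact hη.supp hp.2
  refine hT.closed _ (wavg_F_smooth hη.smooth hχ)
    (HasCompactSupport.intro hS fun x hx => wavg_F_zero hx) ?_ _ _ _
  refine (closure_minimal ?_ hS.isClosed).trans hsub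
  intro x hx
  by_contra h
  exact hx (wavg_F_zero h)

end S3

theorem wavg_inv {D : Set (A → ℂ)} (hD : IsOpen D) {η : (A → ℂ) → ℝ} {z₀ : A → ℂ} {r : ℝ}
    (hη : wavg_W D η z₀ r) {T : (A ⊕ B → ℂ) → Matrix (A ⊕ B) (A ⊕ B) ℂ}
    {ρ : Γ → (A ⊕ B → ℂ) → (A ⊕ B → ℂ)} {σ : Γ → (A → ℂ) → (A → ℂ)} {a b : Γ → B → ℂ}
    (h : SplitAct D ρ σ a b) (hinv : InvAE (Tot D B) ρ T) {γ : Γ} (hγ : Triv D σ γ)
    {x : PC.Grp (Fin 0) B} (hx : ∀ j w, x.2 j w = a γ j * w + b γ j) :
    ∀ᵐ y : PC.Pt (Fin 0) B, ∀ i j, wavg_T η T (PC.act x y) i j * PC.der x y i *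
      star (PC.der x y j) = wavg_T η T y i j := by
  filter_upwards [wavg_ae (hinv γ)] with y h1 i j
  rcases i with i | i
  · exact i.elim0
  rcases j with j | j
  · exact j.elim0
  have h3 : ∀ᵐ z : A → ℂ, z ∈ D → T (wavg_phi A B (PC.act x y, z)) (Sum.inr i) (Sum.inr j) *
      (a γ i * star (a γ j)) = T (wavg_phi A B (y, z)) (Sum.inr i) (Sum.inr j) := by
    filter_upwards [h1] with z hz hzD
    have hm : wavg_phi A B (y, z) ∈ Tot D B := lin_emb_mem hzD y
    have h1 := congrFun (congrFun (hz hm) (Sum.inr i)) (Sum.inr j)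
    have e : ρ γ (wavg_phi A B (y, z)) = wavg_phi A B (PC.act x y, z) := lin_fib h hzD hγ hx y
    rw [e] at h1
    have h2 : ∀ l, ((Jac (ρ γ) (wavg_phi A B (y, z))).transpose *
        T (wavg_phi A B (PC.act x y, z))) (Sum.inr i) l =
        a γ i * T (wavg_phi A B (PC.act x y, z)) (Sum.inr i) l := by
      intro l
      rw [Matrix.mul_apply, Finset.sum_eq_single (Sum.inr i)]
      · rw [Matrix.transpose_apply, lin_jac hD h γ hm, if_pos rfl]
      · intro k _ hk
        rw [Matrix.transpose_apply, lin_jac hD h γ hm, if_neg hk, zero_mul]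
      · intro hk
        exact absurd (Finset.mem_univ _) hk
    rw [Matrix.mul_apply, Finset.sum_eq_single (Sum.inr j)] at h1
    · rw [h2, Matrix.map_apply, lin_jac hD h γ hm, if_pos rfl] at h1
      rw [← h1]
      ring
    · intro k _ hk
      rw [Matrix.map_apply, lin_jac hD h γ hm, if_neg hk, star_zero, mul_zero]
    · intro hk
      exact absurd (Finset.mem_univ _) hk
  show (∫ z : A → ℂ, (η z : ℂ) * T (wavg_phi A B (PC.act x y, z)) (Sum.inr i) (Sum.inr j)) *
    PC.lin (x.2 i) * star (PC.lin (x.2 j)) =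
    ∫ z : A → ℂ, (η z : ℂ) * T (wavg_phi A B (y, z)) (Sum.inr i) (Sum.inr j)
  rw [lin_lin (hx i), lin_lin (hx j), mul_assoc, ← integral_mul_const]
  refine integral_congr_ae ?_
  filter_upwards [h3] with z hz
  by_cases hzD : z ∈ D
  · rw [← hz hzD]
    ring
  · rw [wavg_zero hη hzD]
    simp

theorem lin_current {D : Set (A → ℂ)} (hD : IsOpen D) (hne : D.Nonempty)
    {ρ : Γ → (A ⊕ B → ℂ) → (A ⊕ B → ℂ)} {σ : Γ → (A → ℂ) → (A → ℂ)} {a b : Γ → B → ℂ}
    (h : SplitAct D ρ σ a b) (ha : ∀ γ δ j, a (γ * δ) j = a γ j * a δ j)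
    (ha0 : ∀ γ j, a γ j ≠ 0) {T : (A ⊕ B → ℂ) → Matrix (A ⊕ B) (A ⊕ B) ℂ}
    (hT : CForm (Tot D B) T) (hinv : InvAE (Tot D B) ρ T) :
    ∃ T' : PC.Pt (Fin 0) B → Matrix (Fin 0 ⊕ B) (Fin 0 ⊕ B) ℂ,
      PC.IsCurrent (lin_Lam hne h ha ha0) T' := by
  obtain ⟨η, z₀, r, hη⟩ := wavg_exists hD hne
  refine ⟨wavg_T η T, fun K _ hKc i j => wavg_T_int hη hT hKc i j, ?_, ?_, ?_⟩
  · exact (wavg_pos hη hT).mono fun y hy _ => hy
  · intro χ hχ i j k
    exact wavg_closed (dec := fun a b => @instDecidableEqSum (Fin 0) B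
      (fun a b => Classical.propDecidable (a = b)) (fun a b => Classical.propDecidable (a = b)) a b)
      hη hT hχ.smooth hχ.compact i j k
  · rintro x ⟨γ, hγ, hx⟩
    exact (wavg_inv hD hη h hinv hγ hx).mono fun y hy _ => hy

end Pool.Agent.H906.BD
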