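import Pool.Agent.H906.BD.LapBasic
import Pool.Agent.H906.BD.Cov
import Pool.Agent.H906.BD.Part
import Pool.Agent.H906.BD.Ibp
import Pool.Agent.H906.BD.Equi

/-! # Closed positive currents with locally integrable coefficients -/

open Filter Topology Set Metric MeasureTheory
open scoped ComplexOrder ContDiff

namespace Pool.Agent.H906.BD

variable {N : Type*} [Fintype N] [DecidableEq N] {Γ : Type*} [Group Γ]

/-- a closed positive current of bidegree `(n - 1, n - 1)`, given by the matrix `A`: locally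
integrable coefficients, positive definite almost everywhere, divergence free rows and columns -/
structure WForm (U : Set (N → ℂ)) (A : (N → ℂ) → Matrix N N ℂ) : Prop where
  int : ∀ K ⊆ U, IsCompact K → ∀ i j, IntegrableOn (fun x => A x i j) K
  pos : ∀ᵐ x, x ∈ U → (A x).PosDef
  row : ∀ χ : (N → ℂ) → ℂ, ContDiff ℝ 1 χ → HasCompactSupport χ → tsupport χ ⊆ U →
    ∀ k, ∫ x, ∑ j, A x k j * dz j χ x = 0
  col : ∀ χ : (N → ℂ) → ℂ, ContDiff ℝ 1 χ → HasCompactSupport χ → tsupport χ ⊆ U →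
    ∀ j, ∫ x, ∑ k, A x k j * dzb k χ x = 0

/-- invariance of the current of bidegree `(n - 1, n - 1)` -/
def InvW (U : Set (N → ℂ)) (ρ : Γ → (N → ℂ) → (N → ℂ)) (A : (N → ℂ) → Matrix N N ℂ) : Prop :=
  ∀ γ, ∀ᵐ x, x ∈ U → (Jac (ρ γ) x).map star * A x * (Jac (ρ γ) x).transpose =
    ((‖(Jac (ρ γ) x).det‖ ^ 2 : ℝ) : ℂ) • A (ρ γ x)

/-- The closed positive current `T = i ∑ T_{jk} d x_j ∧ d \bar x_k` and its power `T^{n-1}` have
locally integrable coefficients and are closed; `T` is positive definite almost everywhere. -/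
structure CForm (U : Set (N → ℂ)) (T : (N → ℂ) → Matrix N N ℂ) : Prop where
  int : ∀ K ⊆ U, IsCompact K → ∀ i j, IntegrableOn (fun x => T x i j) K
  aint : ∀ K ⊆ U, IsCompact K → ∀ i j, IntegrableOn (fun x => (T x).adjugate i j) K
  pos : ∀ᵐ x, x ∈ U → (T x).PosDef
  closed : ∀ χ : (N → ℂ) → ℂ, ContDiff ℝ ∞ χ → HasCompactSupport χ → tsupport χ ⊆ U →
    ∀ i j k, ∫ x, T x j k * dz i χ x = ∫ x, T x i k * dz j χ x
  aclosed : ∀ χ : (N → ℂ) → ℂ, ContDiff ℝ ∞ χ → HasCompactSupport χ → tsupport χ ⊆ U →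
    ∀ k, ∫ x, ∑ j, (T x).adjugate k j * dz j χ x = 0

/-- invariance of `T` -/
def InvAE (U : Set (N → ℂ)) (ρ : Γ → (N → ℂ) → (N → ℂ)) (T : (N → ℂ) → Matrix N N ℂ) : Prop :=
  ∀ γ, ∀ᵐ x, x ∈ U → (Jac (ρ γ) x).transpose * T (ρ γ x) * (Jac (ρ γ) x).map star = T x

/-- a smooth convex function, equal to `- M` for `t ≤ - M` and of slope one for `t ≥ 1 - M` -/
noncomputable def theta (M t : ℝ) : ℝ :=
  (∫ s in (0 : ℝ)..(t + M), Real.smoothTransition s) - M

end Pool.Agent.H906.BD
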