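import Pool.Agent.H906.BD.W.Defs

/-! # W05 Equiv: a `C^2` function with a given additive character

Proof. Let `χ` be the function of `exists_partition` (`BD/Part.lean`) and
`h x = - ∑ᶠ γ, c γ * χ (ρ γ x)`. By `part_locfin` the sum is locally finite on `U`, so `h` is `C^2` on `U` (see
how `exists_partition` treats its sum `s`). `h (ρ δ x) = - ∑ᶠ γ, c γ χ (ρ (γ δ) x)
= - ∑ᶠ γ', (c γ' - c δ) χ (ρ γ' x) = h x + c δ · 1` (`γ' = γ δ`, `c γ = c γ' - c δ`). -/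

set_option linter.unusedSectionVars false

open Filter Topology Set Metric MeasureTheory
open scoped ComplexOrder ContDiff

namespace Pool.Agent.H906.BD

variable {N : Type*} [Fintype N] [DecidableEq N] {Γ : Type*} [Group Γ]

theorem exists_character {U : Set (N → ℂ)} (hU : IsOpen U) {ρ : Γ → (N → ℂ) → (N → ℂ)}
    (hρ : HolAct U ρ) (hpd : PD U ρ) (hcc : CC U ρ) {x₁ : N → ℂ} (hx₁ : x₁ ∈ U) {c : Γ → ℝ}
    (hc : ∀ γ δ, c (γ * δ) = c γ + c δ) :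
    ∃ h : (N → ℂ) → ℝ, ContDiffOn ℝ 2 h U ∧ ∀ γ, ∀ x ∈ U, h (ρ γ x) = h x + c γ := by
  obtain ⟨χ, hχ2, hχc, hχU, hχ0, _, hχ1⟩ := exists_partition hU hρ hpd hcc hx₁
  set s : (N → ℂ) → ℝ := fun x => ∑ᶠ γ, c γ * χ (ρ γ x) with hs
  have hfin : ∀ x₀ ∈ U, (Function.support fun γ => χ (ρ γ x₀)).Finite := by
    intro x₀ hx₀
    obtain ⟨F, hF⟩ := part_locfin hU hpd hχc hχU hx₀
    exact F.finite_toSet.subset (fun γ hγ => hF.self_of_nhds γ hγ)
  have hsupp : ∀ x : N → ℂ, (Function.support fun γ => c γ * χ (ρ γ x)) ⊆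
      Function.support fun γ => χ (ρ γ x) := by
    intro x γ hγ h0
    apply hγ
    have h1 : χ (ρ γ x) = 0 := h0
    simp only [h1, mul_zero]
  have hfin' : ∀ x₀ ∈ U, (Function.support fun γ => c γ * χ (ρ γ x₀)).Finite :=
    fun x₀ hx₀ => (hfin x₀ hx₀).subset (hsupp x₀)
  -- `s` is locally a finite sum
  have hloc : ∀ x₀ ∈ U, ∃ F : Finset Γ, ∀ᶠ x in 𝓝 x₀, s x = ∑ γ ∈ F, c γ * χ (ρ γ x) := by
    intro x₀ hx₀
    obtain ⟨F, hF⟩ := part_locfin hU hpd hχc hχU hx₀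
    refine ⟨F, ?_⟩
    filter_upwards [hF] with x hx
    exact finsum_eq_sum_of_support_subset _ (fun γ hγ => hx γ (hsupp x hγ))
  have hsC : ∀ x₀ ∈ U, ContDiffAt ℝ 2 s x₀ := by
    intro x₀ hx₀
    obtain ⟨F, hF⟩ := hloc x₀ hx₀
    have h1 : ContDiffAt ℝ 2 (fun x => ∑ γ ∈ F, c γ * χ (ρ γ x)) x₀ := by
      refine ContDiffAt.sum (fun γ _ => ?_)
      have h2 : ContDiffAt ℝ 2 (ρ γ) x₀ :=
        (hol_contDiffOn_real hU 2 (hρ.hol γ)).contDiffAt (hU.mem_nhds hx₀)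
      exact contDiffAt_const.mul ((hχ2.contDiffAt (x := ρ γ x₀)).comp x₀ h2)
    exact h1.congr_of_eventuallyEq hF
  refine ⟨fun x => - s x, fun x hx => (hsC x hx).neg.contDiffWithinAt, ?_⟩
  intro δ x hx
  have h1 : ∀ γ, c γ * χ (ρ γ (ρ δ x)) =
      (fun γ => c γ * χ (ρ γ x) - c δ * χ (ρ γ x)) (Equiv.mulRight δ γ) := by
    intro γ
    simp only [Equiv.coe_mulRight]
    rw [hρ.mul γ δ x hx, hc]
    ring
  have h2 : s (ρ δ x) = s x - c δ := by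
    simp only [hs]
    rw [finsum_congr h1,
      finsum_comp_equiv (f := fun γ => c γ * χ (ρ γ x) - c δ * χ (ρ γ x)) (Equiv.mulRight δ),
      finsum_sub_distrib (hfin' x hx) ((hfin x hx).subset fun γ hγ h0 => hγ ?_)]
    · rw [← mul_finsum, hχ1 x hx, mul_one]
    · have h3 : χ (ρ γ x) = 0 := h0
      simp only [h3, mul_zero]
  show - s (ρ δ x) = - s x + c δ
  rw [h2]
  ring

end Pool.Agent.H906.BD
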