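import Pool.Agent.H906.BD.W.Main
import Pool.Agent.H906.BD.Contra

/-! # There are no invariant fields on `D` if `(D × ℂ^B) / Γ` carries a closed positive current -/

set_option linter.unusedSectionVars false

open Filter Topology Set Metric MeasureTheory
open scoped ComplexOrder

namespace Pool.Agent.H906.BD

variable {A B : Type*} [Fintype A] [Fintype B] [DecidableEq A] [DecidableEq B]
variable {Γ : Type*} [Group Γ]

theorem noField_of_current {D : Set (A → ℂ)} (hD : IsOpen D) (hc : IsPreconnected D) {R : ℝ}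
    (hR : ∀ z ∈ D, ‖z‖ ≤ R) {ρ : Γ → (A ⊕ B → ℂ) → (A ⊕ B → ℂ)}
    {σ : Γ → (A → ℂ) → (A → ℂ)} {a b : Γ → B → ℂ} (h : SplitAct D ρ σ a b)
    (hpd : PD (Tot D B) ρ) (hcc : CC (Tot D B) ρ)
    {P : (A ⊕ B → ℂ) → Matrix (A ⊕ B) (A ⊕ B) ℂ} (hP : WForm (Tot D B) P)
    (hinv : InvW (Tot D B) ρ P) : NoField D σ := by
  intro r v z₁ hr hz₁ hv hli hM
  obtain ⟨f₀, hf₀, hf₀ne⟩ := exists_f0 hR hli
  obtain ⟨f, hf0, hfB, hsup⟩ := exists_seq hD hv f₀ hf₀
  have hU : IsOpen (Tot D B) := isOpen_tot hD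
  have hUc : IsPreconnected (Tot D B) := isPreconnected_tot hc
  -- lifted functions
  set F : ℕ → Fin r → (A ⊕ B → ℂ) → ℂ := fun i l x => f i l (prA x) with hF
  set W : Fin r → (A ⊕ B → ℂ) → (A ⊕ B → ℂ) := fun k x => Sum.elim (v k (prA x)) 0 with hW
  set G : ℕ → (A ⊕ B → ℂ) → ℂ := fun i => detf W (F i) with hG
  have hprd : Differentiable ℂ (prA : (A ⊕ B → ℂ) → (A → ℂ)) :=
    (prAL (A := A) (B := B)).differentiable
  have hFh : ∀ i l, DifferentiableOn ℂ (F i l) (Tot D B) := fun i l =>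
    (hfB i l).1.comp hprd.differentiableOn fun x hx => hx
  have hFB : ∀ i l, F i l ∈ HolB (Tot D B) := fun i l =>
    ⟨hFh i l, fun x hx => (hfB i l).2 _ hx⟩
  have hWh : ∀ k, DifferentiableOn ℂ (W k) (Tot D B) := by
    intro k
    rw [differentiableOn_pi]
    rintro (i | j)
    · have h1 : DifferentiableOn ℂ (fun z => v k z i) D := (differentiableOn_pi.1 (hv k)) i
      exact h1.comp hprd.differentiableOn fun x hx => hx
    · exact differentiableOn_const _
  have hGeq : ∀ i, ∀ x ∈ Tot D B, G i x = detf v (f i) (prA x) := by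
    intro i x hx
    show (Matrix.of fun l k => fderiv ℂ (F i l) x (W k x)).det =
      (Matrix.of fun l k => fderiv ℂ (f i l) (prA x) (v k (prA x))).det
    congr 1
    ext l k
    have h2 : HasFDerivAt (F i l) ((fderiv ℂ (f i l) (prA x)).comp prAL) x :=
      (((hfB i l).1.differentiableAt (hD.mem_nhds hx)).hasFDerivAt).comp x
        (prAL (A := A) (B := B)).hasFDerivAt
    rw [Matrix.of_apply, Matrix.of_apply, h2.fderiv]
    rfl
  have hqe : ∀ i, ∀ x ∈ Tot D B, qe (G i) (F i) x = qe (detf v (f i)) (f i) (prA x) := by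
    intro i x hx
    unfold qe
    rw [hGeq i x hx]
  have hGh : ∀ i, DifferentiableOn ℂ (G i) (Tot D B) := fun i =>
    countable_detf_hol hU hWh (hFB i)
  set x₁ : A ⊕ B → ℂ := Sum.elim z₁ 0 with hx₁
  have hx₁U : x₁ ∈ Tot D B := hz₁
  have hG0 : G 0 x₁ ≠ 0 := by
    rw [hGeq 0 x₁ hx₁U, hf0]
    exact hf₀ne
  -- the function
  set Q : (A → ℂ) → ℝ := fun z => ⨆ i, qe (detf v (f i)) (f i) z with hQ
  have hQle : ∀ z ∈ D, ∀ k : Fin r → (A → ℂ) → ℂ, (∀ l, k l ∈ HolB D) →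
      qe (detf v k) k z ≤ Q z := fun z hz => (hsup z hz).2
  have hQeq : ∀ x ∈ Tot D B, (⨆ i, qe (G i) (F i) x) = Q (prA x) := by
    intro x hx
    rw [hQ]
    exact congrArg _ (funext fun i => hqe i x hx)
  obtain ⟨hae, hlog⟩ := log_locallyIntegrable hU hUc (hGh 0) ⟨x₁, hx₁U, hG0⟩
  have hb : ∀ x₀ ∈ Tot D B, ∃ ρ > 0, ∃ M, ball x₀ ρ ⊆ Tot D B ∧ ∀ i, ∀ x ∈ ball x₀ ρ,
      qe (G i) (F i) x ≤ M := by
    intro x₀ hx₀
    obtain ⟨s, hs, M, hsD, hsM⟩ := qe_bound hD hv hx₀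
    have hsub : ∀ x ∈ ball x₀ s, prA x ∈ ball (prA x₀) s := fun x hx =>
      (dist_prA_le x x₀).trans_lt hx
    refine ⟨s, hs, M, fun x hx => hsD (hsub x hx), fun i x hx => ?_⟩
    rw [hqe i x (hsD (hsub x hx))]
    exact hsM (f i) (hfB i) _ (hsub x hx)
  set u : (A ⊕ B → ℂ) → ℝ := fun x => Real.log (⨆ i, qe (G i) (F i) x) / 2 with hu
  -- Levi forms
  have hlevi : ∀ j : ℕ, ∀ x ∈ Tot D B,
      (levi (fun y => (ua j (fun i => detf W (F i)) F y : ℂ)) x).IsHermitian ∧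
        ∀ ξ : A ⊕ B → ℂ, (1 / 2) * ∑ i ∈ Finset.range (j + 1),
          (qe (detf W (F i)) (F i) x ^ ((j + 1) ^ 2) /
            (Real.exp (-(2 * (j : ℝ) * ((j : ℝ) + 1) ^ 2)) +
              ∑ i ∈ Finset.range (j + 1), qe (detf W (F i)) (F i) x ^ ((j + 1) ^ 2))) *
            ∑ l, ‖fderiv ℂ (F i l) x ξ‖ ^ 2 ≤
          (∑ a, ∑ b, ξ a * star (ξ b) *
            levi (fun y => (ua j (fun i => detf W (F i)) F y : ℂ)) x a b).re := by
    intro j x hx
    rw [ua_eq]
    exact levi_app hU hGh hFh (by positivity) (Real.exp_pos _) (j + 1) hx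
  obtain ⟨s, hs, δ, hδ, hstr⟩ := ua_strict hU hr hFh (fun i l x hx => (hFB i l).2 x hx) hWh hx₁U
    hG0 hlevi
  -- automorphy
  choose M hM using hM
  have hHol : ∀ γ (k : Fin r → (A → ℂ) → ℂ), (∀ l, k l ∈ HolB D) →
      ∀ l, (fun y => k l (σ γ y)) ∈ HolB D := by
    intro γ k hk l
    exact ⟨(hk l).1.comp (h.base.hol γ) fun z hz => h.base.maps γ z hz,
      fun z hz => (hk l).2 _ (h.base.maps γ z hz)⟩
  have hqM : ∀ γ (k : Fin r → (A → ℂ) → ℂ), (∀ l, k l ∈ HolB D) → ∀ z ∈ D,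
      qe (detf v (fun l y => k l (σ γ y))) (fun l y => k l (σ γ y)) z =
        (M γ).det ^ 2 * qe (detf v k) k (σ γ z) := by
    intro γ k hk z hz
    unfold qe
    rw [detf_comp hD (h.base.hol γ) (h.base.maps γ) (hM γ) (fun l => (hk l).1) hz, norm_mul,
      Complex.norm_real, Real.norm_eq_abs, mul_pow, sq_abs]
    ring
  have hQM : ∀ γ, ∀ z ∈ D, Q z = (M γ).det ^ 2 * Q (σ γ z) := by
    intro γ z hz
    have hz' := h.base.maps γ z hz
    refine le_antisymm ?_ ?_
    · refine ciSup_le fun i => ?_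
      set k : Fin r → (A → ℂ) → ℂ := fun l y => f i l (σ γ⁻¹ y) with hk
      have hkB : ∀ l, k l ∈ HolB D := hHol γ⁻¹ (f i) (hfB i)
      have h1 := hqM γ k hkB z hz
      have h2 := hQle _ hz' k hkB
      have h3 : qe (detf v (fun l y => k l (σ γ y))) (fun l y => k l (σ γ y)) z =
          qe (detf v (f i)) (f i) z := by
        have h4 : ∀ y ∈ D, ∀ l, k l (σ γ y) = f i l y := by
          intro y hy l
          show f i l (σ γ⁻¹ (σ γ y)) = f i l y
          rw [h.base.inv_act γ hy]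
        have h5 : detf v (fun l y => k l (σ γ y)) z = detf v (f i) z := by
          unfold detf
          congr 1
          ext l m
          rw [Matrix.of_apply, Matrix.of_apply]
          have h6 : (fun y => k l (σ γ y)) =ᶠ[𝓝 z] f i l := by
            filter_upwards [hD.mem_nhds hz] with y hy using h4 y hy l
          rw [h6.fderiv_eq]
        unfold qe
        rw [h5]
        congr 2
        refine Finset.sum_congr rfl fun l _ => ?_
        show ‖k l (σ γ z)‖ ^ 2 = ‖f i l z‖ ^ 2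
        rw [h4 z hz l]
      rw [h3] at h1
      rw [h1]
      gcongr
    · have h0 : 0 ≤ (M γ).det ^ 2 := sq_nonneg _
      rw [hQ]
      show (M γ).det ^ 2 * (⨆ i, qe (detf v (f i)) (f i) (σ γ z)) ≤ _
      rw [Real.mul_iSup_of_nonneg h0]
      refine ciSup_le fun i => ?_
      rw [← hqM γ (f i) (hfB i) z hz]
      exact hQle z hz _ (hHol γ (f i) (hfB i))
  have hQpos : ∀ x ∈ Tot D B, G 0 x ≠ 0 → 0 < Q (prA x) := by
    intro x hx hne
    have h1 := hQle (prA x) hx (f 0) (hfB 0)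
    refine lt_of_lt_of_le ?_ h1
    unfold qe
    rw [← hGeq 0 x hx]
    have : 0 < ‖G 0 x‖ := norm_pos_iff.2 hne
    positivity
  have hQ1 : 0 < Q z₁ := hQpos x₁ hx₁U hG0
  have hdet : ∀ γ, (M γ).det ≠ 0 := by
    intro γ h0
    have h1 := hQM γ z₁ hz₁
    rw [h0] at h1
    rw [h1] at hQ1
    simp at hQ1
  have hcmul : ∀ γ δ, -Real.log |(M (γ * δ)).det| =
      -Real.log |(M γ).det| + -Real.log |(M δ).det| := by
    intro γ δ
    have hz1 := h.base.maps δ z₁ hz₁
    have h1 := hQM (γ * δ) z₁ hz₁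
    have h2 := hQM δ z₁ hz₁
    have h3 := hQM γ (σ δ z₁) hz1
    rw [h.base.mul γ δ z₁ hz₁] at h1
    have h4 : 0 < Q (σ γ (σ δ z₁)) := by
      by_contra hneg
      have h5 : 0 ≤ (M (γ * δ)).det ^ 2 := sq_nonneg _
      nlinarith [not_lt.1 hneg]
    have h5 : (M (γ * δ)).det ^ 2 = ((M γ).det * (M δ).det) ^ 2 := by
      have h6 : Q (σ γ (σ δ z₁)) * ((M (γ * δ)).det ^ 2 - ((M γ).det * (M δ).det) ^ 2) = 0 := by
        rw [h2, h3] at h1
        linear_combination -h1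
      rcases mul_eq_zero.1 h6 with h7 | h7
      · exact absurd h7 h4.ne'
      · linarith
    have h6 : |(M (γ * δ)).det| = |(M γ).det| * |(M δ).det| := by
      rw [← abs_mul]
      exact (sq_eq_sq_iff_abs_eq_abs _ _).1 h5
    rw [h6, Real.log_mul (abs_ne_zero.2 (hdet γ)) (abs_ne_zero.2 (hdet δ))]
    ring
  have huc : ∀ γ, ∀ᵐ x ∂(volume.restrict (Tot D B)),
      u (ρ γ x) = u x + (-Real.log |(M γ).det|) := by
    intro γ
    filter_upwards [hae, ae_restrict_mem hU.measurableSet] with x hx hxU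
    have h1 := hQpos x hxU hx
    have hρx := h.act.maps γ x hxU
    show Real.log (⨆ i, qe (G i) (F i) (ρ γ x)) / 2 =
      Real.log (⨆ i, qe (G i) (F i) x) / 2 + (-Real.log |(M γ).det|)
    rw [hQeq x hxU, hQeq _ hρx, h.fst γ x hxU, hQM γ (prA x) hxU]
    have h2 : 0 < Q (σ γ (prA x)) := by
      by_contra hneg
      have h3 := hQM γ (prA x) hxU
      have h4 : 0 ≤ (M γ).det ^ 2 := sq_nonneg _
      nlinarith [not_lt.1 hneg]
    rw [Real.log_mul (pow_ne_zero 2 (hdet γ)) h2.ne', Real.log_pow, Real.log_abs]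
    push_cast
    ring
  have hb' : ∀ x ∈ Tot D B, ∃ M, ∀ i, qe (G i) (F i) x ≤ M := by
    intro x hx
    obtain ⟨ρ', hρ', M', -, hM'⟩ := hb x hx
    exact ⟨M', fun i => hM' i x (mem_ball_self hρ')⟩
  have hlim' : ∀ᵐ x ∂(volume.restrict (Tot D B)),
      Tendsto (fun j => ua j (fun i => detf W (F i)) F x) atTop (𝓝 (u x)) := by
    filter_upwards [hae, ae_restrict_mem hU.measurableSet] with x hx hxU
    exact conv_point (hb' x hxU) hx
  have hub : ∀ K ⊆ Tot D B, IsCompact K → ∃ C : ℝ, ∀ j, ∀ x ∈ K,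
      ua j (fun i => detf W (F i)) F x ≤ C := by
    intro K hK hKc
    have h1 : ∃ C : ℝ, ∀ x ∈ K, ∀ i, qe (G i) (F i) x ≤ C := by
      refine hKc.induction_on (p := fun s => ∃ C : ℝ, ∀ x ∈ s, ∀ i, qe (G i) (F i) x ≤ C)
        ?_ ?_ ?_ ?_
      · exact ⟨0, fun x hx => absurd hx (notMem_empty x)⟩
      · rintro s t hst ⟨C, hC⟩
        exact ⟨C, fun x hx => hC x (hst hx)⟩
      · rintro s t ⟨C, hC⟩ ⟨C', hC'⟩
        refine ⟨max C C', fun x hx i => ?_⟩
        rcases hx with hx | hx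
        · exact (hC x hx i).trans (le_max_left _ _)
        · exact (hC' x hx i).trans (le_max_right _ _)
      · intro x hx
        obtain ⟨ρ', hρ', C, -, hC⟩ := hb x (hK hx)
        exact ⟨ball x ρ', mem_nhdsWithin_of_mem_nhds (ball_mem_nhds x hρ'), C,
          fun y hy i => hC i y hy⟩
    obtain ⟨C, hC⟩ := h1
    refine ⟨1 + Real.log (max C 1) / 2, fun j x hx => ?_⟩
    have hC1 : (1 : ℝ) ≤ max C 1 := le_max_right _ _
    have h2 := conv_upper (g := G) (f := F) (x := x) (j := j) (A := max C 1)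
      ((Real.exp_le_one_iff.2 (by
        have : (0 : ℝ) ≤ j := Nat.cast_nonneg j
        linarith)).trans hC1) (fun i => (hC x hx i).trans (le_max_left _ _))
    have h3 := conv_log_small j
    exact h2.trans (by linarith)
  refine stokes_weak hU h.act hpd hcc hP hinv (u := u)
    (uj := fun j => ua j (fun i => detf W (F i)) F) (c := fun γ => -Real.log |(M γ).det|)
    (fun j => ?_) (fun j x hx ξ => ?_) hcmul huc hub hlim' hx₁U hs hδ hstr
  · rw [ua_eq]
    exact app_contDiffOn hU hGh hFh _ (Real.exp_pos _) _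
  · obtain ⟨h1, h2⟩ := hlevi j x hx
    refine le_trans ?_ (h2 ξ)
    refine mul_nonneg (by norm_num) (Finset.sum_nonneg fun i _ => ?_)
    refine mul_nonneg (div_nonneg (pow_nonneg ?_ _) (add_nonneg (Real.exp_pos _).le
      (Finset.sum_nonneg fun i _ => pow_nonneg ?_ _))) (Finset.sum_nonneg fun l _ => sq_nonneg _)
    · unfold qe; positivity
    · unfold qe; positivity

end Pool.Agent.H906.BD
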