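import Pool.Agent.H906.BD.W.Avg

/-! # The linear parts of the group acting on `D × ℂ^B` with a closed positive current -/

set_option linter.unusedSectionVars false

open Filter Topology Set Metric
open scoped ComplexOrder

namespace Pool.Agent.H906.BD

variable {A B : Type*} [Fintype A] [Fintype B] [DecidableEq A] [DecidableEq B]
variable {Γ : Type*} [Group Γ]

/-- the conclusions of `lin_part` from the two properties of the group of the fibres -/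
theorem lin_part_uni {D : Set (A → ℂ)} (hne : D.Nonempty)
    {ρ : Γ → (A ⊕ B → ℂ) → (A ⊕ B → ℂ)} {σ : Γ → (A → ℂ) → (A → ℂ)} {a b : Γ → B → ℂ}
    (h : SplitAct D ρ σ a b) (ha : ∀ γ δ j, a (γ * δ) j = a γ j * a δ j)
    (ha0 : ∀ γ j, a γ j ≠ 0) (hG : PC.Good (lin_Lam hne h ha ha0) (fun _ => False))
    (hU : PC.Uni (lin_Lam hne h ha ha0)) :
    (∃ m : ℕ, 0 < m ∧ ∀ γ, Triv D σ γ → ∀ j, a γ j ^ m = 1) ∧ ∀ γ, ‖∏ j, a γ j‖ = 1 := by
  obtain ⟨X, hX⟩ := lin_X (b := b) ha0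
  refine ⟨?_, fun γ => ?_⟩
  · obtain ⟨-, m, hm, hm'⟩ := PC.lin_pow hG hU
    refine ⟨m, hm, fun γ hγ j => ?_⟩
    have h1 := hm' (X γ) ⟨γ, hγ, hX γ⟩ j
    rw [lin_lin (hX γ j)] at h1
    exact h1
  · -- the lattice
    let e : PC.Pt (Fin 0) B →ₗ[ℝ] (B → ℂ) :=
      { toFun := fun t j => t (Sum.inr j)
        map_add' := fun _ _ => rfl
        map_smul' := fun _ _ => rfl }
    have hsurj : Function.Surjective e := fun v => ⟨Sum.elim (fun i => i.elim0) v, rfl⟩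
    have hnorm : ∀ t, ‖t‖ ≤ ‖e t‖ := by
      intro t
      refine (pi_norm_le_iff_of_nonneg (norm_nonneg _)).2 ?_
      rintro (i | j)
      · exact i.elim0
      · exact norm_le_pi_norm (e t) j
    let L : AddSubgroup (B → ℂ) := (PC.LL hG).map e.toAddMonoidHom
    have hLfin : ∀ r : ℝ, {x : B → ℂ | x ∈ L ∧ ‖x‖ ≤ r}.Finite := by
      intro r
      refine ((PC.LL_finite hG r).image e).subset ?_
      rintro _ ⟨⟨t, ht, rfl⟩, hr⟩
      exact ⟨t, ⟨ht, (hnorm t).trans hr⟩, rfl⟩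
    have hspan : Submodule.span ℝ (L : Set (B → ℂ)) = ⊤ := by
      have e1 : (L : Set (B → ℂ)) = e '' (PC.LL hG : Set (PC.Pt (Fin 0) B)) := rfl
      rw [e1, ← Submodule.map_span]
      refine eq_top_iff.2 fun v _ => ?_
      obtain ⟨t, rfl⟩ := hsurj v
      exact ⟨t, PC.VV_eq_TT hG hU (fun i => i.elim0), rfl⟩
    have hstab : ∀ γ : Γ, ∀ x ∈ L, a γ * x ∈ L := by
      rintro γ _ ⟨t, ⟨lam, hlam, hlam1, rfl⟩, rfl⟩
      obtain ⟨δ, hδ, hlamδ⟩ := PC.ker_le hlam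
      have hδ1 : ∀ j, a δ j = 1 := fun j => by
        have h1 := congrFun hlam1 (Sum.inr j)
        have h2 : PC.dd (fun _ => False) lam (Sum.inr j) = PC.lin (lam.2 j) := rfl
        rw [h2, lin_lin (hlamδ j)] at h1
        exact h1
      have hδb : ∀ j, e (PC.tt (fun _ => False) lam) j = b δ j := fun j => by
        have h2 : e (PC.tt (fun _ => False) lam) j = lam.2 j 0 := rfl
        rw [h2, hlamδ j, mul_zero, zero_add]
      have hT : Triv D σ (γ * δ * γ⁻¹) := by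
        intro z hz
        rw [h.base.mul _ _ z hz, h.base.mul _ _ _ (h.base.maps _ _ hz),
          hδ _ (h.base.maps _ _ hz), h.base.act_inv γ hz]
      have ha1 : ∀ j, a (γ * δ * γ⁻¹) j = 1 := fun j => by
        rw [ha, ha, hδ1, mul_one, lin_ainv ha ha0]
      have hb1 : ∀ j, b (γ * δ * γ⁻¹) j = a γ j * b δ j := fun j => by
        rw [lin_bmul hne h, lin_bmul hne h, ha, hδ1, mul_one]
        linear_combination lin_binv hne h γ j
      have hmem : X (γ * δ * γ⁻¹) ∈ lin_Lam hne h ha ha0 := ⟨_, hT, hX _⟩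
      refine ⟨PC.tt (fun _ => False) (X (γ * δ * γ⁻¹)), ⟨X (γ * δ * γ⁻¹), ?_, ?_, rfl⟩, ?_⟩
      · refine Subgroup.mem_inf.2 ⟨hmem, ?_⟩
        rw [MonoidHom.mem_ker]
        funext i
        exact i.1.elim0
      · funext k
        rcases k with i | j
        · exact i.elim0
        · show PC.lin ((X (γ * δ * γ⁻¹)).2 j) = 1
          rw [lin_lin (hX _ j), ha1]
      · funext j
        show (X (γ * δ * γ⁻¹)).2 j 0 = a γ j * e (PC.tt (fun _ => False) lam) j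
        rw [hX, mul_zero, zero_add, hb1, hδb]
    refine norm_prod_eq_one L hLfin hspan (hstab γ) fun x hx => ⟨a γ⁻¹ * x, hstab γ⁻¹ x hx, ?_⟩
    funext j
    show a γ j * (a γ⁻¹ j * x j) = x j
    rw [← mul_assoc, lin_ainv ha ha0, one_mul]


open scoped Classical in
/-- the library `PC` for the kernel -/
theorem lin_pc_current {Λ : Subgroup (PC.Grp (Fin 0) B)} (hpd : PC.ProperlyDiscontinuous Λ)
    (hcc : PC.Cocompact Λ) {T : PC.Pt (Fin 0) B → Matrix (Fin 0 ⊕ B) (Fin 0 ⊕ B) ℂ}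
    (hT : PC.IsCurrent Λ T) : PC.Good Λ (fun _ => False) ∧ PC.Uni Λ :=
  ⟨PC.good hpd hcc fun k => PC.uni_of_current (PC.current_cj hT k), PC.uni_of_current hT⟩

theorem lin_part_current {D : Set (A → ℂ)} (hD : IsOpen D) (hne : D.Nonempty)
    {ρ : Γ → (A ⊕ B → ℂ) → (A ⊕ B → ℂ)} {σ : Γ → (A → ℂ) → (A → ℂ)} {a b : Γ → B → ℂ}
    (h : SplitAct D ρ σ a b) (ha : ∀ γ δ j, a (γ * δ) j = a γ j * a δ j)
    (ha0 : ∀ γ j, a γ j ≠ 0) (hpd : PD (Tot D B) ρ) (hcc : CC (Tot D B) ρ)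
    {T : (A ⊕ B → ℂ) → Matrix (A ⊕ B) (A ⊕ B) ℂ} (hT : CForm (Tot D B) T)
    (hinv : InvAE (Tot D B) ρ T)
    (hdisc : ∀ K ⊆ D, IsCompact K → ∃ T : Finset Γ, ∀ γ, (∃ z ∈ K, σ γ z ∈ K) →
      ∃ t ∈ T, ∀ z ∈ D, σ γ z = σ t z) :
    (∃ m : ℕ, 0 < m ∧ ∀ γ, Triv D σ γ → ∀ j, a γ j ^ m = 1) ∧ ∀ γ, ‖∏ j, a γ j‖ = 1 := by
  obtain ⟨T', hT'⟩ := lin_current hD hne h ha ha0 hT hinv
  obtain ⟨hG, hU⟩ := lin_pc_current (lin_pd hD hne h ha ha0 hpd)
    (lin_cc hD hne h ha ha0 hcc hdisc) hT'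
  exact lin_part_uni hne h ha ha0 hG hU

end Pool.Agent.H906.BD
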