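import Pool.Agent.H906.BD.W.Field
import Pool.Agent.H906.BD.W.LinC
import Pool.Agent.H906.BD.W.Adj
import Pool.Agent.H906.BD.Final

/-! # Semiampleness for quotients of `D × ℂ^B` carrying a closed positive current -/

set_option linter.unusedSectionVars false

open Filter Topology Set Metric MeasureTheory
open scoped ComplexOrder

namespace Pool.Agent.H906.BD

variable {A B : Type*} [Fintype A] [Fintype B] [DecidableEq A] [DecidableEq B]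

/-- the discreteness theorem -/
theorem disc_current {Γ : Type*} [Group Γ] {D : Set (A → ℂ)} (hD : IsOpen D) (hc : IsPreconnected D)
    (hne : D.Nonempty) {R : ℝ} (hR : ∀ z ∈ D, ‖z‖ ≤ R) {ρ : Γ → (A ⊕ B → ℂ) → (A ⊕ B → ℂ)}
    {σ : Γ → (A → ℂ) → (A → ℂ)} {a b : Γ → B → ℂ} (h : SplitAct D ρ σ a b)
    (ha : ∀ γ δ j, a (γ * δ) j = a γ j * a δ j) (ha0 : ∀ γ j, a γ j ≠ 0)
    (hpd : PD (Tot D B) ρ) (hcc : CC (Tot D B) ρ)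
    {T : (A ⊕ B → ℂ) → Matrix (A ⊕ B) (A ⊕ B) ℂ} (hT : CForm (Tot D B) T)
    (hinv : InvAE (Tot D B) ρ T) : ∀ᶠ γ in Nbh D σ, Triv D σ γ :=
  discrete_of_split hD hne h ha ha0 hpd fun _ hS hcomm =>
    step hD hc hR h.base (noField_of_current hD hc hR h hpd hcc
      (cform_adj (isOpen_tot hD) hT hinv).1 (cform_adj (isOpen_tot hD) hT hinv).2) hS hcomm

theorem sections_of_current {Γ : Type*} [Group Γ] {D : Set (A → ℂ)} (hD : IsOpen D)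
    (hc : IsPreconnected D) (hne : D.Nonempty) {R : ℝ} (hR : ∀ z ∈ D, ‖z‖ ≤ R)
    {ρ : Γ → (A ⊕ B → ℂ) → (A ⊕ B → ℂ)} {σ : Γ → (A → ℂ) → (A → ℂ)} {a b : Γ → B → ℂ}
    (h : SplitAct D ρ σ a b) (ha : ∀ γ δ j, a (γ * δ) j = a γ j * a δ j)
    (ha0 : ∀ γ j, a γ j ≠ 0) (hpd : PD (Tot D B) ρ) (hcc : CC (Tot D B) ρ)
    {T : (A ⊕ B → ℂ) → Matrix (A ⊕ B) (A ⊕ B) ℂ} (hT : CForm (Tot D B) T)
    (hinv : InvAE (Tot D B) ρ T) {x : A ⊕ B → ℂ} (hx : x ∈ Tot D B) :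
    ∃ l : ℕ, 0 < l ∧ ∃ F : (A ⊕ B → ℂ) → ℂ, DifferentiableOn ℂ F (Tot D B) ∧
      (∀ γ, ∀ y ∈ Tot D B, F (ρ γ y) * (Jac (ρ γ) y).det ^ l = F y) ∧ F x ≠ 0 := by
  have hdisc := disc_current hD hc hne hR h ha ha0 hpd hcc hT hinv
  have hccD : ∃ K ⊆ D, IsCompact K ∧ ∀ z ∈ D, ∃ γ, σ γ z ∈ K := by
    obtain ⟨K, hK, hKc, hcov⟩ := hcc
    refine ⟨prA '' K, ?_, hKc.image continuous_prA, fun z hz => ?_⟩
    · rintro _ ⟨y, hy, rfl⟩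
      exact hK hy
    · obtain ⟨γ, hγ⟩ := hcov (Sum.elim z 0) hz
      refine ⟨γ, ρ γ (Sum.elim z 0), hγ, ?_⟩
      rw [h.fst γ _ hz]
      rfl
  have hpdD : ∀ K ⊆ D, IsCompact K → ∃ T : Finset Γ, ∀ γ, (∃ z ∈ K, σ γ z ∈ K) →
      ∃ t ∈ T, ∀ z ∈ D, σ γ z = σ t z := fun K hK hKc =>
    pd_of_disc hD hc hR h.base hccD hdisc hK hKc
  obtain ⟨⟨m, hm, hm1⟩, hun⟩ := lin_part_current hD hne h ha ha0 hpd hcc hT hinv hpdD
  obtain ⟨l, hl, -, P, hPd, hPa, hPx⟩ := poincare hD hR h.base hpdD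
    (fun γ => jacDet_hol hD (h.base.hol γ))
    (fun s hs K hK hKc => jac_summable hD hR h.base hpdD
      (fun hV _ hρ hinj => volume_image hV hρ hinj) s hs hK hKc)
    (χ := fun γ => ∏ j, a γ j) hun
    (fun γ δ => by
      rw [← Finset.prod_mul_distrib]
      exact Finset.prod_congr rfl fun j _ => ha γ δ j) hm
    (fun γ hγ => by
      rw [← Finset.prod_pow]
      exact Finset.prod_eq_one fun j _ => hm1 γ hγ j) hx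
  refine ⟨l, hl, fun y => P (prA y), ?_, fun γ y hy => ?_, hPx⟩
  · exact hPd.comp (prAL (A := A) (B := B)).differentiable.differentiableOn fun y hy => hy
  · show P (prA (ρ γ y)) * _ = _
    rw [jac_det hD h γ hy, h.fst γ y hy]
    exact hPa γ (prA y) hy

/-- **Abundance** for compact quotients of `D × ℂ^B` with a closed positive current. -/
theorem abundance_current {Δ : Type*} [Group Δ] {D : Set (A → ℂ)} (hD : IsOpen D)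
    (hc : IsPreconnected D) (hne : D.Nonempty) {R : ℝ} (hR : ∀ z ∈ D, ‖z‖ ≤ R)
    {ρ : Δ → (A ⊕ B → ℂ) → (A ⊕ B → ℂ)} (hρ : HolAct (Tot D B) ρ) (hpd : PD (Tot D B) ρ)
    (hcc : CC (Tot D B) ρ) {Δ0 : Subgroup Δ} (hfi : Δ0.FiniteIndex)
    (hs1 : ∀ γ ∈ Δ0, ∀ x ∈ Tot D B, ∀ j i, Jac (ρ γ) x (Sum.inr j) (Sum.inl i) = 0)
    (hs2 : ∀ γ ∈ Δ0, ∀ x ∈ Tot D B, ∀ j j', j ≠ j' →
      Jac (ρ γ) x (Sum.inr j) (Sum.inr j') = 0)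
    {T : (A ⊕ B → ℂ) → Matrix (A ⊕ B) (A ⊕ B) ℂ} (hT : CForm (Tot D B) T)
    (hinv : InvAE (Tot D B) ρ T) :
    ∃ l : ℕ, 0 < l ∧ ∀ x ∈ Tot D B, ∃ F : (A ⊕ B → ℂ) → ℂ, DifferentiableOn ℂ F (Tot D B) ∧
      (∀ δ, ∀ y ∈ Tot D B, F (ρ δ y) * (Jac (ρ δ) y).det ^ l = F y) ∧ F x ≠ 0 := by
  have hρ0 : HolAct (Tot D B) (fun δ : Δ0 => ρ δ) :=
    ⟨fun γ => hρ.maps γ, hρ.one, fun γ δ => hρ.mul γ δ, fun γ => hρ.hol γ⟩
  have hpd0 : PD (Tot D B) (fun δ : Δ0 => ρ δ) := by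
    intro K hK hKc
    exact (hpd K hK hKc).preimage (f := fun δ : Δ0 => (δ : Δ)) Subtype.val_injective.injOn
  have hcc0 : CC (Tot D B) (fun δ : Δ0 => ρ δ) := by
    obtain ⟨K, hK, hKc, hcov⟩ := hcc
    have := hfi
    refine ⟨⋃ q : Δ ⧸ Δ0, ρ (q.out)⁻¹ '' K, ?_, ?_, ?_⟩
    · refine Set.iUnion_subset fun q => ?_
      rintro _ ⟨x, hx, rfl⟩
      exact hρ.maps _ x (hK hx)
    · exact isCompact_iUnion fun q => hKc.image_of_continuousOn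
        (((hρ.hol _).continuousOn).mono hK)
    · intro x hx
      obtain ⟨δ, hδ⟩ := hcov x hx
      have h1 : ((δ : Δ ⧸ Δ0).out)⁻¹ * δ ∈ Δ0 := by
        rw [← QuotientGroup.eq]; simp
      refine ⟨⟨_, h1⟩, ?_⟩
      show ρ (((δ : Δ ⧸ Δ0).out)⁻¹ * δ) x ∈ _
      rw [hρ.mul _ _ x hx]
      exact Set.mem_iUnion.2 ⟨(δ : Δ ⧸ Δ0), ⟨_, hδ, rfl⟩⟩
  have hinv0 : InvAE (Tot D B) (fun δ : Δ0 => ρ δ) T := fun γ => hinv γ
  obtain ⟨σ, a, b, h, ha, ha0⟩ := split_structure hD hc hne hR hρ0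
    (fun γ => hs1 γ γ.2) (fun γ => hs2 γ γ.2)
  refine extend (isOpen_tot hD) hρ hcc hfi fun x hx => ?_
  obtain ⟨l, hl, F, hF, hFa, hFx⟩ := sections_of_current hD hc hne hR h ha ha0 hpd0 hcc0 hT hinv0 hx
  exact ⟨l, hl, F, hF, fun δ hδ => hFa ⟨δ, hδ⟩, hFx⟩

end Pool.Agent.H906.BD
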