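import Pool.Agent.H906.BD.W.Defs

/-! # W06 Low: a uniform lower bound of the current on a set of positive measure

Proof. `B = ball x₁ r' ⊆ ball x₁ r ∩ U` with `closedBall x₁ r' ⊆ U`; `A` is integrable, so
a.e.-strongly measurable, on this closed ball (entry by entry), and almost every `A x`, `x ∈ B`, is positive
definite. A positive definite matrix `P` satisfies `P - (1/(m+1)) • 1` positive semidefinite for some `m : ℕ`
(for instance by the smallest eigenvalue, `Matrix.PosDef.eigenvalues_pos` and the spectral theorem, or as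
in `stokes_lower` of `BD/Stokes.lean` by compactness of the unit sphere). So almost all of `B` is covered by the sets
`E_m = {x ∈ B | (A x - (1/(m+1)) • 1).PosSemidef}`; one of them has nonzero measure
(`measure_iUnion_null`). `E_m` is null-measurable: replace `A` by a measurable version `A'` (equal a.e. on `B`), the
set of positive semidefinite matrices is closed in `Matrix N N ℂ` (intersection of closed conditions
`IsHermitian`, `0 ≤ re (ξᴴ P ξ)`), hence measurable. Take a measurable subset of the same measure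
(`NullMeasurableSet.exists_measurable_subset_ae_eq`), and remove the null set where `A ≠ A'`. -/

set_option linter.unusedSectionVars false

open Filter Topology Set Metric MeasureTheory
open scoped ComplexOrder ContDiff

namespace Pool.Agent.H906.BD

variable {N : Type*} [Fintype N] [DecidableEq N]

theorem wlow_hom (M : Matrix N N ℂ) (ξ : N → ℂ) (t : ℝ) :
    (star ((t : ℂ) • ξ) ⬝ᵥ (M.mulVec ((t : ℂ) • ξ))).re = t ^ 2 * (star ξ ⬝ᵥ (M.mulVec ξ)).re := by
  rw [Matrix.mulVec_smul, star_smul, smul_dotProduct, dotProduct_smul, smul_smul, smul_eq_mul]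
  have e : star (t : ℂ) * (t : ℂ) = ((t ^ 2 : ℝ) : ℂ) := by
    rw [show star (t : ℂ) = (t : ℂ) from Complex.conj_ofReal t]
    push_cast
    ring
  rw [e, Complex.re_ofReal_mul]

/-- a positive definite matrix is bounded below -/
theorem wlow_pd (M : Matrix N N ℂ) (hp : M.PosDef) :
    ∃ l : ℝ, 0 < l ∧ ∀ l' : ℝ, 0 ≤ l' → l' ≤ l →
      (M - ((l' : ℝ) : ℂ) • (1 : Matrix N N ℂ)).PosSemidef := by
  have hher : ∀ l' : ℝ, (M - ((l' : ℝ) : ℂ) • (1 : Matrix N N ℂ)).IsHermitian := by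
    intro l'
    refine hp.isHermitian.sub ?_
    unfold Matrix.IsHermitian
    rw [Matrix.conjTranspose_smul, Matrix.conjTranspose_one]
    congr 1
    exact Complex.conj_ofReal _
  rcases isEmpty_or_nonempty N with hN | hN
  · refine ⟨1, one_pos, fun l' _ _ => Matrix.PosSemidef.of_dotProduct_mulVec_nonneg (hher l')
      fun ξ => ?_⟩
    unfold dotProduct
    rw [Finset.univ_eq_empty, Finset.sum_empty]
  · let F : (N → ℂ) → ℝ := fun q => (star q ⬝ᵥ (M.mulVec q)).re
    have hF : ContinuousOn F (sphere (0 : N → ℂ) 1) := by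
      have h3 : ContinuousOn (fun q : (N → ℂ) => ∑ i, star (q i) * ∑ j, M i j * q j)
          (sphere (0 : N → ℂ) 1) := by fun_prop
      exact Complex.continuous_re.comp_continuousOn h3
    have hne : (sphere (0 : N → ℂ) 1).Nonempty := by
      refine ⟨fun _ => 1, ?_⟩
      rw [mem_sphere_zero_iff_norm, pi_norm_const]
      exact norm_one
    obtain ⟨ξ0, hq0, hmin⟩ := (isCompact_sphere (0 : N → ℂ) 1).exists_isMinOn hne hF
    have hm : 0 < F ξ0 := by
      have hξ : ξ0 ≠ 0 := by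
        intro h
        have := hq0
        rw [mem_sphere_zero_iff_norm, h, norm_zero] at this
        exact zero_ne_one this
      exact hp.re_dotProduct_pos hξ
    obtain ⟨m, hmdef⟩ : ∃ m, m = F ξ0 := ⟨_, rfl⟩
    rw [← hmdef] at hm
    have hcard : (0 : ℝ) < Fintype.card N := by exact_mod_cast Fintype.card_pos
    refine ⟨m / Fintype.card N, by positivity, fun l' hl0 hl' => ?_⟩
    have hlow : ∀ ξ : N → ℂ, m * ‖ξ‖ ^ 2 ≤ (star ξ ⬝ᵥ (M.mulVec ξ)).re := by
      intro ξ
      by_cases hξ : ξ = 0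
      · rw [hξ]
        simp
      · have hn : 0 < ‖ξ‖ := norm_pos_iff.2 hξ
        have h1 : ‖(((‖ξ‖⁻¹ : ℝ) : ℂ)) • ξ‖ = 1 := by
          rw [norm_smul, Complex.norm_real, norm_inv, norm_norm, inv_mul_cancel₀ hn.ne']
        have h2 : m ≤ F ((((‖ξ‖⁻¹ : ℝ) : ℂ)) • ξ) := by
          rw [hmdef]
          exact hmin (a := (((‖ξ‖⁻¹ : ℝ) : ℂ)) • ξ) (by
            rw [mem_sphere_zero_iff_norm]; exact h1)
        have h3 : F ((((‖ξ‖⁻¹ : ℝ) : ℂ)) • ξ) =
            (‖ξ‖⁻¹) ^ 2 * (star ξ ⬝ᵥ (M.mulVec ξ)).re := wlow_hom _ _ _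
        rw [h3] at h2
        calc m * ‖ξ‖ ^ 2 ≤ ((‖ξ‖⁻¹) ^ 2 * (star ξ ⬝ᵥ (M.mulVec ξ)).re) * ‖ξ‖ ^ 2 :=
              mul_le_mul_of_nonneg_right h2 (by positivity)
          _ = _ := by field_simp
    refine Matrix.PosSemidef.of_dotProduct_mulVec_nonneg (hher l') fun ξ => ?_
    rw [Complex.nonneg_iff]
    refine ⟨?_, ((hher l').im_star_dotProduct_mulVec_self ξ).symm⟩
    rw [Matrix.sub_mulVec, dotProduct_sub, Matrix.smul_mulVec, Matrix.one_mulVec, dotProduct_smul,
      smul_eq_mul, Complex.sub_re, Complex.re_ofReal_mul]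
    have h4 : (star ξ ⬝ᵥ ξ).re ≤ Fintype.card N * ‖ξ‖ ^ 2 := by
      unfold dotProduct
      rw [Complex.re_sum]
      have h5 : ∀ i ∈ Finset.univ, ((star ξ) i * ξ i).re ≤ ‖ξ‖ ^ 2 := by
        intro i _
        have h6 : ((star ξ) i * ξ i).re = ‖ξ i‖ ^ 2 := by
          rw [Pi.star_apply, ← Complex.normSq_eq_norm_sq, Complex.normSq_apply]
          simp
        rw [h6]
        exact pow_le_pow_left₀ (norm_nonneg _) (norm_le_pi_norm ξ i) 2
      have h7 := Finset.sum_le_card_nsmul Finset.univ (fun i => ((star ξ) i * ξ i).re) _ h5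
      rw [nsmul_eq_mul] at h7
      exact h7
    have h8 : l' * (star ξ ⬝ᵥ ξ).re ≤ m * ‖ξ‖ ^ 2 := by
      calc l' * (star ξ ⬝ᵥ ξ).re ≤ l' * (Fintype.card N * ‖ξ‖ ^ 2) :=
            mul_le_mul_of_nonneg_left h4 hl0
        _ ≤ (m / Fintype.card N) * (Fintype.card N * ‖ξ‖ ^ 2) :=
            mul_le_mul_of_nonneg_right hl' (by positivity)
        _ = m * ‖ξ‖ ^ 2 := by field_simp
    linarith [hlow ξ]

/-- the set of the matrices which are bounded below by `l` is closed -/
theorem wlow_closed (l : ℝ) :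
    IsClosed {P : N → N → ℂ | (Matrix.of P - (l : ℂ) • (1 : Matrix N N ℂ)).PosSemidef} := by
  have h1 : {P : N → N → ℂ | (Matrix.of P - (l : ℂ) • (1 : Matrix N N ℂ)).PosSemidef} =
      (⋂ (i : N), ⋂ (j : N), {P : N → N → ℂ | star (P j i - (l : ℂ) * (1 : Matrix N N ℂ) j i) =
        P i j - (l : ℂ) * (1 : Matrix N N ℂ) i j}) ∩
      ⋂ ξ : N → ℂ, {P : N → N → ℂ |
        0 ≤ ∑ i, star (ξ i) * ∑ j, (P i j - (l : ℂ) * (1 : Matrix N N ℂ) i j) * ξ j} := by
    ext P
    rw [mem_ofPred_eq, Matrix.posSemidef_iff_dotProduct_mulVec, Matrix.IsHermitian.ext_iff,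
      mem_inter_iff, mem_iInter]
    constructor
    · rintro ⟨ha, hb⟩
      refine ⟨fun i => mem_iInter.2 fun j => ha i j, mem_iInter.2 fun ξ => hb ξ⟩
    · rintro ⟨ha, hb⟩
      exact ⟨fun i j => mem_iInter.1 (ha i) j, fun ξ => mem_iInter.1 hb ξ⟩
  rw [h1]
  apply IsClosed.inter
  · refine isClosed_iInter fun i => isClosed_iInter fun j => ?_
    refine isClosed_eq ?_ ?_ <;> fun_prop
  · refine isClosed_iInter fun ξ => ?_
    refine isClosed_le continuous_const ?_
    fun_prop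

theorem wlow_main {U : Set (N → ℂ)} (hU : IsOpen U) {A : (N → ℂ) → Matrix N N ℂ}
    (hint : ∀ K ⊆ U, IsCompact K → ∀ i j, IntegrableOn (fun x => A x i j) K)
    (hpos : ∀ᵐ x, x ∈ U → (A x).PosDef) {x₁ : N → ℂ} (hx₁ : x₁ ∈ U) {r : ℝ} (hr : 0 < r) :
    ∃ E : Set (N → ℂ), MeasurableSet E ∧ E ⊆ ball x₁ r ∧ E ⊆ U ∧ volume E ≠ 0 ∧
      volume E ≠ ⊤ ∧ ∃ l : ℝ, 0 < l ∧
        ∀ x ∈ E, (A x - (l : ℂ) • (1 : Matrix N N ℂ)).PosSemidef := by
  obtain ⟨ε, hε, hεU⟩ := Metric.nhds_basis_closedBall.mem_iff.1 (hU.mem_nhds hx₁)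
  obtain ⟨r', hr', hr1, hr2⟩ : ∃ r' > 0, r' ≤ r ∧ r' ≤ ε :=
    ⟨min r ε, lt_min hr hε, min_le_left _ _, min_le_right _ _⟩
  have hKU : closedBall x₁ r' ⊆ U := (closedBall_subset_closedBall hr2).trans hεU
  have hBU : ball x₁ r' ⊆ U := ball_subset_closedBall.trans hKU
  have hm : ∀ i j, AEStronglyMeasurable (fun x => A x i j) (volume.restrict (ball x₁ r')) :=
    fun i j => ((hint _ hKU (isCompact_closedBall x₁ r') i j).mono_set
      ball_subset_closedBall).aestronglyMeasurable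
  let A' : (N → ℂ) → (N → N → ℂ) := fun x i j => (hm i j).mk _ x
  have hA'm : Measurable A' := by
    refine measurable_pi_iff.2 fun i => measurable_pi_iff.2 fun j => ?_
    exact (hm i j).stronglyMeasurable_mk.measurable
  have hA'e : ∀ᵐ x ∂(volume.restrict (ball x₁ r')), ∀ i j, A x i j = A' x i j := by
    rw [ae_all_iff]
    intro i
    rw [ae_all_iff]
    intro j
    exact (hm i j).ae_eq_mk
  let C : ℕ → Set (N → ℂ) := fun m => {x | x ∈ ball x₁ r' ∧
    (Matrix.of (A' x) - (((1 / ((m : ℝ) + 1) : ℝ)) : ℂ) • (1 : Matrix N N ℂ)).PosSemidef}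
  have hCm : ∀ m, MeasurableSet (C m) := by
    intro m
    exact measurableSet_ball.inter (hA'm (wlow_closed (1 / ((m : ℝ) + 1))).measurableSet)
  have hcov : ∀ᵐ x ∂(volume.restrict (ball x₁ r')), x ∈ ⋃ m, C m := by
    have h1 : ∀ᵐ x ∂(volume.restrict (ball x₁ r')), x ∈ U → (A x).PosDef :=
      ae_restrict_of_ae hpos
    filter_upwards [hA'e, h1, ae_restrict_mem measurableSet_ball] with x hx1 hx2 hx3
    obtain ⟨l, hl, hl2⟩ := wlow_pd (A x) (hx2 (hBU hx3))
    obtain ⟨m, hm2⟩ := exists_nat_one_div_lt hl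
    refine mem_iUnion.2 ⟨m, hx3, ?_⟩
    have h2 : Matrix.of (A' x) = A x := by
      ext i j
      exact (hx1 i j).symm
    rw [h2]
    exact hl2 _ (by positivity) hm2.le
  have hvol : volume (⋃ m, C m) ≠ 0 := by
    intro h0
    have h1 : volume (ball x₁ r') = 0 := by
      have h2 : volume.restrict (ball x₁ r') (⋃ m, C m)ᶜ = 0 := hcov
      rw [Measure.restrict_apply (MeasurableSet.iUnion hCm).compl] at h2
      have h3 : ball x₁ r' ⊆ ((⋃ m, C m)ᶜ ∩ ball x₁ r') ∪ ⋃ m, C m := by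
        intro x hx
        by_cases h : x ∈ ⋃ m, C m
        · exact Or.inr h
        · exact Or.inl ⟨h, hx⟩
      exact measure_mono_null h3 (measure_union_null h2 h0)
    exact (measure_ball_pos volume x₁ hr').ne' h1
  obtain ⟨m, hm0⟩ : ∃ m, volume (C m) ≠ 0 := by
    by_contra hcon
    push Not at hcon
    exact hvol (measure_iUnion_null hcon)
  obtain ⟨Z, hZ⟩ : ∃ Z : Set (N → ℂ), Z = {x | x ∈ ball x₁ r' ∧ ¬ ∀ i j, A x i j = A' x i j} :=
    ⟨_, rfl⟩
  have hZ0 : volume Z = 0 := by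
    have h1 := (ae_restrict_iff' (μ := (volume : Measure (N → ℂ)))
      (measurableSet_ball (x := x₁) (ε := r'))).1 hA'e
    have h2 : volume {x | ¬ (x ∈ ball x₁ r' → ∀ i j, A x i j = A' x i j)} = 0 := h1
    rw [hZ]
    refine measure_mono_null (fun x hx => ?_) h2
    exact fun hcon => hx.2 (hcon hx.1)
  refine ⟨C m \ toMeasurable volume Z, (hCm m).diff (measurableSet_toMeasurable _ _),
    fun x hx => ball_subset_ball hr1 hx.1.1, fun x hx => hBU hx.1.1, ?_, ?_, 1 / ((m : ℝ) + 1),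
    by positivity, fun x hx => ?_⟩
  · rw [measure_sdiff_null (by rw [measure_toMeasurable]; exact hZ0)]
    exact hm0
  · refine ne_top_of_le_ne_top (measure_ball_lt_top (μ := volume) (x := x₁) (r := r')).ne
      (measure_mono fun x hx => hx.1.1)
  · have h1 : ∀ i j, A x i j = A' x i j := by
      by_contra hcon
      apply hx.2
      apply subset_toMeasurable
      rw [hZ]
      exact ⟨hx.1.1, hcon⟩
    have h2 : Matrix.of (A' x) = A x := by
      ext i j
      exact (h1 i j).symm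
    have h3 := hx.1.2
    rw [h2] at h3
    exact h3

theorem exists_low {U : Set (N → ℂ)} (hU : IsOpen U) {A : (N → ℂ) → Matrix N N ℂ}
    (hA : WForm U A) {x₁ : N → ℂ} (hx₁ : x₁ ∈ U) {r : ℝ} (hr : 0 < r) :
    ∃ E : Set (N → ℂ), MeasurableSet E ∧ E ⊆ ball x₁ r ∧ E ⊆ U ∧ volume E ≠ 0 ∧
      volume E ≠ ⊤ ∧ ∃ l : ℝ, 0 < l ∧
        ∀ x ∈ E, (A x - (l : ℂ) • (1 : Matrix N N ℂ)).PosSemidef := by
  exact wlow_main hU hA.int hA.pos hx₁ hr

end Pool.Agent.H906.BD
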