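import Pool.Agent.H906.BD.W.Defs

/-! # W04 Theta: truncation of plurisubharmonic functions

`theta M t = ∫_0^{t+M} smoothTransition - M` (`W/Defs.lean`). Statements:
(1) `theta_props`: `theta M` is `C^2` with derivative `Real.smoothTransition (t + M)`,
`- M ≤ theta M t ≤ max t (-M)`. (`smoothTransition` is `0` for `t ≤ 0`, `1` for `t ≥ 1`, between `0` and `1`,
smooth: `Real.smoothTransition.contDiff`, `.zero_of_nonpos`, `.nonneg`, `.le_one`; fundamental theorem of
calculus `intervalIntegral.integral_hasDerivAt_right`.)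
(2) `theta_trace`: for real `C^2` functions `v, h` on `U`, `s = v - h`, and a positive semidefinite
matrix `P`, `re tr (P · levi (h + theta M s)) ≥ θ'(s) re tr (P · levi v) + (1 - θ'(s)) re tr (P · levi h)` at
`x ∈ U`. Proof: chain rule: `∂_j \bar∂_k (θ(s)) = θ'(s) ∂_j \bar∂_k s + θ''(s) ∂_j s · \bar∂_k s`, and
`\bar∂_k s = star (∂_k s)` since `s` is real; `θ'' ≥ 0` (derivative of the monotone function
`smoothTransition`; `Real.smoothTransition.monotone`); so `levi (h + θ(s)) - (θ' levi v + (1 - θ') levi h)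
= θ''(s) • (∂_j s · star (∂_k s))_{jk}`, and the trace of `P` times this rank one matrix is
`θ''(s) ∑_{k,j} P_{kj} ∂_j s · star (∂_k s) = θ''(s) ξᴴ P ξ ≥ 0` with `ξ = (∂_j s)_j`. -/

set_option linter.unusedSectionVars false

open Filter Topology Set Metric MeasureTheory
open scoped ComplexOrder ContDiff

namespace Pool.Agent.H906.BD

variable {N : Type*} [Fintype N] [DecidableEq N]

omit [Fintype N] [DecidableEq N] in
theorem wtheta_deriv (M t : ℝ) : HasDerivAt (theta M) (Real.smoothTransition (t + M)) t := by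
  have h1 : HasDerivAt (fun u : ℝ => ∫ s in (0 : ℝ)..u, Real.smoothTransition s)
      (Real.smoothTransition (t + M)) (t + M) :=
    (Real.smoothTransition.continuous.integral_hasStrictDerivAt 0 (t + M)).hasDerivAt
  have h2 := h1.comp_add_const t M
  exact h2.sub_const M

theorem wtheta_neg {a : ℝ} (ha : a ≤ 0) : ∫ s in (0 : ℝ)..a, Real.smoothTransition s = 0 := by
  rw [intervalIntegral.integral_symm]
  have : ∫ s in a..(0 : ℝ), Real.smoothTransition s = ∫ s in a..(0 : ℝ), (0 : ℝ) := by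
    refine intervalIntegral.integral_congr (fun s hs => ?_)
    rw [uIcc_of_le ha] at hs
    exact Real.smoothTransition.zero_of_nonpos hs.2
  rw [this]
  simp

theorem theta_props (M : ℝ) : ContDiff ℝ 2 (theta M) ∧
    (∀ t, HasDerivAt (theta M) (Real.smoothTransition (t + M)) t) ∧ (∀ t, -M ≤ theta M t) ∧
    ∀ t, theta M t ≤ max t (-M) := by
  refine ⟨?_, wtheta_deriv M, fun t => ?_, fun t => ?_⟩
  · have h1 : deriv (theta M) = fun t => Real.smoothTransition (t + M) := by
      funext t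
      exact (wtheta_deriv M t).deriv
    have h2 : ContDiff ℝ 1 (fun t : ℝ => Real.smoothTransition (t + M)) :=
      (Real.smoothTransition.contDiff (n := 1)).comp (contDiff_id.add contDiff_const)
    have h3 : (2 : WithTop ℕ∞) = 1 + 1 := by norm_num
    rw [h3, contDiff_succ_iff_deriv]
    refine ⟨fun t => (wtheta_deriv M t).differentiableAt, by simp, ?_⟩
    rw [h1]
    exact h2
  · unfold theta
    have : 0 ≤ ∫ s in (0 : ℝ)..(t + M), Real.smoothTransition s := by
      rcases le_total 0 (t + M) with h | h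
      · exact intervalIntegral.integral_nonneg h fun s _ => Real.smoothTransition.nonneg s
      · rw [wtheta_neg h]
    linarith
  · unfold theta
    rcases le_total 0 (t + M) with h | h
    · have h1 : ∫ s in (0 : ℝ)..(t + M), Real.smoothTransition s ≤ ∫ s in (0 : ℝ)..(t + M), (1 : ℝ) :=
        intervalIntegral.integral_mono_on h
          (Real.smoothTransition.continuous.intervalIntegrable _ _)
          (continuous_const.intervalIntegrable _ _) fun s _ => Real.smoothTransition.le_one s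
      have h2 : ∫ s in (0 : ℝ)..(t + M), (1 : ℝ) = t + M := by simp
      rw [h2] at h1
      exact le_max_of_le_left (by linarith)
    · rw [wtheta_neg h]
      exact le_max_of_le_right (by linarith)

theorem wtheta_has {f : (N → ℂ) → ℝ} {x : N → ℂ} {f' : (N → ℂ) →L[ℝ] ℝ}
    (hf : HasFDerivAt f f' x) :
    HasFDerivAt (fun y => (f y : ℂ)) (Complex.ofRealCLM.comp f') x :=
  Complex.ofRealCLM.hasFDerivAt.comp x hf

theorem wtheta_fderiv {f : (N → ℂ) → ℝ} {x : N → ℂ} {f' : (N → ℂ) →L[ℝ] ℝ}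
    (hf : HasFDerivAt f f' x) (w : N → ℂ) :
    fderiv ℝ (fun y => (f y : ℂ)) x w = ((f' w : ℝ) : ℂ) := by
  rw [(wtheta_has hf).fderiv]
  rfl

theorem wtheta_conj {f : (N → ℂ) → ℝ} {x : N → ℂ} (hf : DifferentiableAt ℝ f x) (k : N) :
    dzb k (fun y => (f y : ℂ)) x = star (dz k (fun y => (f y : ℂ)) x) := by
  unfold dzb dz
  rw [wtheta_fderiv hf.hasFDerivAt, wtheta_fderiv hf.hasFDerivAt]
  simp

theorem wtheta_dz_add {F G : (N → ℂ) → ℂ} {x : N → ℂ} (hF : DifferentiableAt ℝ F x)
    (hG : DifferentiableAt ℝ G x) (j : N) :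
    dz j (fun y => F y + G y) x = dz j F x + dz j G x := by
  unfold dz
  rw [fderiv_fun_add hF hG]
  simp only [_root_.add_apply]
  ring

theorem wtheta_dz_sub {F G : (N → ℂ) → ℂ} {x : N → ℂ} (hF : DifferentiableAt ℝ F x)
    (hG : DifferentiableAt ℝ G x) (j : N) :
    dz j (fun y => F y - G y) x = dz j F x - dz j G x := by
  unfold dz
  rw [fderiv_fun_sub hF hG]
  simp only [_root_.sub_apply]
  ring

/-- the chain rule for the first derivatives -/
theorem wtheta_first {v h : (N → ℂ) → ℝ} {x : N → ℂ} (hv : DifferentiableAt ℝ v x)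
    (hh : DifferentiableAt ℝ h x) (M : ℝ) (k : N) :
    dzb k (fun y => ((h y + theta M (v y - h y) : ℝ) : ℂ)) x =
      dzb k (fun y => (h y : ℂ)) x + ((Real.smoothTransition (v x - h x + M) : ℝ) : ℂ) *
        (dzb k (fun y => (v y : ℂ)) x - dzb k (fun y => (h y : ℂ)) x) := by
  have h1 : HasFDerivAt (fun y => v y - h y) (fderiv ℝ v x - fderiv ℝ h x) x :=
    hv.hasFDerivAt.sub hh.hasFDerivAt
  have h2 : HasFDerivAt (fun y => theta M (v y - h y))
      (Real.smoothTransition (v x - h x + M) • (fderiv ℝ v x - fderiv ℝ h x)) x :=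
    HasDerivAt.comp_hasFDerivAt (h₂ := theta M) x (wtheta_deriv M ((fun y => v y - h y) x)) h1
  have h3 : HasFDerivAt (fun y => h y + theta M (v y - h y))
      (fderiv ℝ h x + Real.smoothTransition (v x - h x + M) • (fderiv ℝ v x - fderiv ℝ h x)) x :=
    hh.hasFDerivAt.add h2
  unfold dzb
  simp only [wtheta_fderiv h3, wtheta_fderiv hv.hasFDerivAt, wtheta_fderiv hh.hasFDerivAt]
  simp only [_root_.add_apply, _root_.smul_apply, _root_.sub_apply, smul_eq_mul]
  push_cast
  ring

theorem wtheta_second {U : Set (N → ℂ)} (hU : IsOpen U) {v h : (N → ℂ) → ℝ}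
    (hv : ContDiffOn ℝ 2 v U) (hh : ContDiffOn ℝ 2 h U) (M : ℝ) {x : N → ℂ} (hx : x ∈ U)
    (j k : N) :
    levi (fun y => ((h y + theta M (v y - h y) : ℝ) : ℂ)) x j k =
      levi (fun y => (h y : ℂ)) x j k + ((Real.smoothTransition (v x - h x + M) : ℝ) : ℂ) *
        (levi (fun y => (v y : ℂ)) x j k - levi (fun y => (h y : ℂ)) x j k) +
      ((deriv Real.smoothTransition (v x - h x + M) : ℝ) : ℂ) *
        ((dz j (fun y => (v y : ℂ)) x - dz j (fun y => (h y : ℂ)) x) *
          star (dz k (fun y => (v y : ℂ)) x - dz k (fun y => (h y : ℂ)) x)) := by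
  have hd : ∀ {f : (N → ℂ) → ℝ}, ContDiffOn ℝ 2 f U → ∀ y ∈ U, DifferentiableAt ℝ f y :=
    fun hf y hy => (hf.differentiableOn (by norm_num)).differentiableAt (hU.mem_nhds hy)
  have hc : ∀ {f : (N → ℂ) → ℝ}, ContDiffOn ℝ 2 f U → ContDiffOn ℝ 2 (fun y => (f y : ℂ)) U :=
    fun hf => Complex.ofRealCLM.contDiff.comp_contDiffOn hf
  have hb : ∀ {f : (N → ℂ) → ℝ}, ContDiffOn ℝ 2 f U → ∀ k : N,
      DifferentiableAt ℝ (dzb k (fun y => (f y : ℂ))) x := fun hf k =>
    ((dzb_contDiffOn hU (hc hf) k).differentiableOn (by norm_num)).differentiableAt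
      (hU.mem_nhds hx)
  have h1 : dzb k (fun y => ((h y + theta M (v y - h y) : ℝ) : ℂ)) =ᶠ[𝓝 x]
      fun y => dzb k (fun y => (h y : ℂ)) y +
        ((Real.smoothTransition (v y - h y + M) : ℝ) : ℂ) *
        (dzb k (fun y => (v y : ℂ)) y - dzb k (fun y => (h y : ℂ)) y) := by
    filter_upwards [hU.mem_nhds hx] with y hy
    exact wtheta_first (hd hv y hy) (hd hh y hy) M k
  have hG1 : HasFDerivAt (fun y => v y - h y + M) (fderiv ℝ v x - fderiv ℝ h x) x :=
    ((hd hv x hx).hasFDerivAt.sub (hd hh x hx).hasFDerivAt).add_const M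
  have hs : HasDerivAt Real.smoothTransition (deriv Real.smoothTransition (v x - h x + M))
      (v x - h x + M) :=
    (((Real.smoothTransition.contDiff (n := 1)).differentiable (by norm_num)) _).hasDerivAt
  have hG2 : HasFDerivAt (fun y => Real.smoothTransition (v y - h y + M))
      (deriv Real.smoothTransition (v x - h x + M) • (fderiv ℝ v x - fderiv ℝ h x)) x :=
    HasDerivAt.comp_hasFDerivAt (h₂ := Real.smoothTransition) (f := fun y => v y - h y + M) x hs hG1
  have hG3 : DifferentiableAt ℝ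
      (fun y => ((Real.smoothTransition (v y - h y + M) : ℝ) : ℂ)) x :=
    (wtheta_has hG2).differentiableAt
  have hG4 : dz j (fun y => ((Real.smoothTransition (v y - h y + M) : ℝ) : ℂ)) x =
      ((deriv Real.smoothTransition (v x - h x + M) : ℝ) : ℂ) *
        (dz j (fun y => (v y : ℂ)) x - dz j (fun y => (h y : ℂ)) x) := by
    unfold dz
    simp only [wtheta_fderiv hG2, wtheta_fderiv (hd hv x hx).hasFDerivAt,
      wtheta_fderiv (hd hh x hx).hasFDerivAt]
    simp only [_root_.smul_apply, _root_.sub_apply, smul_eq_mul]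
    push_cast
    ring
  have hV : DifferentiableAt ℝ
      (fun y => dzb k (fun y => (v y : ℂ)) y - dzb k (fun y => (h y : ℂ)) y) x :=
    (hb hv k).sub (hb hh k)
  have hW : DifferentiableAt ℝ (fun y => ((Real.smoothTransition (v y - h y + M) : ℝ) : ℂ) *
      (dzb k (fun y => (v y : ℂ)) y - dzb k (fun y => (h y : ℂ)) y)) x := hG3.mul hV
  have e1 : ∀ f : (N → ℂ) → ℂ, levi f x j k = dz j (dzb k f) x := fun f => rfl
  rw [e1, e1, e1, dz_congr h1, wtheta_dz_add (hb hh k) hW,
    equi_dz_mul hG3 hV, wtheta_dz_sub (hb hv k) (hb hh k), hG4,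
    wtheta_conj (hd hv x hx), wtheta_conj (hd hh x hx), star_sub]
  ring

theorem theta_trace {U : Set (N → ℂ)} (hU : IsOpen U) {v h : (N → ℂ) → ℝ}
    (hv : ContDiffOn ℝ 2 v U) (hh : ContDiffOn ℝ 2 h U) (M : ℝ) {x : N → ℂ} (hx : x ∈ U)
    {P : Matrix N N ℂ} (hP : P.PosSemidef) :
    Real.smoothTransition (v x - h x + M) * (Matrix.trace (P * levi (fun y => (v y : ℂ)) x)).re +
      (1 - Real.smoothTransition (v x - h x + M)) *
        (Matrix.trace (P * levi (fun y => (h y : ℂ)) x)).re ≤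
      (Matrix.trace (P * levi (fun y => ((h y + theta M (v y - h y) : ℝ) : ℂ)) x)).re := by
  set c : ℝ := Real.smoothTransition (v x - h x + M) with hc
  set e : ℝ := deriv Real.smoothTransition (v x - h x + M) with he
  set ξ : N → ℂ := fun j => dz j (fun y => (v y : ℂ)) x - dz j (fun y => (h y : ℂ)) x with hξ
  have h1 : levi (fun y => ((h y + theta M (v y - h y) : ℝ) : ℂ)) x =
      levi (fun y => (h y : ℂ)) x + (c : ℂ) •
        (levi (fun y => (v y : ℂ)) x - levi (fun y => (h y : ℂ)) x) +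
      (e : ℂ) • Matrix.vecMulVec ξ (star ξ) := by
    ext j k
    rw [wtheta_second hU hv hh M hx j k]
    simp only [Matrix.add_apply, Matrix.smul_apply, Matrix.sub_apply, smul_eq_mul,
      Matrix.vecMulVec_apply, Pi.star_apply]
    rfl
  have he0 : 0 ≤ e := Real.smoothTransition.monotone.deriv_nonneg
  have h2 : Matrix.trace (P * Matrix.vecMulVec ξ (star ξ)) = star ξ ⬝ᵥ (P.mulVec ξ) := by
    rw [Matrix.mul_vecMulVec, Matrix.trace_vecMulVec, dotProduct_comm]
  have h3 : 0 ≤ (star ξ ⬝ᵥ (P.mulVec ξ)).re := by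
    have := hP.dotProduct_mulVec_nonneg ξ
    exact (Complex.le_def.1 this).1
  rw [h1, Matrix.mul_add, Matrix.mul_add, Matrix.mul_smul, Matrix.mul_smul, Matrix.mul_sub,
    Matrix.trace_add, Matrix.trace_add, Matrix.trace_smul, Matrix.trace_smul, Matrix.trace_sub, h2]
  rw [Complex.add_re, Complex.add_re, smul_eq_mul, smul_eq_mul, Complex.re_ofReal_mul,
    Complex.re_ofReal_mul, Complex.sub_re]
  have h4 := mul_nonneg he0 h3
  linarith

end Pool.Agent.H906.BD
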