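import Pool.Agent.H906.BD.W.Defs

/-! # W03 Zero: the integral of `w · Lap A χ` vanishes for `w` with an additive character

The same statement as `stokes_zero` in `BD/Stokes.lean` (read its proof, it can be copied almost
verbatim), with two changes: the matrix `A` is only locally integrable (`WForm U A`, `InvW U ρ A`) and
`w` is (almost everywhere) locally bounded instead of locally integrable. `hsymm` is the statement of
`wlap_symm` (proved in another file), `χ` the partition function.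

Changes with respect to `stokes_zero`:
* `c γ⁻¹ = - c γ` as there.
* `lap_comp` (`BD/Equi.lean`) is replaced by: for every `γ`, for almost every `y ∈ U`,
  `(‖det J‖²) * Lap A ψ (ρ γ y) = Lap A (fun x => ψ (ρ γ x)) y` for `ψ` of class `C^2`: by
  `equi_dzb_comp`, `equi_dz_comp` and the product rule (see the proof of `lap_comp`)
  `∂_j \bar∂_k (ψ ∘ ρ) (y) = ∑_{p,q} J_{pj} (∂_p \bar∂_q ψ)(ρ y) star (J_{qk})`, so that
  `Lap A (ψ ∘ ρ) (y) = ∑_{p,q} (J.map star * A y * Jᵀ)_{qp} (∂_p \bar∂_q ψ)(ρ y)` and `InvW` applies.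
* integrability: `w` is a.e. bounded on compact subsets of `U` and a.e.-strongly measurable on `U`, `Lap A φ` is
  integrable on compact subsets of `U` for `φ` of class `C^2` on `U` (finite sum of integrable times
  continuous). Products with a factor vanishing off a compact set are integrable. -/

set_option linter.unusedSectionVars false

open Filter Topology Set Metric MeasureTheory
open scoped ComplexOrder ContDiff

namespace Pool.Agent.H906.BD

variable {N : Type*} [Fintype N] [DecidableEq N] {Γ : Type*} [Group Γ]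

/-- equivariance of the operator at a point where the matrix is invariant -/
theorem wzero_comp {U : Set (N → ℂ)} (hU : IsOpen U) {ρ : (N → ℂ) → (N → ℂ)}
    (hρ : DifferentiableOn ℂ ρ U) (hm : ∀ x ∈ U, ρ x ∈ U) {A : (N → ℂ) → Matrix N N ℂ}
    {φ : (N → ℂ) → ℂ} (hφ : ContDiffOn ℝ 2 φ U) {x : N → ℂ} (hx : x ∈ U)
    (hmat : (Jac ρ x).map star * A x * (Jac ρ x).transpose =
      ((‖(Jac ρ x).det‖ ^ 2 : ℝ) : ℂ) • A (ρ x)) :
    Lap A (fun y => φ (ρ y)) x =
      ((‖(Jac ρ x).det‖ ^ 2 : ℝ) : ℂ) * Lap A φ (ρ x) := by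
  have hρa : ∀ y ∈ U, DifferentiableAt ℂ ρ y := fun y hy =>
    hρ.differentiableAt (hU.mem_nhds hy)
  have hφa : ∀ y ∈ U, DifferentiableAt ℝ φ y := fun y hy =>
    (hφ.differentiableOn (by norm_num)).differentiableAt (hU.mem_nhds hy)
  -- the derivative of `φ` is differentiable
  have hφ2 : ∀ y ∈ U, DifferentiableAt ℝ (fderiv ℝ φ) y := by
    intro y hy
    have h1 : ContDiffOn ℝ 1 (fderiv ℝ φ) U := hφ.fderiv_of_isOpen hU (by norm_num)
    exact (h1.differentiableOn (by norm_num)).differentiableAt (hU.mem_nhds hy)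
  have hdzb : ∀ q, ∀ y ∈ U, DifferentiableAt ℝ (dzb q φ) y := by
    intro q y hy
    have h1 : ∀ v : N → ℂ, DifferentiableAt ℝ (fun z => fderiv ℝ φ z v) y := fun v =>
      (hφ2 y hy).clm_apply (differentiableAt_const v)
    have h2 : DifferentiableAt ℝ (fun z => (fderiv ℝ φ z (Pi.single q 1) +
        Complex.I * fderiv ℝ φ z (Pi.single q Complex.I)) / 2) y := by
      simp only [div_eq_mul_inv]
      exact ((h1 _).add ((h1 _).const_mul Complex.I)).mul_const _
    exact h2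
  have hJ : ∀ q k, ∀ y ∈ U, DifferentiableAt ℂ (fun z => Jac ρ z q k) y := by
    intro q k y hy
    have h1 := hol_fderiv_apply hU hρ
      (differentiableOn_const (c := (Pi.single k (1 : ℂ) : N → ℂ)) (s := U))
    have h2 := (h1.differentiableAt (hU.mem_nhds hy))
    exact (differentiableAt_pi.1 h2) q
  -- the second derivatives
  have key : ∀ j k, dz j (dzb k (fun y => φ (ρ y))) x =
      ∑ q, ∑ p, star (Jac ρ x q k) * (Jac ρ x p j * dz p (dzb q φ) (ρ x)) := by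
    intro j k
    have hev : dzb k (fun y => φ (ρ y)) =ᶠ[𝓝 x]
        fun y => ∑ q, star (Jac ρ y q k) * dzb q φ (ρ y) := by
      filter_upwards [hU.mem_nhds hx] with y hy
      exact equi_dzb_comp (hρa y hy) (hφa _ (hm y hy)) k
    have h1 : dz j (dzb k (fun y => φ (ρ y))) x =
        dz j (fun y => ∑ q, star (Jac ρ y q k) * dzb q φ (ρ y)) x := by
      unfold dz
      rw [hev.fderiv_eq]
    have hd2 : ∀ q, DifferentiableAt ℝ (fun y => dzb q φ (ρ y)) x := fun q =>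
      (hdzb q _ (hm x hx)).comp x ((hρa x hx).restrictScalars ℝ)
    rw [h1, equi_dz_sum (F := fun q y => star (Jac ρ y q k) * dzb q φ (ρ y)) (fun q =>
      ((equi_dz_conj (hJ q k x hx) j).1).mul (hd2 q))]
    refine Finset.sum_congr rfl fun q _ => ?_
    rw [equi_dz_mul (F := fun y => star (Jac ρ y q k)) (G := fun y => dzb q φ (ρ y))
      (equi_dz_conj (hJ q k x hx) j).1 (hd2 q), (equi_dz_conj (hJ q k x hx) j).2,
      equi_dz_comp (hρa x hx) (hdzb q _ (hm x hx)), zero_mul, zero_add, Finset.mul_sum]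
  have hent : ∀ p q, ∑ k, ∑ j, star (Jac ρ x q k) * A x k j * Jac ρ x p j =
      ((‖(Jac ρ x).det‖ ^ 2 : ℝ) : ℂ) * A (ρ x) q p := by
    intro p q
    have h1 := congrFun (congrFun hmat q) p
    rw [Matrix.smul_apply, smul_eq_mul] at h1
    rw [← h1, Matrix.mul_apply, Finset.sum_comm]
    refine Finset.sum_congr rfl fun j _ => ?_
    rw [Matrix.mul_apply, Finset.sum_mul]
    refine Finset.sum_congr rfl fun k _ => ?_
    rfl
  unfold Lap
  simp_rw [key]
  rw [Finset.mul_sum]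
  calc ∑ j, ∑ k, A x k j *
        ∑ q, ∑ p, star (Jac ρ x q k) * (Jac ρ x p j * dz p (dzb q φ) (ρ x))
      = ∑ j, ∑ k, ∑ q, ∑ p, (star (Jac ρ x q k) * A x k j * Jac ρ x p j) *
          dz p (dzb q φ) (ρ x) := by
        refine Finset.sum_congr rfl fun j _ => Finset.sum_congr rfl fun k _ => ?_
        rw [Finset.mul_sum]
        refine Finset.sum_congr rfl fun q _ => ?_
        rw [Finset.mul_sum]
        refine Finset.sum_congr rfl fun p _ => ?_
        ring
    _ = ∑ p, ∑ q, ∑ k, ∑ j, (star (Jac ρ x q k) * A x k j * Jac ρ x p j) *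
          dz p (dzb q φ) (ρ x) := by
        rw [Finset.sum_comm]
        have e1 : ∀ k, ∑ j, ∑ q, ∑ p, (star (Jac ρ x q k) * A x k j * Jac ρ x p j) *
            dz p (dzb q φ) (ρ x) = ∑ q, ∑ p, ∑ j, (star (Jac ρ x q k) * A x k j *
            Jac ρ x p j) * dz p (dzb q φ) (ρ x) := by
          intro k
          rw [Finset.sum_comm]
          refine Finset.sum_congr rfl fun q _ => ?_
          rw [Finset.sum_comm]
        simp_rw [e1]
        rw [Finset.sum_comm]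
        have e2 : ∀ q, ∑ k, ∑ p, ∑ j, (star (Jac ρ x q k) * A x k j *
            Jac ρ x p j) * dz p (dzb q φ) (ρ x) = ∑ p, ∑ k, ∑ j, (star (Jac ρ x q k) *
            A x k j * Jac ρ x p j) * dz p (dzb q φ) (ρ x) := fun q =>
          Finset.sum_comm
        simp_rw [e2]
        rw [Finset.sum_comm]
    _ = ∑ p, ∑ q, (((‖(Jac ρ x).det‖ ^ 2 : ℝ) : ℂ) * A (ρ x) q p) *
          dz p (dzb q φ) (ρ x) := by
        refine Finset.sum_congr rfl fun p _ => Finset.sum_congr rfl fun q _ => ?_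
        rw [← hent p q, Finset.sum_mul]
        refine Finset.sum_congr rfl fun k _ => ?_
        rw [Finset.sum_mul]
    _ = _ := by
        refine Finset.sum_congr rfl fun p _ => ?_
        rw [Finset.mul_sum]
        refine Finset.sum_congr rfl fun q _ => ?_
        ring

/-- `Lap A φ` is integrable on compact subsets -/
theorem wzero_lap {U : Set (N → ℂ)} (hU : IsOpen U) {A : (N → ℂ) → Matrix N N ℂ}
    (hA : ∀ K ⊆ U, IsCompact K → ∀ i j, IntegrableOn (fun x => A x i j) K)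
    {φ : (N → ℂ) → ℂ} (hφ : ContDiffOn ℝ 2 φ U) {K : Set (N → ℂ)} (hK : IsCompact K)
    (hKU : K ⊆ U) : IntegrableOn (Lap A φ) K := by
  have h1 : IntegrableOn (fun x => ∑ j, ∑ k, A x k j * dz j (dzb k φ) x) K := by
    refine integrable_finsetSum _ fun j _ => integrable_finsetSum _ fun k _ => ?_
    exact (hA K hKU hK k j).mul_continuousOn
      ((dz_continuousOn hU (dzb_contDiffOn hU hφ k) j).mono hKU) hK
  exact h1

/-- products of a continuous function and an integrable function, vanishing off a compact set -/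
theorem wzero_int' {U K : Set (N → ℂ)} (hK : IsCompact K) (hKU : K ⊆ U) {h f : (N → ℂ) → ℂ}
    (hh : ContinuousOn h U) (hf : IntegrableOn f K) (h0 : ∀ x ∉ K, h x * f x = 0) :
    Integrable (fun x => h x * f x) := by
  have h2 : IntegrableOn (fun x => h x * f x) K volume := hf.continuousOn_mul (hh.mono hKU) hK
  rwa [integrableOn_iff_integrable_of_support_subset] at h2
  intro x hx
  by_contra hxK
  exact hx (h0 x hxK)

/-- products with a locally bounded function -/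
theorem wzero_int {U K : Set (N → ℂ)} (hK : IsCompact K) (hKU : K ⊆ U) {w : (N → ℂ) → ℝ}
    (hwm : AEStronglyMeasurable w (volume.restrict U))
    (hwb : ∀ K ⊆ U, IsCompact K → ∃ C : ℝ, ∀ᵐ x ∂(volume.restrict K), |w x| ≤ C)
    {f : (N → ℂ) → ℂ} (hf : IntegrableOn f K) (h0 : ∀ x ∉ K, f x = 0) :
    Integrable (fun x => (w x : ℂ) * f x) := by
  obtain ⟨C, hC⟩ := hwb K hKU hK
  have hm : AEStronglyMeasurable (fun x => (w x : ℂ)) (volume.restrict K) :=
    Complex.continuous_ofReal.comp_aestronglyMeasurable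
      (hwm.mono_measure (Measure.restrict_mono hKU le_rfl))
  have h2 : IntegrableOn (fun x => (w x : ℂ) * f x) K volume := by
    refine Integrable.bdd_mul (c := C) hf hm ?_
    filter_upwards [hC] with x hx
    rw [Complex.norm_real, Real.norm_eq_abs]
    exact hx
  rwa [integrableOn_iff_integrable_of_support_subset] at h2
  intro x hx
  by_contra hxK
  exact hx (by show (w x : ℂ) * f x = 0; rw [h0 x hxK, mul_zero])

theorem wzero {U : Set (N → ℂ)} (hU : IsOpen U) {ρ : Γ → (N → ℂ) → (N → ℂ)}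
    (hρ : HolAct U ρ) (hpd : PD U ρ) {A : (N → ℂ) → Matrix N N ℂ} (hA : WForm U A)
    (hsymm : ∀ φ ψ : (N → ℂ) → ℂ, ContDiffOn ℝ 2 φ U → ContDiff ℝ 2 ψ → HasCompactSupport ψ →
      tsupport ψ ⊆ U → ∫ x, φ x * Lap A ψ x = ∫ x, ψ x * Lap A φ x)
    (hinv : InvW U ρ A) {w : (N → ℂ) → ℝ} {c : Γ → ℝ} (hc : ∀ γ, c γ⁻¹ = - c γ)
    (hw : ∀ γ, ∀ᵐ x ∂(volume.restrict U), w (ρ γ x) = w x + c γ)
    (hwm : AEStronglyMeasurable w (volume.restrict U))
    (hwb : ∀ K ⊆ U, IsCompact K → ∃ C : ℝ, ∀ᵐ x ∂(volume.restrict K), |w x| ≤ C)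
    {χ : (N → ℂ) → ℝ} (hχ : ContDiff ℝ 2 χ)
    (hχc : HasCompactSupport χ) (hχU : tsupport χ ⊆ U) (hsum : ∀ x ∈ U, ∑ᶠ γ, χ (ρ γ x) = 1) :
    ∫ x, (w x : ℂ) * Lap A (fun y => (χ y : ℂ)) x = 0 := by
  obtain ⟨ψ, hψdef⟩ : ∃ ψ : (N → ℂ) → ℂ, ψ = fun y => (χ y : ℂ) := ⟨_, rfl⟩
  rw [← hψdef]
  obtain ⟨K, hKdef⟩ : ∃ K : Set (N → ℂ), K = tsupport χ := ⟨_, rfl⟩
  have hK : IsCompact K := by rw [hKdef]; exact hχc
  have hKU : K ⊆ U := by rw [hKdef]; exact hχU
  have hψ : ContDiff ℝ 2 ψ := by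
    rw [hψdef]
    exact Complex.ofRealCLM.contDiff.comp hχ
  have hψ0 : ∀ x ∉ K, ψ x = 0 := by
    intro x hx
    rw [hKdef] at hx
    rw [hψdef]
    show ((χ x : ℝ) : ℂ) = 0
    rw [image_eq_zero_of_notMem_tsupport hx, Complex.ofReal_zero]
  have hψs : tsupport ψ ⊆ K := by
    refine closure_minimal (fun x hx => ?_) hK.isClosed
    by_contra h
    exact hx (hψ0 x h)
  have hψc : HasCompactSupport ψ := HasCompactSupport.intro hK hψ0
  have hL0 : ∀ x ∉ K, Lap A ψ x = 0 := fun x hx => lap_zero_off fun h => hx (hψs h)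
  obtain ⟨φ, hφdef⟩ : ∃ φ : Γ → (N → ℂ) → ℂ, φ = fun γ x => ψ (ρ γ x) := ⟨_, rfl⟩
  have hφa : ∀ γ x, φ γ x = ψ (ρ γ x) := fun γ x => by rw [hφdef]
  have hφ : ∀ γ, ContDiffOn ℝ 2 (φ γ) U := by
    intro γ
    have h1 : ContDiffOn ℝ 2 (ρ γ) U := hol_contDiffOn_real hU 2 (hρ.hol γ)
    rw [hφdef]
    exact hψ.comp_contDiffOn h1
  have hLψ : IntegrableOn (Lap A ψ) K := wzero_lap hU hA.int hψ.contDiffOn hK hKU
  have hLφ : ∀ γ, IntegrableOn (Lap A (φ γ)) K := fun γ => wzero_lap hU hA.int (hφ γ) hK hKU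
  -- change of variables
  have hcov : ∀ (γ : Γ) (f : (N → ℂ) → ℂ), ∫ x in U, f x =
      ∫ y in U, ((‖(Jac (ρ γ) y).det‖ ^ 2 : ℝ) : ℂ) * f (ρ γ y) := by
    intro γ f
    have him : ρ γ '' U = U := by
      apply Subset.antisymm
      · rintro _ ⟨x, hx, rfl⟩
        exact hρ.maps γ x hx
      · intro x hx
        exact ⟨ρ γ⁻¹ x, hρ.maps _ x hx, hρ.act_inv γ hx⟩
    have hinj : InjOn (ρ γ) U := by
      intro x hx y hy h
      rw [← hρ.inv_act γ hx, h, hρ.inv_act γ hy]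
    have h := integral_image hU (hρ.hol γ) hinj f
    rw [him] at h
    exact h
  have hlapc : ∀ γ, ∀ᵐ y ∂(volume.restrict U),
      ((‖(Jac (ρ γ) y).det‖ ^ 2 : ℝ) : ℂ) * Lap A ψ (ρ γ y) = Lap A (φ γ) y := by
    intro γ
    rw [ae_restrict_iff' hU.measurableSet]
    filter_upwards [hinv γ] with y hy hyU
    have h := wzero_comp hU (hρ.hol γ) (hρ.maps γ) hψ.contDiffOn hyU (hy hyU)
    rw [hφdef]
    exact h.symm
  -- integrability
  have haint : ∀ γ, Integrable (fun x => ψ x * Lap A (φ γ) x) := fun γ =>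
    wzero_int' hK hKU hψ.continuous.continuousOn (hLφ γ)
      fun x hx => by rw [hψ0 x hx, zero_mul]
  have hbint : ∀ γ, Integrable (fun x => φ γ x * Lap A ψ x) := fun γ =>
    wzero_int' hK hKU (hφ γ).continuousOn hLψ
      fun x hx => by rw [hL0 x hx, mul_zero]
  have hJint : ∀ γ, Integrable (fun x => (w x : ℂ) * (ψ x * Lap A (φ γ) x)) := fun γ =>
    wzero_int hK hKU hwm hwb (haint γ).integrableOn
      fun x hx => by rw [hψ0 x hx, zero_mul]
  have hIint : ∀ γ, Integrable (fun x => (w x : ℂ) * (φ γ x * Lap A ψ x)) := fun γ =>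
    wzero_int hK hKU hwm hwb (hbint γ).integrableOn
      fun x hx => by rw [hL0 x hx, mul_zero]
  obtain ⟨J, hJ⟩ : ∃ J : Γ → ℂ, J = fun γ => ∫ x in U, (w x : ℂ) * (ψ x * Lap A (φ γ) x) :=
    ⟨_, rfl⟩
  obtain ⟨a, ha⟩ : ∃ a : Γ → ℂ, a = fun γ => ∫ x in U, ψ x * Lap A (φ γ) x := ⟨_, rfl⟩
  have hI : ∀ γ, ∫ x in U, (w x : ℂ) * (φ γ x * Lap A ψ x) =
      J γ⁻¹ + (c γ⁻¹ : ℂ) * a γ⁻¹ := by
    intro γ
    rw [hcov γ⁻¹]
    have e1 : ∫ y in U, ((‖(Jac (ρ γ⁻¹) y).det‖ ^ 2 : ℝ) : ℂ) *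
        ((w (ρ γ⁻¹ y) : ℂ) * (φ γ (ρ γ⁻¹ y) * Lap A ψ (ρ γ⁻¹ y))) =
        ∫ y in U, ((w y : ℂ) * (ψ y * Lap A (φ γ⁻¹) y) +
          (c γ⁻¹ : ℂ) * (ψ y * Lap A (φ γ⁻¹) y)) := by
      refine integral_congr_ae ?_
      filter_upwards [hw γ⁻¹, hlapc γ⁻¹, ae_restrict_mem hU.measurableSet] with y hy h1 hyU
      have h2 : φ γ (ρ γ⁻¹ y) = ψ y := by rw [hφa, hρ.act_inv γ hyU]
      rw [hy, h2, ← h1]
      push_cast
      ring
    rw [e1, integral_add (hJint γ⁻¹).integrableOn ((haint γ⁻¹).integrableOn.const_mul _),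
      integral_const_mul, hJ, ha]
  have ha2 : ∀ γ, a γ = a γ⁻¹ := by
    intro γ
    have e1 : a γ = ∫ x, ψ x * Lap A (φ γ) x := by
      rw [ha]
      exact setIntegral_eq_integral_of_forall_compl_eq_zero fun x hx => by
        rw [hψ0 x (fun h => hx (hKU h)), zero_mul]
    have e2 : ∫ x in U, φ γ x * Lap A ψ x = ∫ x, φ γ x * Lap A ψ x :=
      setIntegral_eq_integral_of_forall_compl_eq_zero fun x hx => by
        rw [hL0 x (fun h => hx (hKU h)), mul_zero]
    rw [e1, ← hsymm (φ γ) ψ (hφ γ) hψ hψc (hψs.trans hKU), ← e2, hcov γ⁻¹, ha]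
    refine integral_congr_ae ?_
    filter_upwards [hlapc γ⁻¹, ae_restrict_mem hU.measurableSet] with y h1 hy
    have h2 : φ γ (ρ γ⁻¹ y) = ψ y := by rw [hφa, hρ.act_inv γ hy]
    rw [h2, ← h1]
    ring
  -- the finite set
  obtain ⟨δ, hδ, hthc, hth⟩ := exists_thick hU hKU hK
  have hfin := hpd (cthickening δ K) hth hthc
  obtain ⟨T, hT⟩ : ∃ T : Finset Γ, ∀ γ, γ ∈ T ↔
      (ρ γ '' cthickening δ K ∩ cthickening δ K).Nonempty :=
    ⟨hfin.toFinset, fun γ => by rw [Set.Finite.mem_toFinset]; rfl⟩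
  have hTinv : ∀ γ ∈ T, γ⁻¹ ∈ T := by
    intro γ hγ
    rw [hT] at hγ ⊢
    obtain ⟨w, ⟨z, hz, hzw⟩, hw⟩ := hγ
    refine ⟨z, ⟨w, hw, ?_⟩, hz⟩
    rw [← hzw]
    exact hρ.inv_act γ (hth hz)
  have hsum1 : ∀ x ∈ cthickening δ K, ∑ γ ∈ T, φ γ x = 1 := by
    intro x hx
    have h1 := hsum x (hth hx)
    rw [finsum_eq_sum_of_support_subset (s := T)] at h1
    · have h2 : ∑ γ ∈ T, φ γ x = ((∑ γ ∈ T, χ (ρ γ x) : ℝ) : ℂ) := by
        rw [Complex.ofReal_sum]
        refine Finset.sum_congr rfl fun γ _ => ?_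
        rw [hφa, hψdef]
      rw [h2, h1, Complex.ofReal_one]
    · intro γ hγ
      rw [Finset.mem_coe, hT]
      refine ⟨ρ γ x, ⟨x, hx, rfl⟩, self_subset_cthickening K ?_⟩
      rw [hKdef]
      exact subset_tsupport χ hγ
  have hreidx : ∀ f : Γ → ℂ, ∑ γ ∈ T, f γ⁻¹ = ∑ γ ∈ T, f γ := by
    intro f
    refine Finset.sum_nbij' (fun γ => γ⁻¹) (fun γ => γ⁻¹) hTinv hTinv ?_ ?_ ?_
    · intro γ _
      exact inv_inv γ
    · intro γ _
      exact inv_inv γ
    · intro γ _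
      rfl
  -- the first decomposition
  have e1 : ∫ x, (w x : ℂ) * Lap A ψ x = ∑ γ ∈ T, ∫ x in U, (w x : ℂ) * (φ γ x * Lap A ψ x) := by
    have e2 : ∀ γ, ∫ x in U, (w x : ℂ) * (φ γ x * Lap A ψ x) =
        ∫ x, (w x : ℂ) * (φ γ x * Lap A ψ x) := fun γ =>
      setIntegral_eq_integral_of_forall_compl_eq_zero fun x hx => by
        rw [hL0 x (fun h => hx (hKU h)), mul_zero, mul_zero]
    rw [Finset.sum_congr rfl fun γ _ => e2 γ, ← integral_finsetSum _ fun γ _ => hIint γ]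
    refine integral_congr_ae (Eventually.of_forall fun x => ?_)
    show (w x : ℂ) * Lap A ψ x = ∑ γ ∈ T, (w x : ℂ) * (φ γ x * Lap A ψ x)
    by_cases hx : x ∈ K
    · rw [← Finset.mul_sum, ← Finset.sum_mul, hsum1 x (self_subset_cthickening K hx), one_mul]
    · rw [hL0 x hx]
      simp
  -- the second sum vanishes
  have e3 : ∑ γ ∈ T, J γ = 0 := by
    rw [hJ]
    show ∑ γ ∈ T, ∫ x in U, (w x : ℂ) * (ψ x * Lap A (φ γ) x) = 0
    rw [← integral_finsetSum _ fun γ _ => (hJint γ).integrableOn]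
    have h0 : ∀ x ∈ U, ∑ γ ∈ T, (w x : ℂ) * (ψ x * Lap A (φ γ) x) = 0 := by
      intro x hxU
      by_cases hx : x ∈ K
      · rw [← Finset.mul_sum, ← Finset.mul_sum, ← lap_sum hU A (fun γ _ => hφ γ) hxU]
        have h1 : (fun y => ∑ γ ∈ T, φ γ y) =ᶠ[𝓝 x] fun _ => 1 := by
          have h2 : thickening δ K ∈ 𝓝 x :=
            isOpen_thickening.mem_nhds (self_subset_thickening hδ K hx)
          filter_upwards [h2] with y hy
          exact hsum1 y (thickening_subset_cthickening δ K hy)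
        rw [lap_congr h1, lap_const, mul_zero, mul_zero]
      · rw [hψ0 x hx]
        simp
    rw [setIntegral_congr_fun hU.measurableSet h0]
    simp
  rw [e1, Finset.sum_congr rfl fun γ _ => hI γ, Finset.sum_add_distrib, hreidx J, e3, zero_add]
  have e4 : ∑ γ ∈ T, (c γ⁻¹ : ℂ) * a γ⁻¹ = ∑ γ ∈ T, (c γ : ℂ) * a γ :=
    hreidx fun γ => (c γ : ℂ) * a γ
  have e5 : ∑ γ ∈ T, (c γ⁻¹ : ℂ) * a γ⁻¹ = - ∑ γ ∈ T, (c γ : ℂ) * a γ := by
    rw [← Finset.sum_neg_distrib]
    refine Finset.sum_congr rfl fun γ _ => ?_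
    rw [hc, ← ha2]
    push_cast
    ring
  rw [e4] at e5 ⊢
  exact self_eq_neg.1 e5

end Pool.Agent.H906.BD
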