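import Pool.Agent.H906.BD.W.Symm
import Pool.Agent.H906.BD.W.Zero
import Pool.Agent.H906.BD.W.Theta
import Pool.Agent.H906.BD.W.Equiv
import Pool.Agent.H906.BD.W.Low
import Pool.Agent.H906.BD.Stokes

/-! # W07 Main: Stokes for closed positive currents

No strictly plurisubharmonic function with additive character on a compact quotient with a closed
positive current `A` of bidegree `(n-1,n-1)` (locally integrable coefficients, positive definite a.e.).
The imported files `W/Symm, Zero, Theta, Equiv, Low` contain the tools (being proved by others,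
use their statements `wlap_symm`, `wzero`, `theta_props`, `theta_trace`, `exists_character`, `exists_low`).

Proof. Let `χ` be the function of `exists_partition` with `χ x₁ > 0`, `ψ = (χ : ℂ)`, `K = tsupport χ`; `h` from
`exists_character`; `s = u - h`, `s_j = u_j - h`; for `M : ℕ`, `w_{M,j} = h + θ_M(s_j)`, `w_M = h + θ_M(s)`,
`τ_M(t) = smoothTransition (t + M) = θ_M'(t)`.
(a) `w_M` is a.e.-strongly measurable on `U` (limit of the `w_{M,j}`, continuous on `U`), a.e. locally bounded
(`-M ≤ θ_M(s) ≤ max s (-M)`, `u ≤` bound of `hub` a.e. on compact sets, `h` continuous) and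
`w_M (ρ γ x) = w_M x + c γ` a.e. (`s` is invariant a.e.). So `∫ w_M Lap A ψ = 0` by `wzero`
(`c γ⁻¹ = - c γ` follows from `hc`).
(b) `∫ w_{M,j} Lap A ψ → ∫ w_M Lap A ψ` (`j → ∞`): dominated convergence; `Lap A ψ` is integrable and zero off
`K`; on `K` the `w_{M,j}` are uniformly bounded by `hub`.
(c) `∫ w_{M,j} Lap A ψ = ∫ ψ Lap A w_{M,j}` (`wlap_symm`, `w_{M,j}` is `C^2` on `U`).
(d) Let `E, l` be from `exists_low` for `A`, `x₁` and a radius `≤ r` such that `χ ≥ χ x₁ / 2` on the ball. For `j` large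
(`hstr`), for almost every `x`: `re (ψ Lap A w_{M,j}) (x) ≥ τ_M(s_j(x)) g₁(x) - (1 - τ_M(s_j(x))) g₂(x)`, where
`g₁ = (χ x₁ / 2) l δ 1_E`, `g₂ = χ |Lap A h|`: `Lap A φ x = tr (A x * levi φ x)` (`stokes_lap_trace`),
`theta_trace` with `P = A x`, `re tr (A x * levi u_j x) ≥ 0` (`stokes_trace`) and `≥ l δ` for `x ∈ E`
(`stokes_trace` for `A x - l • 1`, see `stokes_pos`).
(e) So, taking the limit `j → ∞` (dominated convergence, `0 ≤ τ_M ≤ 1`, `τ_M` continuous):
`0 ≥ ∫ τ_M(s) g₁ - ∫ (1 - τ_M(s)) g₂` for every `M`; and `M → ∞`: `τ_M(s(x)) → 1` for every `x`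
(`smoothTransition t = 1` for `t ≥ 1`), so `0 ≥ ∫ g₁ = (χ x₁ / 2) l δ vol(E) > 0`, a contradiction. -/

set_option linter.unusedSectionVars false

open Filter Topology Set Metric MeasureTheory
open scoped ComplexOrder ContDiff

namespace Pool.Agent.H906.BD

variable {N : Type*} [Fintype N] [DecidableEq N] {Γ : Type*} [Group Γ]

/-- the operator is integrable on compact sets -/
theorem wmain_lapint {U : Set (N → ℂ)} (hU : IsOpen U) {A : (N → ℂ) → Matrix N N ℂ}
    (hA : WForm U A) {φ : (N → ℂ) → ℂ} (hφ : ContDiffOn ℝ 2 φ U) {K : Set (N → ℂ)}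
    (hK : IsCompact K) (hKU : K ⊆ U) : IntegrableOn (Lap A φ) K := by
  unfold Lap
  refine integrable_finsetSum _ fun j _ => integrable_finsetSum _ fun k _ => ?_
  exact (hA.int K hKU hK k j).mul_continuousOn
    ((dz_continuousOn hU (dzb_contDiffOn hU hφ k) j).mono hKU) hK

/-- functions vanishing off a set -/
theorem wmain_off {K : Set (N → ℂ)} {F : Type*} [NormedAddCommGroup F] {f : (N → ℂ) → F}
    (hf : IntegrableOn f K) (h0 : ∀ x ∉ K, f x = 0) : Integrable f := by
  rwa [integrableOn_iff_integrable_of_support_subset] at hf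
  intro x hx
  by_contra hxK
  exact hx (h0 x hxK)

/-- bounds for the truncated functions -/
theorem wmain_bd {M Hb Mb a t : ℝ} (hM : 0 ≤ M) (ha : |a| ≤ Hb) (ht : t ≤ Mb) :
    |a + theta M (t - a)| ≤ Hb + (M + |Mb| + Hb) := by
  obtain ⟨_, _, h1, h2⟩ := theta_props M
  have h3 := h1 (t - a)
  have h4 := h2 (t - a)
  have h5 := abs_le.1 ha
  have h6 := le_abs_self Mb
  have h7 := abs_nonneg Mb
  have h8 : 0 ≤ Hb := (abs_nonneg a).trans ha
  have h9 : max (t - a) (-M) ≤ |Mb| + Hb := max_le (by linarith) (by linarith)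
  rw [abs_le]
  constructor <;> linarith

/-- bound for the lower function -/
theorem wmain_gbd {τ g₁ g₂ : ℝ} (h0 : 0 ≤ τ) (h1 : τ ≤ 1) (hg₁ : 0 ≤ g₁) (hg₂ : 0 ≤ g₂) :
    ‖τ * g₁ - (1 - τ) * g₂‖ ≤ g₁ + g₂ := by
  rw [Real.norm_eq_abs, abs_le]
  constructor <;> nlinarith

theorem stokes_weak {U : Set (N → ℂ)} (hU : IsOpen U) {ρ : Γ → (N → ℂ) → (N → ℂ)}
    (hρ : HolAct U ρ) (hpd : PD U ρ) (hcc : CC U ρ) {A : (N → ℂ) → Matrix N N ℂ}
    (hA : WForm U A) (hinv : InvW U ρ A) {u : (N → ℂ) → ℝ} {uj : ℕ → (N → ℂ) → ℝ}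
    {c : Γ → ℝ} (huj : ∀ j, ContDiffOn ℝ 2 (uj j) U)
    (hpsh : ∀ j, ∀ x ∈ U, ∀ ξ : N → ℂ,
      0 ≤ (∑ p, ∑ q, ξ p * star (ξ q) * levi (fun y => (uj j y : ℂ)) x p q).re)
    (hc : ∀ γ δ, c (γ * δ) = c γ + c δ)
    (hu : ∀ γ, ∀ᵐ x ∂(volume.restrict U), u (ρ γ x) = u x + c γ)
    (hub : ∀ K ⊆ U, IsCompact K → ∃ M : ℝ, ∀ j, ∀ x ∈ K, uj j x ≤ M)
    (hlim : ∀ᵐ x ∂(volume.restrict U), Tendsto (fun j => uj j x) atTop (𝓝 (u x)))
    {x₁ : N → ℂ} (hx₁ : x₁ ∈ U) {r δ : ℝ} (hr : 0 < r) (hδ : 0 < δ)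
    (hstr : ∀ᶠ j in atTop, ∀ x ∈ ball x₁ r, x ∈ U →
      δ ≤ (∑ k, levi (fun y => (uj j y : ℂ)) x k k).re) : False := by
  obtain ⟨χ, hχ, hχc, hχU, hχ0, hχ1, hsum⟩ := exists_partition hU hρ hpd hcc hx₁
  obtain ⟨h, hh, hhc⟩ := exists_character hU hρ hpd hcc hx₁ hc
  obtain ⟨K, hKdef⟩ : ∃ K : Set (N → ℂ), K = tsupport χ := ⟨_, rfl⟩
  have hK : IsCompact K := by rw [hKdef]; exact hχc
  have hKU : K ⊆ U := by rw [hKdef]; exact hχU
  obtain ⟨ψ, hψdef⟩ : ∃ ψ : (N → ℂ) → ℂ, ψ = fun y => (χ y : ℂ) := ⟨_, rfl⟩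
  have hψ : ContDiff ℝ 2 ψ := by
    rw [hψdef]
    exact Complex.ofRealCLM.contDiff.comp hχ
  have hχK : ∀ x ∉ K, χ x = 0 := by
    intro x hx
    rw [hKdef] at hx
    exact image_eq_zero_of_notMem_tsupport hx
  have hψ0 : ∀ x ∉ K, ψ x = 0 := by
    intro x hx
    rw [hψdef]
    show ((χ x : ℝ) : ℂ) = 0
    rw [hχK x hx, Complex.ofReal_zero]
  have hψs : tsupport ψ ⊆ K := by
    refine closure_minimal (fun x hx => ?_) hK.isClosed
    by_contra h
    exact hx (hψ0 x h)
  have hψc : HasCompactSupport ψ := HasCompactSupport.intro hK hψ0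
  have hL0 : ∀ x ∉ K, Lap A ψ x = 0 := fun x hx => lap_zero_off fun h => hx (hψs h)
  have hLint : Integrable (Lap A ψ) := wmain_off (wmain_lapint hU hA hψ.contDiffOn hK hKU) hL0
  have hci : ∀ γ, c γ⁻¹ = - c γ := by
    intro γ
    have h1 := hc 1 1
    rw [mul_one] at h1
    have h2 := hc γ⁻¹ γ
    rw [inv_mul_cancel] at h2
    linarith
  -- the lower bound of the current
  obtain ⟨s, hs, hsχ⟩ : ∃ s > 0, ∀ x ∈ ball x₁ s, χ x₁ / 2 ≤ χ x := by
    have h1 : ∀ᶠ x in 𝓝 x₁, χ x₁ / 2 < χ x :=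
      hχ.continuous.continuousAt.eventually (lt_mem_nhds (by linarith))
    obtain ⟨s, hs, h2⟩ := Metric.eventually_nhds_iff_ball.1 h1
    exact ⟨s, hs, fun x hx => (h2 x hx).le⟩
  obtain ⟨E, hEm, hEb, hEU, hE0, hEt, l, hl, hEl⟩ := exists_low hU hA hx₁ (lt_min hs hr)
  obtain ⟨η, hη⟩ : ∃ η, η = χ x₁ / 2 * (l * δ) := ⟨_, rfl⟩
  have hη0 : 0 < η := by rw [hη]; positivity
  obtain ⟨hc', hhcdef⟩ : ∃ hc' : (N → ℂ) → ℂ, hc' = fun y => (h y : ℂ) := ⟨_, rfl⟩
  have hhC : ContDiffOn ℝ 2 hc' U := by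
    rw [hhcdef]
    exact Complex.ofRealCLM.contDiff.comp_contDiffOn hh
  obtain ⟨g₁, hg₁def⟩ : ∃ g₁ : (N → ℂ) → ℝ, g₁ = E.indicator (fun _ => η) := ⟨_, rfl⟩
  obtain ⟨g₂, hg₂def⟩ : ∃ g₂ : (N → ℂ) → ℝ, g₂ = fun x => χ x * ‖Lap A hc' x‖ := ⟨_, rfl⟩
  have hg₁n : ∀ x, 0 ≤ g₁ x := by
    intro x
    rw [hg₁def]
    exact indicator_nonneg (fun _ _ => hη0.le) x
  have hg₂n : ∀ x, 0 ≤ g₂ x := by
    intro x
    rw [hg₂def]
    exact mul_nonneg (hχ0 x) (norm_nonneg _)
  have hg₁i : Integrable g₁ := by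
    rw [hg₁def]
    exact (integrable_indicator_iff hEm).2 (integrableOn_const hEt)
  have hg₂i : Integrable g₂ := by
    rw [hg₂def]
    refine wmain_off (K := K) ?_ fun x hx => by rw [hχK x hx, zero_mul]
    have h9 : IntegrableOn (fun x => ‖Lap A hc' x‖) K := (wmain_lapint hU hA hhC hK hKU).norm
    exact h9.continuousOn_mul hχ.continuous.continuousOn hK
  have hgi : Integrable (fun x => g₁ x + g₂ x) (volume.restrict U) :=
    (hg₁i.add hg₂i).restrict
  have hτc : Continuous Real.smoothTransition := Real.smoothTransition.continuous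
  have hτ0 : ∀ t, 0 ≤ Real.smoothTransition t := Real.smoothTransition.nonneg
  have hτ1 : ∀ t, Real.smoothTransition t ≤ 1 := Real.smoothTransition.le_one
  have hlim' : ∀ᵐ x, x ∈ U → Tendsto (fun j => uj j x) atTop (𝓝 (u x)) :=
    (ae_restrict_iff' hU.measurableSet).1 hlim
  obtain ⟨G, hGdef⟩ : ∃ G : ℝ → ℝ → (N → ℂ) → ℝ, G = fun M v x =>
      Real.smoothTransition (v - h x + M) * g₁ x -
        (1 - Real.smoothTransition (v - h x + M)) * g₂ x := ⟨_, rfl⟩
  have hGa : ∀ M v x, G M v x = Real.smoothTransition (v - h x + M) * g₁ x -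
        (1 - Real.smoothTransition (v - h x + M)) * g₂ x := fun M v x => by rw [hGdef]
  have hGb : ∀ M v x, ‖G M v x‖ ≤ g₁ x + g₂ x := by
    intro M v x
    rw [hGa]
    exact wmain_gbd (hτ0 _) (hτ1 _) (hg₁n x) (hg₂n x)
  have hGm : ∀ (M : ℝ) (j : ℕ), AEStronglyMeasurable (fun x => G M (uj j x) x)
      (volume.restrict U) := by
    intro M j
    have h1 : AEStronglyMeasurable (fun x => Real.smoothTransition (uj j x - h x + M))
        (volume.restrict U) := by
      refine ContinuousOn.aestronglyMeasurable ?_ hU.measurableSet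
      exact hτc.comp_continuousOn
        ((((huj j).continuousOn).sub hh.continuousOn).add continuousOn_const)
    have h2 := (h1.mul hg₁i.aestronglyMeasurable.restrict).sub
      ((aestronglyMeasurable_const (b := (1 : ℝ))).sub h1 |>.mul hg₂i.aestronglyMeasurable.restrict)
    refine h2.congr (Eventually.of_forall fun x => ?_)
    show _ = G M (uj j x) x
    rw [hGa]
    rfl
  have hGl : ∀ M : ℝ, ∀ᵐ x ∂(volume.restrict U),
      Tendsto (fun j => G M (uj j x) x) atTop (𝓝 (G M (u x) x)) := by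
    intro M
    filter_upwards [hlim] with x hx
    have h1 : Tendsto (fun j => Real.smoothTransition (uj j x - h x + M)) atTop
        (𝓝 (Real.smoothTransition (u x - h x + M))) :=
      (hτc.tendsto _).comp ((hx.sub_const _).add_const _)
    simp only [hGa]
    exact (h1.mul_const _).sub ((h1.const_sub 1).mul_const _)
  have hGm' : ∀ M : ℝ, AEStronglyMeasurable (fun x => G M (u x) x) (volume.restrict U) :=
    fun M => aestronglyMeasurable_of_tendsto_ae atTop (hGm M) (hGl M)
  -- the main inequality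
  have key : ∀ M : ℕ, ∫ x in U, G M (u x) x ≤ 0 := by
    intro M
    have hM : (0 : ℝ) ≤ M := Nat.cast_nonneg M
    obtain ⟨hθ2, -, -, -⟩ := theta_props (M : ℝ)
    have hθc : Continuous (theta (M : ℝ)) := hθ2.continuous
    obtain ⟨w, hwdef⟩ : ∃ w : ℕ → (N → ℂ) → ℝ, w = fun j x => h x + theta M (uj j x - h x) :=
      ⟨_, rfl⟩
    obtain ⟨wi, hwidef⟩ : ∃ wi : (N → ℂ) → ℝ, wi = fun x => h x + theta M (u x - h x) := ⟨_, rfl⟩
    have hwa : ∀ j x, w j x = h x + theta M (uj j x - h x) := fun j x => by rw [hwdef]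
    have hwia : ∀ x, wi x = h x + theta M (u x - h x) := fun x => by rw [hwidef]
    have hw2 : ∀ j, ContDiffOn ℝ 2 (w j) U := by
      intro j
      rw [hwdef]
      exact hh.add (hθ2.comp_contDiffOn ((huj j).sub hh))
    have hwC : ∀ j, ContDiffOn ℝ 2 (fun x => (w j x : ℂ)) U := fun j =>
      Complex.ofRealCLM.contDiff.comp_contDiffOn (hw2 j)
    have hwl : ∀ x, Tendsto (fun j => uj j x) atTop (𝓝 (u x)) →
        Tendsto (fun j => w j x) atTop (𝓝 (wi x)) := by
      intro x hx
      simp only [hwa, hwia]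
      exact ((hθc.tendsto _).comp (hx.sub_const _)).const_add _
    have hbd : ∀ S ⊆ U, IsCompact S → ∃ B : ℝ, (∀ j, ∀ x ∈ S, |w j x| ≤ B) ∧
        ∀ᵐ x ∂(volume.restrict S), |wi x| ≤ B := by
      intro S hSU hS
      obtain ⟨Hb, hHb⟩ := hS.exists_bound_of_continuousOn (hh.continuousOn.mono hSU)
      obtain ⟨Mb, hMb⟩ := hub S hSU hS
      refine ⟨Hb + (M + |Mb| + Hb), ?_, ?_⟩
      · intro j x hx
        rw [hwa]
        exact wmain_bd hM (hHb x hx) (hMb j x hx)
      · filter_upwards [ae_restrict_of_ae_restrict_of_subset hSU hlim, ae_restrict_mem hS.measurableSet]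
          with x hx hxS
        rw [hwia]
        exact wmain_bd hM (hHb x hxS) (le_of_tendsto' hx fun j => hMb j x hxS)
    obtain ⟨B, hB, -⟩ := hbd K hKU hK
    have hwL : ∀ j, Integrable (fun x => (w j x : ℂ) * Lap A ψ x) := by
      intro j
      refine wmain_off (K := K) ?_ fun x hx => by rw [hL0 x hx, mul_zero]
      exact hLint.integrableOn.continuousOn_mul ((hwC j).continuousOn.mono hKU) hK
    -- the limit of the left sides
    have t1 : Tendsto (fun j => ∫ x, (w j x : ℂ) * Lap A ψ x) atTop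
        (𝓝 (∫ x, (wi x : ℂ) * Lap A ψ x)) := by
      refine tendsto_integral_of_dominated_convergence (fun x => B * ‖Lap A ψ x‖) ?_
        (hLint.norm.const_mul B) ?_ ?_
      · intro j
        exact (hwL j).aestronglyMeasurable
      · intro j
        refine Eventually.of_forall fun x => ?_
        by_cases hx : x ∈ K
        · rw [norm_mul, Complex.norm_real]
          exact mul_le_mul_of_nonneg_right (hB j x hx) (norm_nonneg _)
        · rw [hL0 x hx]
          simp
      · filter_upwards [hlim'] with x hx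
        by_cases hxK : x ∈ K
        · exact ((Complex.continuous_ofReal.tendsto _).comp (hwl x (hx (hKU hxK)))).mul_const _
        · rw [hL0 x hxK]
          simp
    have hz : ∫ x, (wi x : ℂ) * Lap A ψ x = 0 := by
      rw [hψdef]
      refine wzero hU hρ hpd hA (fun φ ψ' h1 h2 h3 h4 => wlap_symm hU hA h1 h2 h3 h4) hinv hci
        ?_ ?_ ?_ hχ hχc hχU hsum
      · intro γ
        filter_upwards [hu γ, ae_restrict_mem hU.measurableSet] with x hx hxU
        rw [hwia, hwia, hx, hhc γ x hxU]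
        have e : u x + c γ - (h x + c γ) = u x - h x := by ring
        rw [e]
        ring
      · refine aestronglyMeasurable_of_tendsto_ae atTop
          (fun j => (hw2 j).continuousOn.aestronglyMeasurable hU.measurableSet) ?_
        filter_upwards [hlim] with x hx
        exact hwl x hx
      · intro S hSU hS
        obtain ⟨B', _, hB'⟩ := hbd S hSU hS
        exact ⟨B', hB'⟩
    have t1' : Tendsto (fun j => (∫ x, (w j x : ℂ) * Lap A ψ x).re) atTop (𝓝 0) := by
      have := (Complex.continuous_re.tendsto _).comp t1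
      rw [hz, Complex.zero_re] at this
      exact this
    -- the limit of the right sides
    have t2 : Tendsto (fun j => ∫ x in U, G M (uj j x) x) atTop (𝓝 (∫ x in U, G M (u x) x)) :=
      tendsto_integral_of_dominated_convergence (fun x => g₁ x + g₂ x) (hGm M) hgi
        (fun j => Eventually.of_forall fun x => hGb M _ x) (hGl M)
    -- the comparison
    refine le_of_tendsto_of_tendsto t2 t1' ?_
    filter_upwards [hstr] with j hj
    have hψL : Integrable (fun x => ψ x * Lap A (fun x => (w j x : ℂ)) x) := by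
      refine wmain_off (K := K) ?_ fun x hx => by rw [hψ0 x hx, zero_mul]
      exact (wmain_lapint hU hA (hwC j) hK hKU).continuousOn_mul hψ.continuous.continuousOn hK
    have e1 : (∫ x, (w j x : ℂ) * Lap A ψ x).re =
        ∫ x in U, (ψ x * Lap A (fun x => (w j x : ℂ)) x).re := by
      rw [wlap_symm hU hA (hwC j) hψ hψc (hψs.trans hKU)]
      have e2 : ∫ x in U, ψ x * Lap A (fun x => (w j x : ℂ)) x =
          ∫ x, ψ x * Lap A (fun x => (w j x : ℂ)) x :=
        setIntegral_eq_integral_of_forall_compl_eq_zero fun x hx => by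
          rw [hψ0 x (fun h => hx (hKU h)), zero_mul]
      rw [← e2]
      exact (Complex.reCLM.integral_comp_comm hψL.integrableOn).symm
    rw [e1]
    refine integral_mono_ae ?_ hψL.re.integrableOn ?_
    · exact hgi.mono' (hGm M j) (Eventually.of_forall fun x => hGb M _ x)
    · filter_upwards [ae_restrict_of_ae hA.pos, ae_restrict_mem hU.measurableSet] with x hp hxU
      have hP := (hp hxU).posSemidef
      have h1 := theta_trace hU (huj j) hh M hxU hP
      rw [← stokes_lap_trace, ← stokes_lap_trace, ← stokes_lap_trace] at h1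
      have h2 := stokes_trace hP (hpsh j x hxU)
      rw [← stokes_lap_trace] at h2
      have hwe : (fun y => ((h y + theta M (uj j y - h y) : ℝ) : ℂ)) = fun x => (w j x : ℂ) := by
        funext y
        rw [hwa]
      rw [hwe, ← hhcdef] at h1
      show G M (uj j x) x ≤ (ψ x * Lap A (fun x => (w j x : ℂ)) x).re
      have e3 : (ψ x * Lap A (fun x => (w j x : ℂ)) x).re =
          χ x * (Lap A (fun x => (w j x : ℂ)) x).re := by
        rw [hψdef, Complex.re_ofReal_mul]
      rw [e3, hGa]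
      have h3 : g₁ x ≤ χ x * (Lap A (fun y => (uj j y : ℂ)) x).re := by
        rw [hg₁def]
        by_cases hxE : x ∈ E
        · rw [indicator_of_mem hxE, hη]
          have hxs : x ∈ ball x₁ s := ball_subset_ball (min_le_left _ _) (hEb hxE)
          have hxr : x ∈ ball x₁ r := ball_subset_ball (min_le_right _ _) (hEb hxE)
          have h4 := stokes_trace (hEl x hxE) (hpsh j x hxU)
          have h5 := hj x hxr hxU
          have h6 : Matrix.trace ((A x - ((l : ℝ) : ℂ) • (1 : Matrix N N ℂ)) *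
              levi (fun y => (uj j y : ℂ)) x) =
              Lap A (fun y => (uj j y : ℂ)) x -
                ((l : ℝ) : ℂ) * ∑ k, levi (fun y => (uj j y : ℂ)) x k k := by
            rw [Matrix.sub_mul, Matrix.trace_sub, Matrix.smul_mul, Matrix.one_mul,
              Matrix.trace_smul, stokes_lap_trace]
            rfl
          rw [h6, Complex.sub_re, Complex.re_ofReal_mul] at h4
          have h7 : l * δ ≤ l * (∑ k, levi (fun y => (uj j y : ℂ)) x k k).re :=
            mul_le_mul_of_nonneg_left h5 hl.le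
          exact mul_le_mul (hsχ x hxs) (by linarith) (by positivity) (hχ0 x)
        · rw [indicator_of_notMem hxE]
          exact mul_nonneg (hχ0 x) h2
      have h4 : - g₂ x ≤ χ x * (Lap A hc' x).re := by
        rw [hg₂def]
        have h5 := (abs_le.1 (Complex.abs_re_le_norm (Lap A hc' x))).1
        have h6 := mul_le_mul_of_nonneg_left h5 (hχ0 x)
        linarith
      have h5 := mul_le_mul_of_nonneg_left h1 (hχ0 x)
      have h6 := mul_le_mul_of_nonneg_left h3 (hτ0 (uj j x - h x + M))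
      have h7 := mul_le_mul_of_nonneg_left h4 (sub_nonneg.2 (hτ1 (uj j x - h x + M)))
      linarith
  -- the limit `M → ∞`
  have t3 : Tendsto (fun M : ℕ => ∫ x in U, G M (u x) x) atTop (𝓝 (∫ x in U, g₁ x)) := by
    refine tendsto_integral_of_dominated_convergence (fun x => g₁ x + g₂ x) (fun M => hGm' M) hgi
      (fun M => Eventually.of_forall fun x => hGb M _ x) (Eventually.of_forall fun x => ?_)
    refine tendsto_const_nhds.congr' ?_
    filter_upwards [eventually_ge_atTop ⌈1 - (u x - h x)⌉₊] with M hM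
    have h1 : 1 ≤ u x - h x + M := by
      have := Nat.ceil_le.1 hM
      linarith
    rw [hGa, Real.smoothTransition.one_of_one_le h1]
    ring
  have h1 : ∫ x in U, g₁ x ≤ 0 := le_of_tendsto' t3 key
  have h2 : ∫ x in U, g₁ x = volume.real E * η := by
    rw [hg₁def, setIntegral_indicator hEm, inter_eq_right.2 hEU, setIntegral_const, smul_eq_mul]
  have h3 : 0 < volume.real E := ENNReal.toReal_pos hE0 hEt
  have h4 := mul_pos h3 hη0
  linarith

end Pool.Agent.H906.BD
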