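import Pool.Agent.H906.BD.W.Defs

/-! # W01 Mol: from `C^∞` to `C^1` test functions

Statement `mol_c1`: if `∫ ∑_j F_j ∂_j χ = 0` for all `C^∞` functions `χ` with compact support in `U` (`F_j`
locally integrable on the open set `U`), then the same holds for all `C^1` functions `χ` with compact
support in `U`.

Proof. Let `K = tsupport χ`, compact; there is `ε₀ > 0` with `K' = cthickening ε₀ K ⊆ U` compact
(`IsCompact.exists_cthickening_subset_open`). For `n` large let `φ_n` be a smooth bump function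
(`ContDiffBump` around `0` of radii `1/(n+2) , 1/(n+1)`, which exists on `N → ℂ` since it is
`HasContDiffBump`: finite-dimensional real space) and `χ_n = (φ_n.normed volume) ⋆ χ` (convolution with
`ContinuousLinearMap.lsmul ℝ ℝ`, i.e. `χ_n x = ∫ t, φ_n.normed volume t • χ (x - t)`). Then `χ_n` is `C^∞`
(`HasCompactSupport.contDiff_convolution_left`), its support is in `K'` for `n` large
(`support_convolution_subset`, `ContDiffBump.support_normed_eq`), and
`fderiv ℝ χ_n x v = (φ_n.normed ⋆ fun y => fderiv ℝ χ y v) x`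
(`HasCompactSupport.hasFDerivAt_convolution_right`, `χ` is `C^1` with compact support), so `dz j χ_n → dz j χ`
uniformly (or: pointwise, by `ContDiffBump.convolution_tendsto_right_of_continuous`, and bounded by
`sup |fderiv ℝ χ y v|` because `φ_n.normed` has integral one and is nonnegative; this is enough).
`∫ ∑_j F_j dz j χ_n → ∫ ∑_j F_j dz j χ` by dominated convergence with the bound
`∑_j C * ‖F_j x‖` on `K'` and zero off `K'`. -/

set_option linter.unusedSectionVars false

open Filter Topology Set Metric MeasureTheory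
open scoped ComplexOrder ContDiff

namespace Pool.Agent.H906.BD

variable {N : Type*} [Fintype N] [DecidableEq N]

theorem wmol_dz_cont {χ : (N → ℂ) → ℂ} (hχ : ContDiff ℝ 1 χ) (j : N) : Continuous (dz j χ) := by
  have h1 := dz_continuousOn isOpen_univ hχ.contDiffOn j
  rwa [continuousOn_univ] at h1

theorem wmol_dz_zero {χ : (N → ℂ) → ℂ} {x : N → ℂ} (hx : x ∉ tsupport χ) (j : N) :
    dz j χ x = 0 := by
  have h1 : fderiv ℝ χ x = 0 := by
    by_contra h
    exact hx (support_fderiv_subset ℝ h)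
  simp [dz, h1]

theorem wmol_approx {χ : (N → ℂ) → ℂ} (hχ : ContDiff ℝ 1 χ) (hχc : HasCompactSupport χ) {δ : ℝ}
    (hδ : 0 < δ) {η : ℝ} (hη : 0 < η) :
    ∃ χ' : (N → ℂ) → ℂ, ContDiff ℝ ∞ χ' ∧ tsupport χ' ⊆ cthickening δ (tsupport χ) ∧
      ∀ j x, ‖dz j χ' x - dz j χ x‖ ≤ η := by
  have hdc : Continuous (fderiv ℝ χ) := hχ.continuous_fderiv (by norm_num)
  have hdk : HasCompactSupport (fderiv ℝ χ) := hχc.fderiv ℝ
  obtain ⟨r, hr, hr'⟩ := Metric.uniformContinuous_iff.1
    (HasCompactSupport.uniformContinuous_of_continuous hdk hdc) η hη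
  have hρ : 0 < min r δ := lt_min hr hδ
  let φ : ContDiffBump (0 : N → ℂ) := ⟨min r δ / 2, min r δ, by positivity, by linarith⟩
  have hφr : φ.rOut = min r δ := rfl
  have hφc : HasCompactSupport (φ.normed (volume : Measure (N → ℂ))) := φ.hasCompactSupport_normed
  have hφs : ContDiff ℝ ∞ (φ.normed (volume : Measure (N → ℂ))) := φ.contDiff_normed
  have hφl : LocallyIntegrable (φ.normed (volume : Measure (N → ℂ))) volume :=
    hφs.continuous.locallyIntegrable
  refine ⟨MeasureTheory.convolution (φ.normed volume) χ (ContinuousLinearMap.lsmul ℝ ℝ) volume,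
    ?_, ?_, fun j x => ?_⟩
  · exact hφc.contDiff_convolution_left _ hφs hχ.continuous.locallyIntegrable
  · refine closure_minimal ?_ isClosed_cthickening
    refine (MeasureTheory.support_convolution_subset _).trans ?_
    rintro _ ⟨u, hu, v, hv, rfl⟩
    rw [φ.support_normed_eq, hφr, mem_ball, dist_zero_right] at hu
    have h1 : v ∈ tsupport χ := subset_tsupport χ hv
    refine mem_cthickening_of_dist_le (u + v) v δ _ h1 ?_
    rw [dist_eq_norm, add_sub_cancel_right]
    exact hu.le.trans (min_le_right _ _)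
  · have h1 := (hχc.hasFDerivAt_convolution_right (ContinuousLinearMap.lsmul ℝ ℝ) hφl hχ x).fderiv
    have h2 : ∀ v : N → ℂ, ‖v‖ ≤ 1 →
        ‖fderiv ℝ (MeasureTheory.convolution (φ.normed volume) χ
          (ContinuousLinearMap.lsmul ℝ ℝ) volume) x v - fderiv ℝ χ x v‖ ≤ η := by
      intro v hv
      rw [h1, MeasureTheory.convolution_precompR_apply _ hφl hdk hdc, ← dist_eq_norm]
      refine ContDiffBump.dist_normed_convolution_le
        (hdc.clm_apply continuous_const).aestronglyMeasurable fun y hy => ?_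
      rw [dist_eq_norm, ← _root_.sub_apply]
      have h3 : ‖fderiv ℝ χ y - fderiv ℝ χ x‖ ≤ η := by
        rw [← dist_eq_norm]
        refine (hr' ?_).le
        rw [mem_ball, hφr] at hy
        exact hy.trans_le (min_le_left _ _)
      calc ‖(fderiv ℝ χ y - fderiv ℝ χ x) v‖ ≤ ‖fderiv ℝ χ y - fderiv ℝ χ x‖ * ‖v‖ :=
            ContinuousLinearMap.le_opNorm _ _
        _ ≤ η * 1 := mul_le_mul h3 hv (norm_nonneg _) hη.le
        _ = η := mul_one η
    have h4 := h2 (Pi.single j 1) (by rw [Pi.norm_single, norm_one])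
    have h5 := h2 (Pi.single j Complex.I) (by rw [Pi.norm_single, Complex.norm_I])
    unfold dz
    obtain ⟨A, hA⟩ : ∃ A, A = fderiv ℝ (MeasureTheory.convolution (φ.normed volume) χ
          (ContinuousLinearMap.lsmul ℝ ℝ) volume) x := ⟨_, rfl⟩
    rw [← hA] at h4 h5 ⊢
    have h6 : (A (Pi.single j 1) - Complex.I * A (Pi.single j Complex.I)) / 2 -
        (fderiv ℝ χ x (Pi.single j 1) - Complex.I * fderiv ℝ χ x (Pi.single j Complex.I)) / 2 =
        ((A (Pi.single j 1) - fderiv ℝ χ x (Pi.single j 1)) -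
          Complex.I * (A (Pi.single j Complex.I) - fderiv ℝ χ x (Pi.single j Complex.I))) / 2 := by
      ring
    rw [h6, norm_div, Complex.norm_ofNat]
    have h7 := norm_sub_le (A (Pi.single j 1) - fderiv ℝ χ x (Pi.single j 1))
      (Complex.I * (A (Pi.single j Complex.I) - fderiv ℝ χ x (Pi.single j Complex.I)))
    rw [norm_mul, Complex.norm_I, one_mul] at h7
    linarith

theorem mol_c1 {U : Set (N → ℂ)} (hU : IsOpen U) {F : N → (N → ℂ) → ℂ}
    (hF : ∀ K ⊆ U, IsCompact K → ∀ j, IntegrableOn (F j) K)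
    (h : ∀ χ : (N → ℂ) → ℂ, ContDiff ℝ ∞ χ → HasCompactSupport χ → tsupport χ ⊆ U →
      ∫ x, ∑ j, F j x * dz j χ x = 0)
    {χ : (N → ℂ) → ℂ} (hχ : ContDiff ℝ 1 χ) (hχc : HasCompactSupport χ)
    (hχU : tsupport χ ⊆ U) : ∫ x, ∑ j, F j x * dz j χ x = 0 := by
  obtain ⟨δ, hδ, hδU⟩ := hχc.isCompact.exists_cthickening_subset_open hU hχU
  have hK : IsCompact (cthickening δ (tsupport χ)) := hχc.isCompact.cthickening
  have hFK := hF _ hδU hK
  obtain ⟨C, hC⟩ : ∃ C : ℝ, C = ∑ j, ∫ x in cthickening δ (tsupport χ), ‖F j x‖ := ⟨_, rfl⟩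
  have hC0 : 0 ≤ C := by
    rw [hC]
    exact Finset.sum_nonneg fun j _ => integral_nonneg fun x => norm_nonneg _
  have hset : ∀ χ' : (N → ℂ) → ℂ, tsupport χ' ⊆ cthickening δ (tsupport χ) →
      ∫ x, ∑ j, F j x * dz j χ' x =
        ∫ x in cthickening δ (tsupport χ), ∑ j, F j x * dz j χ' x := by
    intro χ' h1
    refine (setIntegral_eq_integral_of_forall_compl_eq_zero fun x hx => ?_).symm
    exact Finset.sum_eq_zero fun j _ => by rw [wmol_dz_zero (fun h2 => hx (h1 h2)), mul_zero]
  have hint : ∀ χ' : (N → ℂ) → ℂ, ContDiff ℝ 1 χ' → ∀ j,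
      IntegrableOn (fun x => F j x * dz j χ' x) (cthickening δ (tsupport χ)) := fun χ' h1 j =>
    (hFK j).mul_continuousOn (wmol_dz_cont h1 j).continuousOn hK
  have key : ∀ η : ℝ, 0 < η → ‖∫ x, ∑ j, F j x * dz j χ x‖ ≤ η * C := by
    intro η hη
    obtain ⟨χ', c1, c2, c3⟩ := wmol_approx hχ hχc hδ hη
    have h0 := h χ' c1 (hK.of_isClosed_subset (isClosed_tsupport _) c2) (c2.trans hδU)
    have c1' : ContDiff ℝ 1 χ' := c1.of_le (by exact_mod_cast le_top)
    rw [hset χ' c2] at h0
    rw [hset χ (self_subset_cthickening _), ← sub_zero (∫ x in _, _), ← h0, ← integral_sub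
      (integrable_finsetSum _ fun j _ => hint χ hχ j)
      (integrable_finsetSum _ fun j _ => hint χ' c1' j)]
    have e1 : ∀ x, ‖∑ j, F j x * dz j χ x - ∑ j, F j x * dz j χ' x‖ ≤ ∑ j, η * ‖F j x‖ := by
      intro x
      rw [← Finset.sum_sub_distrib]
      refine (norm_sum_le _ _).trans (Finset.sum_le_sum fun j _ => ?_)
      rw [← mul_sub, norm_mul, mul_comm η]
      refine mul_le_mul_of_nonneg_left ?_ (norm_nonneg _)
      rw [norm_sub_rev]
      exact c3 j x
    have e2 : ∫ x in cthickening δ (tsupport χ), ∑ j, η * ‖F j x‖ = η * C := by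
      rw [hC, integral_finsetSum _ fun j _ => ((hFK j).norm.const_mul η), Finset.mul_sum]
      exact Finset.sum_congr rfl fun j _ => integral_const_mul η _
    refine (norm_integral_le_integral_norm _).trans ?_
    rw [← e2]
    refine integral_mono_of_nonneg (Eventually.of_forall fun x => norm_nonneg _)
      (integrable_finsetSum _ fun j _ => ((hFK j).norm.const_mul η)) (Eventually.of_forall e1)
  by_contra hne
  have h1 : 0 < ‖∫ x, ∑ j, F j x * dz j χ x‖ := norm_pos_iff.2 hne
  have h2 := key (‖∫ x, ∑ j, F j x * dz j χ x‖ / (2 * (C + 1))) (by positivity)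
  have h3 : ‖∫ x, ∑ j, F j x * dz j χ x‖ / (2 * (C + 1)) * C <
      ‖∫ x, ∑ j, F j x * dz j χ x‖ := by
    rw [div_mul_eq_mul_div, div_lt_iff₀ (by positivity)]
    nlinarith
  linarith

end Pool.Agent.H906.BD
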