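import Pool.Agent.H906.BD.W.Defs

/-! # W02 Symm: symmetry of the operator for weakly closed coefficients

`A` is a matrix of locally integrable functions on `U` with weakly divergence free rows and columns
(`WForm`). For `φ` of class `C^2` on `U` and `ψ` of class `C^2` with compact support in `U`:
`∫ φ · Lap A ψ = ∫ ψ · Lap A φ`, `Lap A φ = ∑_j ∑_k A_{kj} ∂_j \bar∂_k φ`.

Proof (the smooth case is `lap_symm` in `BD/Ibp.lean`, whose auxiliary lemmas `ibp_mul`, `ibp_symm`,
`ibp_ext`, `ibp_contDiffAt`, `ibp_zero` can be used; `ibp_D c j f` is `(∂_{Re j} f + c ∂_{Im j} f)/2`, so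
`dz j = ibp_D (-I) j`, `dzb j = ibp_D I j`). Put `a_k = φ · \bar∂_k ψ`, `b_j = ψ · ∂_j φ`. They are `C^1` functions
on the whole space with support in `tsupport ψ` (`ibp_ext`: `\bar∂_k ψ` and `ψ` vanish off `tsupport ψ`). On `U`:
`∂_j a_k = ∂_j φ · \bar∂_k ψ + φ · ∂_j \bar∂_k ψ`, `\bar∂_k b_j = \bar∂_k ψ · ∂_j φ + ψ · \bar∂_k ∂_j φ` and
`\bar∂_k ∂_j φ = ∂_j \bar∂_k φ` (`ibp_symm`). So
`φ Lap A ψ - ψ Lap A φ = ∑_k (∑_j A_{kj} ∂_j a_k) - ∑_j (∑_k A_{kj} \bar∂_k b_j)` (off `tsupport ψ` both sides are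
zero). Integrate: `hA.row a_k k` and `hA.col b_j j`. All functions are integrable: (locally integrable
function `A_{kj}`) times (continuous on `U`, zero off the compact set `tsupport ψ`); compare `stokes_int` in
`BD/Stokes.lean`. -/

set_option linter.unusedSectionVars false

open Filter Topology Set Metric MeasureTheory
open scoped ComplexOrder ContDiff

namespace Pool.Agent.H906.BD

variable {N : Type*} [Fintype N] [DecidableEq N]

/-- an integrable function on `K` times a continuous function which vanishes off `K` -/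
theorem wsymm_int {K : Set (N → ℂ)} {u : (N → ℂ) → ℂ} (hu : IntegrableOn u K) (hK : IsCompact K)
    {h : (N → ℂ) → ℂ} (hh : ContinuousOn h K) (h0 : ∀ x ∉ K, h x = 0) :
    Integrable (fun x => u x * h x) := by
  have h2 : IntegrableOn (fun x => u x * h x) K volume := hu.mul_continuousOn hh hK
  rwa [integrableOn_iff_integrable_of_support_subset] at h2
  intro x hx
  by_contra hxK
  exact hx (by simp [h0 x hxK])

/-- a first derivative of a function of class `C^1` near the points of `K` is continuous on `K` -/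
theorem wsymm_cont {K : Set (N → ℂ)} (c : ℂ) (j : N) {f : (N → ℂ) → ℂ}
    (hf : ∀ x ∈ K, ContDiffAt ℝ 1 f x) : ContinuousOn (ibp_D c j f) K := fun x hx =>
  (ibp_contDiffAt (n := 0) c j (hf x hx)).continuousAt.continuousWithinAt

/-- the derivatives vanish off a closed set -/
theorem wsymm_zero {K : Set (N → ℂ)} (hK : IsClosed K) (c : ℂ) (j : N) {f : (N → ℂ) → ℂ}
    (h0 : ∀ x ∉ K, f x = 0) : ∀ x ∉ K, ibp_D c j f x = 0 := by
  intro x hx
  refine ibp_zero c j fun h => hx ?_
  exact closure_minimal (fun y hy => by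
    by_contra hy'
    exact hy (h0 y hy')) hK h

theorem wlap_symm {U : Set (N → ℂ)} (hU : IsOpen U) {A : (N → ℂ) → Matrix N N ℂ}
    (hA : WForm U A) {φ ψ : (N → ℂ) → ℂ} (hφ : ContDiffOn ℝ 2 φ U) (hψ : ContDiff ℝ 2 ψ)
    (hψc : HasCompactSupport ψ) (hψU : tsupport ψ ⊆ U) :
    ∫ x, φ x * Lap A ψ x = ∫ x, ψ x * Lap A φ x := by
  have hcl : IsClosed (tsupport ψ) := isClosed_tsupport ψ
  have hcpt : IsCompact (tsupport ψ) := hψc
  have hφa : ∀ x ∈ U, ContDiffAt ℝ 2 φ x := fun x hx => hφ.contDiffAt (hU.mem_nhds hx)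
  have hDφ : ∀ (c : ℂ) (j : N), ∀ x ∈ U, ContDiffAt ℝ 1 (ibp_D c j φ) x :=
    fun c j x hx => ibp_contDiffAt (n := 1) c j (hφa x hx)
  have hDψ : ∀ (c : ℂ) (j : N), ∀ x, ContDiffAt ℝ 1 (ibp_D c j ψ) x :=
    fun c j x => ibp_contDiffAt (n := 1) c j hψ.contDiffAt
  have hD0 : ∀ (c : ℂ) (j : N), ∀ x ∉ tsupport ψ, ibp_D c j ψ x = 0 :=
    fun c j x hx => ibp_zero c j hx
  have hψ0 : ∀ x ∉ tsupport ψ, ψ x = 0 := fun x hx => image_eq_zero_of_notMem_tsupport hx
  have hφ1 : ∀ x ∈ U, ContDiffAt ℝ 1 φ x := fun x hx => (hφa x hx).of_le (by norm_num)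
  have hψ1 : ∀ x, ContDiffAt ℝ 1 ψ x := fun x => hψ.contDiffAt.of_le (by norm_num)
  -- the auxiliary functions
  obtain ⟨a, ha⟩ : ∃ a : N → (N → ℂ) → ℂ, a = fun k x => φ x * ibp_D Complex.I k ψ x := ⟨_, rfl⟩
  obtain ⟨b, hb⟩ : ∃ b : N → (N → ℂ) → ℂ, b = fun j x => ψ x * ibp_D (-Complex.I) j φ x :=
    ⟨_, rfl⟩
  have ha0 : ∀ k, ∀ x ∉ tsupport ψ, a k x = 0 := by
    intro k x hx
    rw [ha]
    show φ x * ibp_D Complex.I k ψ x = 0
    rw [hD0 _ _ x hx, mul_zero]
  have hb0 : ∀ j, ∀ x ∉ tsupport ψ, b j x = 0 := by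
    intro j x hx
    rw [hb]
    show ψ x * _ = 0
    rw [hψ0 x hx, zero_mul]
  have ha1 : ∀ k, ContDiff ℝ 1 (a k) := by
    intro k
    refine ibp_ext hcl hψU (ha0 k) fun x hx => ?_
    rw [ha]
    exact (hφ1 x hx).mul (hDψ _ _ x)
  have hb1 : ∀ j, ContDiff ℝ 1 (b j) := by
    intro j
    refine ibp_ext hcl hψU (hb0 j) fun x hx => ?_
    rw [hb]
    exact (hψ1 x).mul (hDφ _ _ x hx)
  have hsupp : ∀ {h : (N → ℂ) → ℂ}, (∀ x ∉ tsupport ψ, h x = 0) → tsupport h ⊆ tsupport ψ := by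
    intro h h0
    exact closure_minimal (fun y hy => by
      by_contra hy'
      exact hy (h0 y hy')) hcl
  have hrow : ∀ k, ∫ x, ∑ j, A x k j * ibp_D (-Complex.I) j (a k) x = 0 := by
    intro k
    have h := hA.row (a k) (ha1 k) (HasCompactSupport.intro hcpt (ha0 k))
      ((hsupp (ha0 k)).trans hψU) k
    simp only [ibp_dz] at h
    exact h
  have hcol : ∀ j, ∫ x, ∑ k, A x k j * ibp_D Complex.I k (b j) x = 0 := by
    intro j
    have h := hA.col (b j) (hb1 j) (HasCompactSupport.intro hcpt (hb0 j))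
      ((hsupp (hb0 j)).trans hψU) j
    simp only [ibp_dzb] at h
    exact h
  -- the four families of functions
  obtain ⟨F1, hF1⟩ : ∃ F : N → N → (N → ℂ) → ℂ,
    F = fun j k x => φ x * ibp_D (-Complex.I) j (ibp_D Complex.I k ψ) x := ⟨_, rfl⟩
  obtain ⟨F2, hF2⟩ : ∃ F : N → N → (N → ℂ) → ℂ,
    F = fun j k x => ψ x * ibp_D (-Complex.I) j (ibp_D Complex.I k φ) x := ⟨_, rfl⟩
  obtain ⟨F3, hF3⟩ : ∃ F : N → N → (N → ℂ) → ℂ,
    F = fun j k x => ibp_D (-Complex.I) j (a k) x := ⟨_, rfl⟩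
  obtain ⟨F4, hF4⟩ : ∃ F : N → N → (N → ℂ) → ℂ,
    F = fun j k x => ibp_D Complex.I k (b j) x := ⟨_, rfl⟩
  have int : ∀ {h : (N → ℂ) → ℂ} (j k : N), ContinuousOn h (tsupport ψ) →
      (∀ x ∉ tsupport ψ, h x = 0) → Integrable (fun x => A x k j * h x) := by
    intro h j k hh h0
    exact wsymm_int (hA.int _ hψU hcpt k j) hcpt hh h0
  have i1 : ∀ j k, Integrable (fun x => A x k j * F1 j k x) := by
    intro j k
    rw [hF1]
    refine int j k ?_ ?_
    · refine ContinuousOn.mul (fun x hx => (hφ1 x (hψU hx)).continuousAt.continuousWithinAt) ?_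
      exact wsymm_cont _ _ fun x _ => hDψ _ _ x
    · intro x hx
      show φ x * ibp_D (-Complex.I) j (ibp_D Complex.I k ψ) x = 0
      rw [wsymm_zero hcl _ _ (hD0 _ _) x hx, mul_zero]
  have i2 : ∀ j k, Integrable (fun x => A x k j * F2 j k x) := by
    intro j k
    rw [hF2]
    refine int j k ?_ ?_
    · refine ContinuousOn.mul (fun x hx => (hψ1 x).continuousAt.continuousWithinAt) ?_
      exact wsymm_cont _ _ fun x hx => hDφ _ _ x (hψU hx)
    · intro x hx
      show ψ x * _ = 0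
      rw [hψ0 x hx, zero_mul]
  have i3 : ∀ j k, Integrable (fun x => A x k j * F3 j k x) := by
    intro j k
    rw [hF3]
    refine int j k ?_ ?_
    · exact wsymm_cont _ _ fun x _ => (ha1 k).contDiffAt
    · exact wsymm_zero hcl _ _ (ha0 k)
  have i4 : ∀ j k, Integrable (fun x => A x k j * F4 j k x) := by
    intro j k
    rw [hF4]
    refine int j k ?_ ?_
    · exact wsymm_cont _ _ fun x _ => (hb1 j).contDiffAt
    · exact wsymm_zero hcl _ _ (hb0 j)
  -- the pointwise identity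
  have key : ∀ j k x, F1 j k x - F2 j k x = F3 j k x - F4 j k x := by
    intro j k x
    rw [hF1, hF2, hF3, hF4]
    show φ x * ibp_D (-Complex.I) j (ibp_D Complex.I k ψ) x -
      ψ x * ibp_D (-Complex.I) j (ibp_D Complex.I k φ) x =
      ibp_D (-Complex.I) j (a k) x - ibp_D Complex.I k (b j) x
    by_cases hx : x ∈ U
    · have d1 := (hφ1 x hx).differentiableAt (by norm_num)
      have d2 := (hDψ Complex.I k x).differentiableAt (by norm_num)
      have d3 := (hψ1 x).differentiableAt (by norm_num)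
      have d4 := (hDφ (-Complex.I) j x hx).differentiableAt (by norm_num)
      have q1 := ibp_mul (-Complex.I) j (f := φ) (g := ibp_D Complex.I k ψ) d1 d2
      have q2 := ibp_mul Complex.I k (f := ψ) (g := ibp_D (-Complex.I) j φ) d3 d4
      have q3 := ibp_symm (-Complex.I) Complex.I j k (hφa x hx)
      have e1 : ibp_D (-Complex.I) j (a k) x = ibp_D (-Complex.I) j φ x * ibp_D Complex.I k ψ x +
          φ x * ibp_D (-Complex.I) j (ibp_D Complex.I k ψ) x := by
        rw [ha]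
        exact q1
      have e2 : ibp_D Complex.I k (b j) x = ibp_D Complex.I k ψ x * ibp_D (-Complex.I) j φ x +
          ψ x * ibp_D Complex.I k (ibp_D (-Complex.I) j φ) x := by
        rw [hb]
        exact q2
      rw [e1, e2, q3]
      ring
    · have hx' : x ∉ tsupport ψ := fun h => hx (hψU h)
      rw [wsymm_zero hcl _ _ (hD0 _ _) x hx', hψ0 x hx', wsymm_zero hcl _ _ (ha0 k) x hx',
        wsymm_zero hcl _ _ (hb0 j) x hx']
      ring
  -- the integrals
  have r1 : ∫ x, φ x * Lap A ψ x = ∑ j, ∑ k, ∫ x, A x k j * F1 j k x := by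
    have e : ∀ x, φ x * Lap A ψ x = ∑ j, ∑ k, A x k j * F1 j k x := by
      intro x
      unfold Lap
      rw [Finset.mul_sum]
      refine Finset.sum_congr rfl fun j _ => ?_
      rw [Finset.mul_sum]
      refine Finset.sum_congr rfl fun k _ => ?_
      rw [hF1, ibp_dz, ibp_dzb]
      ring
    rw [integral_congr_ae (Eventually.of_forall e),
      integral_finsetSum _ fun j _ => integrable_finsetSum _ fun k _ => i1 j k]
    exact Finset.sum_congr rfl fun j _ => integral_finsetSum _ fun k _ => i1 j k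
  have r2 : ∫ x, ψ x * Lap A φ x = ∑ j, ∑ k, ∫ x, A x k j * F2 j k x := by
    have e : ∀ x, ψ x * Lap A φ x = ∑ j, ∑ k, A x k j * F2 j k x := by
      intro x
      unfold Lap
      rw [Finset.mul_sum]
      refine Finset.sum_congr rfl fun j _ => ?_
      rw [Finset.mul_sum]
      refine Finset.sum_congr rfl fun k _ => ?_
      rw [hF2, ibp_dz, ibp_dzb]
      ring
    rw [integral_congr_ae (Eventually.of_forall e),
      integral_finsetSum _ fun j _ => integrable_finsetSum _ fun k _ => i2 j k]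
    exact Finset.sum_congr rfl fun j _ => integral_finsetSum _ fun k _ => i2 j k
  have r3 : ∑ j, ∑ k, ∫ x, A x k j * F3 j k x = 0 := by
    rw [Finset.sum_comm]
    refine Finset.sum_eq_zero fun k _ => ?_
    rw [← integral_finsetSum _ fun j _ => i3 j k, hF3]
    exact hrow k
  have r4 : ∑ j, ∑ k, ∫ x, A x k j * F4 j k x = 0 := by
    refine Finset.sum_eq_zero fun j _ => ?_
    rw [← integral_finsetSum _ fun k _ => i4 j k, hF4]
    exact hcol j
  have r5 : ∀ j k, (∫ x, A x k j * F1 j k x) - ∫ x, A x k j * F2 j k x =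
      (∫ x, A x k j * F3 j k x) - ∫ x, A x k j * F4 j k x := by
    intro j k
    rw [← integral_sub (i1 j k) (i2 j k), ← integral_sub (i3 j k) (i4 j k)]
    refine integral_congr_ae (Eventually.of_forall fun x => ?_)
    show A x k j * F1 j k x - A x k j * F2 j k x = A x k j * F3 j k x - A x k j * F4 j k x
    rw [← mul_sub, ← mul_sub, key]
  rw [r1, r2, ← sub_eq_zero, ← Finset.sum_sub_distrib]
  have r6 : ∑ j, ((∑ k, ∫ x, A x k j * F1 j k x) - ∑ k, ∫ x, A x k j * F2 j k x) =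
      ∑ j, ((∑ k, ∫ x, A x k j * F3 j k x) - ∑ k, ∫ x, A x k j * F4 j k x) := by
    refine Finset.sum_congr rfl fun j _ => ?_
    rw [← Finset.sum_sub_distrib, ← Finset.sum_sub_distrib]
    exact Finset.sum_congr rfl fun k _ => r5 j k
  rw [r6, Finset.sum_sub_distrib, r3, r4, sub_zero]

end Pool.Agent.H906.BD
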